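import Pool.Agent.H40.KADE.E1c
import Pool.Agent.H41.KA.AE1

/-!
KAC ADE: bridge between the definitions of the engine (`cv`, `FT`, `clusters`, `sol`) and those of the cluster
calculus (`cq`, `cqN`, `FinT`, `comps`, `solN`).
-/

set_option autoImplicit false

namespace Pool.Agent.H40.KADE

open scoped BigOperators
open Pool.Agent.H27.KAC

variable {I : Type} [Fintype I] [DecidableEq I]

theorem cv_eq_cq (a : I → I → ℕ) (v : I → ℚ) (i : I) : cv a v i = cq a v i := rfl

theorem cv_eq_cqN (a : I → I → ℕ) (W : Finset I) (v : I → ℚ) (hv : ∀ x, x ∉ W → v x = 0) (i : I) :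
    cv a v i = cqN a W v i := by
  unfold cv cqN
  symm
  apply Finset.sum_subset (Finset.subset_univ W)
  intro j _ hj
  rw [hv j hj, mul_zero]

theorem cqN_eq_cv (a : I → I → ℕ) (W : Finset I) (v : I → ℚ) (i : I) :
    cqN a W v i = cv a (fun j => if j ∈ W then v j else 0) i := by
  unfold cv cqN
  rw [← Finset.sum_subset (Finset.subset_univ W)]
  · refine Finset.sum_congr rfl fun j hj => ?_
    beta_reduce
    rw [if_pos hj]
  · intro j _ hj
    beta_reduce
    rw [if_neg hj, mul_zero]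

/-- the quadratic form of a symmetric matrix in terms of a vector `u`. -/
theorem Br_form (N : Finset I) (c : I → I → ℚ) (hc : ∀ i j, c i j = c j i) (u z : I → ℚ) :
    2 * ∑ i ∈ N, (u i * z i) * ∑ j ∈ N, c i j * (u j * z j) =
      2 * ∑ i ∈ N, z i ^ 2 * u i * (∑ j ∈ N, c i j * u j) +
        ∑ i ∈ N, ∑ j ∈ N, (-c i j) * u i * u j * (z i - z j) ^ 2 := by
  have h1 : ∑ i ∈ N, ∑ j ∈ N, (-c i j) * u i * u j * (z i - z j) ^ 2 =
      2 * (∑ i ∈ N, ∑ j ∈ N, c i j * u i * u j * z i * z j) -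
        (∑ i ∈ N, ∑ j ∈ N, c i j * u i * u j * z i ^ 2) -
        ∑ i ∈ N, ∑ j ∈ N, c i j * u i * u j * z j ^ 2 := by
    rw [Finset.mul_sum, ← Finset.sum_sub_distrib, ← Finset.sum_sub_distrib]
    refine Finset.sum_congr rfl fun i _ => ?_
    rw [Finset.mul_sum, ← Finset.sum_sub_distrib, ← Finset.sum_sub_distrib]
    refine Finset.sum_congr rfl fun j _ => ?_
    ring
  have h2 : ∑ i ∈ N, ∑ j ∈ N, c i j * u i * u j * z j ^ 2 =
      ∑ i ∈ N, ∑ j ∈ N, c i j * u i * u j * z i ^ 2 := by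
    rw [Finset.sum_comm]
    refine Finset.sum_congr rfl fun i _ => Finset.sum_congr rfl fun j _ => ?_
    rw [hc j i]
    ring
  have h3 : ∑ i ∈ N, z i ^ 2 * u i * (∑ j ∈ N, c i j * u j) =
      ∑ i ∈ N, ∑ j ∈ N, c i j * u i * u j * z i ^ 2 := by
    refine Finset.sum_congr rfl fun i _ => ?_
    rw [Finset.mul_sum]
    exact Finset.sum_congr rfl fun j _ => by ring
  have h4 : ∑ i ∈ N, (u i * z i) * ∑ j ∈ N, c i j * (u j * z j) =
      ∑ i ∈ N, ∑ j ∈ N, c i j * u i * u j * z i * z j := by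
    refine Finset.sum_congr rfl fun i _ => ?_
    rw [Finset.mul_sum]
    exact Finset.sum_congr rfl fun j _ => by ring
  rw [h1, h2, h3, h4]
  ring

theorem cart_symm (a : I → I → ℕ) (hs : ∀ i j, a i j = a j i) (i j : I) :
    cart a i j = cart a j i := by
  unfold cart
  rw [hs i j]
  by_cases h : i = j
  · rw [if_pos h, if_pos h.symm]
  · rw [if_neg h, if_neg (Ne.symm h)]

theorem FT_FinT (a : I → I → ℕ) (hs : ∀ i j, a i j = a j i) {W : Finset I} (h : FT a W) :
    FinT a W := by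
  refine ⟨h.loopfree, ?_⟩
  rintro v ⟨i0, hi0, hv0⟩
  obtain ⟨u, hu, hu0, hcu⟩ := h.pos
  set z : I → ℚ := fun i => v i / u i with hz
  have huz : ∀ i ∈ W, u i * z i = v i := by
    intro i hi
    simp only [hz]
    rw [mul_div_cancel₀ _ (hu i hi).ne']
  have h1 : ∑ i ∈ W, v i * cqN a W v i =
      ∑ i ∈ W, (u i * z i) * ∑ j ∈ W, ((cart a i j : ℤ) : ℚ) * (u j * z j) := by
    refine Finset.sum_congr rfl fun i hi => ?_
    rw [huz i hi]
    congr 1
    unfold cqN
    exact Finset.sum_congr rfl fun j hj => by rw [huz j hj]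
  have h2 := Br_form W (fun i j => ((cart a i j : ℤ) : ℚ)) (fun i j => by
    rw [cart_symm a hs]) u z
  have h3 : 0 < ∑ i ∈ W, z i ^ 2 * u i * (∑ j ∈ W, ((cart a i j : ℤ) : ℚ) * u j) := by
    have h4 : ∀ i ∈ W, 0 < ∑ j ∈ W, ((cart a i j : ℤ) : ℚ) * u j := by
      intro i hi
      have h5 := hcu i hi
      rw [cv_eq_cqN a W u hu0] at h5
      exact h5
    refine Finset.sum_pos' ?_ ⟨i0, hi0, ?_⟩
    · intro i hi
      have := h4 i hi
      have := hu i hi
      positivity
    · have h5 := h4 i0 hi0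
      have h6 := hu i0 hi0
      have h7 : z i0 ≠ 0 := by
        simp only [hz]
        exact div_ne_zero hv0 h6.ne'
      positivity
  have h4 : 0 ≤ ∑ i ∈ W, ∑ j ∈ W, (-((cart a i j : ℤ) : ℚ)) * u i * u j * (z i - z j) ^ 2 := by
    refine Finset.sum_nonneg fun i hi => Finset.sum_nonneg fun j hj => ?_
    by_cases hij : i = j
    · rw [hij]
      simp
    · rw [cart_ne a hij]
      have h5 := hu i hi
      have h6 := hu j hj
      push_cast
      rw [neg_neg]
      positivity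
  rw [h1]
  linarith

theorem FinT_FT (a : I → I → ℕ) (hs : ∀ i j, a i j = a j i) {W : Finset I} (h : FinT a W) :
    FT a W := by
  refine ⟨h.loopfree, solN a W (fun _ => 1), ?_, ?_, ?_⟩
  · intro x hx
    exact solN_pos_self hs h _ (fun _ _ => zero_le_one) x hx one_pos
  · intro x hx
    exact solN_out a W _ x hx
  · intro x hx
    rw [cv_eq_cqN a W _ (fun x hx => solN_out a W _ x hx), solN_spec hs h _ x hx]
    exact one_pos

theorem FT_iff_FinT (a : I → I → ℕ) (hs : ∀ i j, a i j = a j i) (W : Finset I) :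
    FT a W ↔ FinT a W := ⟨FT_FinT a hs, FinT_FT a hs⟩

theorem clusters_conn (a : I → I → ℕ) (hs : ∀ i j, a i j = a j i) {W N : Finset I}
    (h : N ∈ clusters a W) : ConnS a N := by
  refine ⟨cl_nonempty a h, ?_⟩
  intro S hS hne hSN
  by_contra hcon
  push Not at hcon
  apply hSN
  apply cl_conn a hs h hS hne
  intro x hx y hy hxy
  by_contra hyS
  have h1 := hcon x hx y hy hyS
  omega

theorem conn_clusters (a : I → I → ℕ) (hs : ∀ i j, a i j = a j i) {N : Finset I}
    (h : ConnS a N) : N ∈ clusters a N := by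
  obtain ⟨x, hx⟩ := h.1
  obtain ⟨N', hN', hxN'⟩ := cl_exists a hx
  have h1 : N' = N := by
    by_contra hne
    obtain ⟨i, hi, j, hj, hjN, hij⟩ := h.2 N' (cl_sub a hN') ⟨x, hxN'⟩ hne
    exact hjN (cl_closed a hs hN' hi hj hij)
  rw [h1] at hN'
  exact hN'

theorem clusters_eq_comps (a : I → I → ℕ) (hs : ∀ i j, a i j = a j i) (W : Finset I) :
    clusters a W = comps a W := by
  classical
  ext N
  unfold comps
  rw [Finset.mem_filter, Finset.mem_powerset]
  constructor
  · intro h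
    refine ⟨cl_sub a h, clusters_conn a hs h, ?_⟩
    intro i hi j hj hjN
    by_contra hne
    exact hjN (cl_closed a hs h hi hj (Nat.pos_of_ne_zero hne))
  · rintro ⟨h1, h2, h3⟩
    apply cl_of a hs h1 (conn_clusters a hs h2)
    intro x hx y hy hxy
    by_contra hyN
    have := h3 x hx y hy hyN
    omega

theorem FTC_iff (a : I → I → ℕ) (hs : ∀ i j, a i j = a j i) (N : Finset I) (q : I → ℚ) :
    FTC a N q ↔ FinT a N ∧ ConnS a N ∧ ∀ x ∈ N, IsZ (cqN a N q x) := by
  constructor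
  · intro h
    refine ⟨FT_FinT a hs h.ft, clusters_conn a hs h.conn, ?_⟩
    intro x hx
    obtain ⟨z, hz⟩ := h.wt x hx
    exact ⟨z, by rw [cqN_eq_cv]; exact hz⟩
  · rintro ⟨h1, h2, h3⟩
    refine ⟨FinT_FT a hs h1, conn_clusters a hs h2, ?_⟩
    intro x hx
    obtain ⟨z, hz⟩ := h3 x hx
    exact ⟨z, by rw [← cqN_eq_cv]; exact hz⟩

/-- every weight class has an admissible representative (`QOk`), differing by integers, also arbitrarily positive. -/
theorem exists_QOk (a : I → I → ℕ) (hs : ∀ i j, a i j = a j i) {N : Finset I} (h : FinT a N)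
    (q : I → ℚ) (hq : ∀ x ∈ N, IsZ (cqN a N q x)) (B : ℕ) :
    ∃ q' : I → ℚ, (∀ x, x ∉ N → q' x = q x) ∧ (∀ x ∈ N, IsZ (q' x - q x)) ∧
      ∀ x ∈ N, ∃ n : ℕ, B ≤ n ∧ cqN a N q' x = n := by
  classical
  set w : I → ℚ := solN a N (fun _ => 1) with hw
  set D : ℕ := ∏ x ∈ N, (w x).den with hD
  have hD1 : 1 ≤ D := Finset.prod_pos fun x _ => (w x).den_pos
  have hDw : ∀ x ∈ N, ∃ z : ℤ, (D : ℚ) * w x = z := by
    intro x hx
    obtain ⟨e, he⟩ : (w x).den ∣ D := Finset.dvd_prod_of_mem (fun x => (w x).den) hx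
    refine ⟨e * (w x).num, ?_⟩
    rw [he]
    push_cast
    have h1 := Rat.den_mul_eq_num (w x)
    rw [mul_comm ((w x).den : ℚ) (e : ℚ), mul_assoc, h1]
  set t : ℕ := B + ∑ x ∈ N, ⌈|cqN a N q x|⌉₊ with ht
  refine ⟨fun x => if x ∈ N then q x + t * (D * w x) else q x, ?_, ?_, ?_⟩
  · intro x hx
    beta_reduce
    rw [if_neg hx]
  · intro x hx
    beta_reduce
    rw [if_pos hx]
    obtain ⟨z, hz⟩ := hDw x hx
    refine ⟨t * z, ?_⟩
    rw [hz]
    push_cast
    ring
  · intro x hx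
    have h1 : cqN a N (fun x => if x ∈ N then q x + t * (D * w x) else q x) x =
        cqN a N q x + t * D := by
      have h2 : cqN a N w x = 1 := by
        rw [hw]
        exact solN_spec hs h _ x hx
      unfold cqN at h2 ⊢
      rw [← mul_one ((t : ℚ) * D), ← h2, Finset.mul_sum, ← Finset.sum_add_distrib]
      refine Finset.sum_congr rfl fun j hj => ?_
      beta_reduce
      rw [if_pos hj]
      ring
    obtain ⟨z, hz⟩ := hq x hx
    have h3 : |cqN a N q x| ≤ (∑ x ∈ N, ⌈|cqN a N q x|⌉₊ : ℕ) := by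
      refine (Nat.le_ceil _).trans ?_
      exact_mod_cast Finset.single_le_sum (f := fun x => ⌈|cqN a N q x|⌉₊)
        (fun _ _ => Nat.zero_le _) hx
    have h4 : (t : ℚ) * D ≥ t := by
      have h5 : (1 : ℚ) ≤ D := by exact_mod_cast hD1
      have h6 : (0 : ℚ) ≤ t := Nat.cast_nonneg _
      nlinarith
    have h5 : (t : ℚ) = B + (∑ x ∈ N, ⌈|cqN a N q x|⌉₊ : ℕ) := by
      rw [ht]
      push_cast
      ring
    have h6 := neg_abs_le (cqN a N q x)
    have h7 : (B : ℚ) ≤ cqN a N q x + t * D := by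
      linarith
    have h8 : ((B : ℤ) : ℚ) ≤ ((z + t * D : ℤ) : ℚ) := by
      push_cast
      rw [← hz]
      exact h7
    have h9 : (B : ℤ) ≤ z + t * D := by exact_mod_cast h8
    refine ⟨(z + t * D).toNat, by omega, ?_⟩
    rw [h1, hz]
    have h10 : (((z + t * D).toNat : ℤ) : ℚ) = ((z + t * D : ℤ) : ℚ) := by
      rw [Int.toNat_of_nonneg (by omega)]
    rw [Int.cast_natCast] at h10
    rw [h10]
    push_cast
    ring

/-- `sol` and `solN`. -/
theorem sol_eq_solN (a : I → I → ℕ) (hs : ∀ i j, a i j = a j i) {W : Finset I} (h : FinT a W)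
    (r : I → ℚ) : sol a W r = solN a W r := by
  funext x
  by_cases hx : x ∈ W
  · apply solN_unique hs h r
    · intro i hi
      rw [← cv_eq_cqN a W _ (fun x hx => sol_off a W r x hx)]
      exact sol_cv a (FinT_FT a hs h) r i hi
    · exact hx
  · rw [sol_off a W r x hx, solN_out a W r x hx]

end Pool.Agent.H40.KADE
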