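import Pool.Agent.H27.KAC.KFDefs
import Pool.Agent.H27.KAC.KNDefs

/-!
KAC ADE, engine: definitions.

The positive transfer system with clusters of walls in normalised form.  All exponents are rational (hatted).

A *state* at the frontier `(k | k-1)` (`k ≥ 1`) consists of
* `γ : I → ℚ` the remaining dimension vector,
* `P p : I → ℚ` exponents (`-P_i` at `Q_{i,k}`, `p_i` at `Q_{i,k-1}`), zero on the walls,
* matrices `M N` (columns `∑ M l i D_{l,k} - ∑ N l i D_{l,k-1}`); usually `M = 1` and `N = H`,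
* `W : Finset I` the set of walls, `q : I → ℚ` the classes (modulo `ℤ`), zero off `W`,
* `w : Finset I → ℕ → ℚ` the response function of every cluster (connected component of `W`).
-/

namespace Pool.Agent.H40.KADE

open scoped BigOperators
open Pool.Agent.H27.KAC

section

variable {I : Type} [Fintype I] [DecidableEq I]

/-- `(C v)_i` for a rational vector. -/
def cv (a : I → I → ℕ) (v : I → ℚ) (i : I) : ℚ := ∑ j, ((cart a i j : ℤ) : ℚ) * v j

/-- `W` is a set of loop-free vertices of finite type (`C_W` is a nonsingular M-matrix). -/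
structure FT (a : I → I → ℕ) (W : Finset I) : Prop where
  loopfree : ∀ x ∈ W, a x x = 0
  pos : ∃ u : I → ℚ, (∀ x ∈ W, 0 < u x) ∧ (∀ x, x ∉ W → u x = 0) ∧ ∀ x ∈ W, 0 < cv a u x

open Classical in
/-- the vector `v` with support in `W` and `(C v)_x = r_x` for `x ∈ W`. -/
noncomputable def sol (a : I → I → ℕ) (W : Finset I) (r : I → ℚ) : I → ℚ :=
  if h : ∃ v : I → ℚ, (∀ x, x ∉ W → v x = 0) ∧ ∀ x ∈ W, cv a v x = r x then h.choose else fun _ => 0

/-- the restriction of `m` to the complement of `W`. -/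
def offW (W : Finset I) (m : I → ℚ) (i : I) : ℚ := if i ∈ W then 0 else m i

/-- the vector which agrees with `m` outside of `W` and satisfies `(C v)_x = 0` for `x ∈ W`. -/
noncomputable def ext (a : I → I → ℕ) (W : Finset I) (m : I → ℚ) (i : I) : ℚ :=
  offW W m i + sol a W (fun x => -cv a (offW W m) x) i

/-- the unit vector. -/
def uv (j i : I) : ℚ := if i = j then 1 else 0

/-- effective Cartan entry: the Schur complement which eliminates `W` (for `l, j ∉ W`). -/
noncomputable def effC (a : I → I → ℕ) (W : Finset I) (l j : I) : ℚ := cv a (ext a W (uv j)) l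

/-- adjacency inside `W`. -/
def adjW (a : I → I → ℕ) (W : Finset I) (x y : I) : Prop := x ∈ W ∧ y ∈ W ∧ 0 < a x y

open Classical in
/-- the connected component of `x` in `W`. -/
noncomputable def comp (a : I → I → ℕ) (W : Finset I) (x : I) : Finset I :=
  W.filter (fun y => Relation.ReflTransGen (adjW a W) x y)

open Classical in
/-- the clusters: the connected components of `W`. -/
noncomputable def clusters (a : I → I → ℕ) (W : Finset I) : Finset (Finset I) := W.image (comp a W)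

open Classical in
/-- product of the weights `w_N(k)` over the clusters `N` touched by the vector `v`. -/
noncomputable def tw (a : I → I → ℕ) (W : Finset I) (w : Finset I → ℕ → ℚ) (k : ℕ) (v : I → ℚ) : ℚ :=
  ∏ N ∈ clusters a W, if ∀ x ∈ N, v x = 0 then 1 else w N k

open Classical in
/-- new response functions: a cluster touched by `v` is restarted at level `k`. -/
noncomputable def neww (cn : Finset I → (I → ℚ) → ℕ → ℚ) (w : Finset I → ℕ → ℚ) (k : ℕ)
    (q v : I → ℚ) (N : Finset I) (l : ℕ) : ℚ :=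
  if ∀ x ∈ N, v x = 0 then w N l else cn N q (k - l)

/-- weight `(P+1)(P+2)...(P+m-1) / m!` (and `1` for `m = 0`). -/
def wtq (P : ℚ) (m : ℕ) : ℚ := (∏ i ∈ Finset.range (m - 1), (P + i + 1)) / (m.factorial : ℚ)

/-- scale of a column. -/
def sclq (P : ℚ) (m : ℚ) : ℚ := if m = 0 then 1 else P

/-- the matrix which is `M` on `I \ W` and the identity on `W`. -/
def blk (W : Finset I) (M : I → I → ℚ) : Matrix I I ℚ :=
  Matrix.of (fun l i => if l ∈ W ∨ i ∈ W then (if l = i then 1 else 0) else M l i)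

/-- the identity. -/
def idm (l i : I) : ℚ := if l = i then 1 else 0

/-! ### one step at level `k`: from the frontier `(k+1 | k)` to `(k | k-1)` -/

/-- multiplicities: `n - q` on the regular and restarted vertices, `(C m)_x = 0` on the remaining walls
`W' = W \ S`. -/
noncomputable def mhat (a : I → I → ℕ) (W' : Finset I) (q : I → ℚ) (n : I → ℤ) : I → ℚ :=
  ext a W' (fun i => (n i : ℚ) - q i)

/-- the finite box of integer vectors. -/
noncomputable def boxS (W' : Finset I) (k : ℕ) (γ q : I → ℚ) : Finset (I → ℤ) :=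
  Fintype.piFinset (fun i => if i ∈ W' then {0} else Finset.Icc (⌈q i⌉) (⌊γ i / k + q i⌋))

/-- new remaining dimension vector. -/
def stG (k : ℕ) (γ m : I → ℚ) (i : I) : ℚ := γ i - (k : ℚ) * m i

/-- new classes. -/
def stQ (W' : Finset I) (q m : I → ℚ) (i : I) : ℚ := if i ∈ W' then q i + m i else 0

/-- new upper exponents. -/
noncomputable def stP (a : I → I → ℕ) (P p m : I → ℚ) (i : I) : ℚ := 2 * P i - p i + cv a m i

/-- columns: upper forms (`W` = old walls, `W'` = remaining walls). -/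
noncomputable def stM (a : I → I → ℕ) (W W' : Finset I) (P : I → ℚ) (H : I → I → ℚ) (m : I → ℚ)
    (l j : I) : ℚ :=
  if j ∈ W then effC a W' l j
  else sclq (P j) (m j) * ((if l = j then 2 else 0) - H l j) + m j * effC a W' l j

/-- columns: lower forms. -/
noncomputable def stN (W : Finset I) (P m : I → ℚ) (l j : I) : ℚ :=
  if l = j ∧ j ∉ W then sclq (P j) (m j) else 0

/-- weight of the regular vertices. -/
noncomputable def stw (W : Finset I) (P : I → ℚ) (n : I → ℤ) : ℚ :=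
  ∏ j ∈ Finset.univ \ W, wtq (P j) (n j).toNat

/-! ### creation at the frontier `(k | k-1)` -/

/-- the new walls. -/
def crX (W : Finset I) (P : I → ℚ) : Finset I := Finset.univ.filter (fun i => i ∉ W ∧ P i = 0)

/-- the vector `Q`. -/
noncomputable def crQ (a : I → I → ℕ) (W X : Finset I) (p : I → ℚ) : I → ℚ :=
  sol a (W ∪ X) (fun x => if x ∈ X then p x else 0)

/-- the new remaining dimension vector. -/
def crG (k : ℕ) (γ Q : I → ℚ) (i : I) : ℚ := γ i - ((k : ℚ) - 1) * Q i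

/-- the new lower exponents. -/
def crp (a : I → I → ℕ) (p Q : I → ℚ) (i : I) : ℚ := p i - cv a Q i

/-- the new classes. -/
def crq (q Q : I → ℚ) (i : I) : ℚ := q i + Q i

/-- the new matrix `H`. -/
noncomputable def crH (a : I → I → ℕ) (W X : Finset I) (H : I → I → ℚ) (l i : I) : ℚ :=
  if l ∈ W ∪ X ∨ i ∈ W ∪ X then 0
  else H l i - ∑ x ∈ X, cv a (sol a (W ∪ X) (fun y => if y = x then 1 else 0)) l * H x i

/-! ### the interface -/

/-- admissible response functions at the frontier `(k+1 | k)`: a cluster restarted at the level `L ≥ k`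
with response `w l = c_q (L - l)`, or a top cluster with `w = 1`. -/
def AdmW (cn : Finset I → (I → ℚ) → ℕ → ℚ) (k : ℕ) (N : Finset I) (γ q : I → ℚ) (w : ℕ → ℚ) : Prop :=
  (∃ L : ℕ, k ≤ L ∧ (∀ l ≤ k, w l = cn N q (L - l)) ∧ ∀ x ∈ N, ∃ z : ℤ, γ x + L * q x = z) ∨
    ((∀ x ∈ N, q x = 0) ∧ (∀ l ≤ k, w l = 1) ∧ ∀ x ∈ N, ∃ z : ℤ, γ x = z)

/-- consistency of a state at the frontier `(k | k-1)`. -/
structure GS (a : I → I → ℕ) (cn : Finset I → (I → ℚ) → ℕ → ℚ) (k : ℕ) (γ P p : I → ℚ)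
    (W : Finset I) (q : I → ℚ) (w : Finset I → ℕ → ℚ) : Prop where
  ft : FT a W
  P0 : ∀ x ∈ W, P x = 0
  p0 : ∀ x ∈ W, p x = 0
  q0 : ∀ i, i ∉ W → q i = 0
  cons : ∀ i, cv a γ i = ((k : ℚ) - 1) * p i - (k : ℚ) * P i
  int : ∀ i, ∃ z : ℤ, P i - p i - cv a q i = z
  gint : ∀ i, i ∉ W → ∃ z : ℤ, γ i = z
  adm : ∀ N ∈ clusters a W, AdmW cn (k - 1) N γ q (w N)

/-- `N` is a connected set of loop-free vertices of finite type and `q` is an element of the weight lattice
of `N` (its values outside of `N` are irrelevant). -/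
structure FTC (a : I → I → ℕ) (N : Finset I) (q : I → ℚ) : Prop where
  ft : FT a N
  conn : N ∈ clusters a N
  wt : ∀ x ∈ N, ∃ z : ℤ, cv a (fun i => if i ∈ N then q i else 0) x = z

/-- the properties of the response numbers used by the engine. -/
structure CN (a : I → I → ℕ) (cn : Finset I → (I → ℚ) → ℕ → ℚ) : Prop where
  congr : ∀ (N : Finset I) (q q' : I → ℚ) (g : ℕ), (∀ x ∈ N, q x = q' x) → cn N q g = cn N q' g
  nonneg : ∀ (N : Finset I) (q : I → ℚ) (g : ℕ), FTC a N q → 0 ≤ cn N q g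
  int : ∀ (N : Finset I) (q : I → ℚ) (g : ℕ), FTC a N q → cn N q g ≠ 0 →
    ∀ x ∈ N, ∃ z : ℤ, (g : ℚ) * q x = z

/-- the walls of the top states. -/
def Zt (a : I → I → ℕ) (α : I →₀ ℕ) : Finset I :=
  Finset.univ.filter (fun i => a i i = 0 ∧ cw a α i = 0)

/-- The interface between the cluster calculus and the engine.
`G k γ P p M N W q w` is the value of the state at the frontier `(k | k-1)` with columns
`∑ M l i D_{l,k} - ∑ N l i D_{l,k-1}` (`l, i ∉ W`). -/
structure ClusterVal (a : I → I → ℕ) (cn : Finset I → (I → ℚ) → ℕ → ℚ)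
    (G : ℕ → (I → ℚ) → (I → ℚ) → (I → ℚ) → (I → I → ℚ) → (I → I → ℚ) → Finset I → (I → ℚ) →
      (Finset I → ℕ → ℚ) → ℚ) : Prop where
  /-- one step at level `k`. -/
  step : ∀ (k : ℕ) (γ P p : I → ℚ) (H : I → I → ℚ) (W : Finset I) (q : I → ℚ)
    (w : Finset I → ℕ → ℚ), 1 ≤ k → GS a cn (k + 1) γ P p W q w →
    (∀ i, i ∉ W → 0 < P i) → (∀ i, 0 ≤ p i) → (∀ l i, l ∈ W ∨ i ∈ W → H l i = 0) →
    G (k + 1) γ P p idm H W q w =
      ∑ S ∈ W.powerset, ∑ n ∈ (boxS (W \ S) k γ q).filter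
          (fun n => ∀ s ∈ S, 0 < cv a (mhat a (W \ S) q n) s),
        stw W P n * tw a W w k (mhat a (W \ S) q n) *
          G k (stG k γ (mhat a (W \ S) q n)) (stP a P p (mhat a (W \ S) q n)) P
            (stM a W (W \ S) P H (mhat a (W \ S) q n)) (stN W P (mhat a (W \ S) q n)) (W \ S)
            (stQ (W \ S) q (mhat a (W \ S) q n))
            (neww cn w k (stQ (W \ S) q (mhat a (W \ S) q n)) (mhat a (W \ S) q n))
  /-- creation of walls. -/
  create : ∀ (k : ℕ) (γ P p : I → ℚ) (H : I → I → ℚ) (W : Finset I) (q : I → ℚ)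
    (w : Finset I → ℕ → ℚ), 2 ≤ k → GS a cn k γ P p W q w →
    (∀ i, 0 ≤ P i) → (∀ i, 0 ≤ p i) → (∀ l i, l ∈ W ∨ i ∈ W → H l i = 0) →
    FT a (W ∪ crX W P) → (∀ x ∈ crX W P, 0 < p x) →
    G k γ P p idm H W q w =
      tw a W w (k - 1) (crQ a W (crX W P) p) *
        G k (crG k γ (crQ a W (crX W P) p)) P (crp a p (crQ a W (crX W P) p)) idm
          (crH a W (crX W P) H) (W ∪ crX W P) (crq q (crQ a W (crX W P) p))
          (neww cn w (k - 1) (crq q (crQ a W (crX W P) p)) (crQ a W (crX W P) p))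
  /-- a regular loop-free vertex with negative upper exponent. -/
  vanNeg : ∀ (k : ℕ) (γ P p : I → ℚ) (M N : I → I → ℚ) (W : Finset I) (q : I → ℚ)
    (w : Finset I → ℕ → ℚ) (l : I), 2 ≤ k → GS a cn k γ P p W q w → (∀ i, 0 ≤ p i) →
    l ∉ W → a l l = 0 → P l < 0 → 0 < p l → G k γ P p M N W q w = 0
  /-- normalisation of the columns. -/
  norm : ∀ (k : ℕ) (γ P p : I → ℚ) (M N H : I → I → ℚ) (W : Finset I) (q : I → ℚ)
    (w : Finset I → ℕ → ℚ),
    (∀ l i, l ∉ W → i ∉ W → N l i = ∑ l' ∈ Finset.univ \ W, H l l' * M l' i) →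
    G k γ P p M N W q w = (blk W M).det * G k γ P p idm H W q w
  /-- the value depends polynomially on `H`. -/
  poly : ∀ (k : ℕ) (γ P p : I → ℚ) (H : I → I → ℚ) (W : Finset I) (q : I → ℚ)
    (w : Finset I → ℕ → ℚ), ∃ f : Polynomial ℚ,
    ∀ δ : ℚ, G k γ P p idm (fun l i => (1 - δ) * H l i) W q w = f.eval δ
  /-- the end: frontier `(1 | 0)`. -/
  bot : ∀ (γ P p : I → ℚ) (M N : I → I → ℚ) (W : Finset I) (q : I → ℚ)
    (w : Finset I → ℕ → ℚ), GS a cn 1 γ P p W q w →
    G 1 γ P p M N W q w = if ∀ i, γ i = 0 then (blk W M).det * ∏ N ∈ clusters a W, w N 0 else 0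
  /-- the top states are the states of the landed transfer system. -/
  top : ∀ (α : I →₀ ℕ) (K : ℕ) (μ : I → ℚ) (ε : ℚ),
    FT a (Zt a α) →
    (∀ i, a i i = 0 → cw a α i = 0 → μ i = 0) →
    Val a α ⟨fun _ => K + 1, fun i => -cw a α i, fun i => -cw a α i,
        fun l i => if l = i then 1 - ε * μ i else 0⟩ =
      G (K + 1) (fun i => (α i : ℚ)) (fun i => -((cw a α i : ℤ) : ℚ)) (fun i => -((cw a α i : ℤ) : ℚ))
        idm (fun l i => if l = i ∧ ¬ (a i i = 0 ∧ cw a α i = 0) then 1 - ε * μ i else 0)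
        (Zt a α) (fun _ => 0) (fun _ _ => 1)

/-- states before the creation of walls: the invariants of the engine (`H` normal form). -/
structure Pre (a : I → I → ℕ) (cn : Finset I → (I → ℚ) → ℕ → ℚ) (k : ℕ) (γ P p : I → ℚ)
    (H : I → I → ℚ) (W : Finset I) (q : I → ℚ) (w : Finset I → ℕ → ℚ) : Prop
    extends GS a cn k γ P p W q w where
  H0 : ∀ l i, l ∈ W ∨ i ∈ W → H l i = 0
  Hnn : ∀ l i, 0 ≤ H l i
  Pnn : ∀ i, 0 ≤ P i
  Pz : ∀ i, i ∉ W → P i = 0 → a i i = 0 ∧ 0 < p i
  pnn : ∀ i, 0 ≤ p i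
  dnn : ∀ l, ∑ i, H l i * P i ≤ p l
  gnn : ∀ i, 0 ≤ γ i

/-- fresh states: the invariants of the engine (`H` normal form). -/
structure Fresh (a : I → I → ℕ) (cn : Finset I → (I → ℚ) → ℕ → ℚ) (k : ℕ) (γ P p : I → ℚ)
    (H : I → I → ℚ) (W : Finset I) (q : I → ℚ) (w : Finset I → ℕ → ℚ) : Prop
    extends GS a cn k γ P p W q w where
  H0 : ∀ l i, l ∈ W ∨ i ∈ W → H l i = 0
  Hnn : ∀ l i, 0 ≤ H l i
  Ppos : ∀ i, i ∉ W → 0 < P i
  pnn : ∀ i, 0 ≤ p i
  dnn : ∀ l, ∑ i, H l i * P i ≤ p l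
  gnn : ∀ i, 0 ≤ γ i

/-- ample dimension vectors (no condition on nonadjacency). -/
structure Amp (a : I → I → ℕ) (α : I →₀ ℕ) : Prop where
  supp : ∀ i, 1 ≤ α i
  pos : ∀ i, a i i = 0 → 0 ≤ -cw a α i
  posl : ∀ i, a i i ≠ 0 → 0 < -cw a α i
  ex : ∃ i, 0 < -cw a α i

end

end Pool.Agent.H40.KADE
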