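import Pool.Agent.H40.KADE.Defs

/-!
KAC ADE engine, module E1: linear algebra of `cv`, `FT`, `sol`, `ext`, `effC`.

* `FT_nonneg` (comparison): let `u` be the vector of `FT.pos`; if `v` is negative somewhere on `W`, take
  `t = max_{x ∈ W} (-v_x / u_x) > 0`, attained at `x0`; `v + t u ≥ 0` everywhere, `= 0` at `x0`, so
  `(C (v + t u))_{x0} ≤ 0` (off-diagonal entries are `≤ 0`), but it is `(C v)_{x0} + t (C u)_{x0} > 0`.
* `sol_spec`: the linear map `v ↦ (C v)|_W` on vectors supported in `W` is injective (`FT_nonneg` for `± v`), hence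
  surjective (`LinearMap.injective_iff_surjective` for `W → ℚ`).
* `cv_ext`: `ext a W m = ∑_{j ∉ W} m_j ext a W (uv j)` (uniqueness).
-/

set_option autoImplicit false

namespace Pool.Agent.H40.KADE

open scoped BigOperators
open Pool.Agent.H27.KAC

variable {I : Type} [Fintype I] [DecidableEq I]

theorem cart_ne (a : I → I → ℕ) {i j : I} (h : i ≠ j) : cart a i j = -(a i j : ℤ) := by
  unfold cart; rw [if_neg h]; ring

theorem cart_self (a : I → I → ℕ) (i : I) : cart a i i = 2 - (a i i : ℤ) := by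
  unfold cart; rw [if_pos rfl]

theorem cv_add (a : I → I → ℕ) (v w : I → ℚ) (i : I) :
    cv a (fun j => v j + w j) i = cv a v i + cv a w i := by
  unfold cv; rw [← Finset.sum_add_distrib]; exact Finset.sum_congr rfl fun j _ => by ring

theorem cv_sub (a : I → I → ℕ) (v w : I → ℚ) (i : I) :
    cv a (fun j => v j - w j) i = cv a v i - cv a w i := by
  unfold cv; rw [← Finset.sum_sub_distrib]; exact Finset.sum_congr rfl fun j _ => by ring

theorem cv_neg (a : I → I → ℕ) (v : I → ℚ) (i : I) : cv a (fun j => -v j) i = -cv a v i := by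
  unfold cv; rw [← Finset.sum_neg_distrib]; exact Finset.sum_congr rfl fun j _ => by ring

theorem cv_smul (a : I → I → ℕ) (c : ℚ) (v : I → ℚ) (i : I) :
    cv a (fun j => c * v j) i = c * cv a v i := by
  unfold cv; rw [Finset.mul_sum]; exact Finset.sum_congr rfl fun j _ => by ring

theorem cv_zero (a : I → I → ℕ) (i : I) : cv a (fun _ => (0 : ℚ)) i = 0 := by
  unfold cv; exact Finset.sum_eq_zero fun j _ => by ring

theorem cv_sum (a : I → I → ℕ) {ι : Type} (s : Finset ι) (f : ι → I → ℚ) (i : I) :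
    cv a (fun j => ∑ t ∈ s, f t j) i = ∑ t ∈ s, cv a (f t) i := by
  unfold cv
  rw [Finset.sum_comm]
  refine Finset.sum_congr rfl fun j _ => ?_
  rw [Finset.mul_sum]

/-- an integral vector has an integral image. -/
theorem cv_int (a : I → I → ℕ) (v : I → ℚ) (hv : ∀ i, ∃ z : ℤ, v i = z) (i : I) :
    ∃ z : ℤ, cv a v i = z := by
  choose f hf using hv
  refine ⟨∑ j, cart a i j * f j, ?_⟩
  unfold cv
  push_cast
  exact Finset.sum_congr rfl fun j _ => by rw [hf j]

private theorem E1_split (a : I → I → ℕ) (v : I → ℚ) (i : I) :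
    cv a v i = ((cart a i i : ℤ) : ℚ) * v i - ∑ j ∈ Finset.univ.erase i, (a i j : ℚ) * v j := by
  unfold cv
  rw [← Finset.add_sum_erase _ _ (Finset.mem_univ i), sub_eq_add_neg, ← Finset.sum_neg_distrib]
  congr 1
  refine Finset.sum_congr rfl (fun j hj => ?_)
  rw [cart_ne a (Finset.ne_of_mem_erase hj).symm]
  push_cast
  ring

/-- off-diagonal part is nonpositive for nonnegative vectors. -/
theorem cv_le_diag (a : I → I → ℕ) (v : I → ℚ) (i : I) (hv : ∀ j, j ≠ i → 0 ≤ v j) :
    cv a v i ≤ ((cart a i i : ℤ) : ℚ) * v i := by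
  rw [E1_split]
  have h : 0 ≤ ∑ j ∈ Finset.univ.erase i, (a i j : ℚ) * v j :=
    Finset.sum_nonneg (fun j hj => mul_nonneg (Nat.cast_nonneg _) (hv j (Finset.ne_of_mem_erase hj)))
  linarith

/-- if `v ≥ 0`, `v i = 0` then `(C v)_i ≤ 0`. -/
theorem cv_nonpos (a : I → I → ℕ) (v : I → ℚ) (i : I) (hv : ∀ j, 0 ≤ v j) (hi : v i = 0) :
    cv a v i ≤ 0 := by
  have h := cv_le_diag a v i (fun j _ => hv j)
  rwa [hi, mul_zero] at h

/-- if `v ≥ 0`, `v i = 0` and `(C v)_i = 0` then `v` vanishes at all neighbours of `i`. -/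
theorem cv_zero_nbr (a : I → I → ℕ) (v : I → ℚ) (i : I) (hv : ∀ j, 0 ≤ v j) (hi : v i = 0)
    (hc : cv a v i = 0) (j : I) (hj : 0 < a i j) : v j = 0 := by
  by_cases hji : j = i
  · rw [hji, hi]
  · rw [E1_split, hi, mul_zero, zero_sub, neg_eq_zero] at hc
    have h1 := (Finset.sum_eq_zero_iff_of_nonneg
      (fun j _ => mul_nonneg (Nat.cast_nonneg (a i j)) (hv j))).1 hc j
      (Finset.mem_erase.2 ⟨hji, Finset.mem_univ j⟩)
    rcases mul_eq_zero.1 h1 with h2 | h2
    · have h3 : a i j = 0 := by exact_mod_cast h2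
      omega
    · exact h2

theorem FT_empty (a : I → I → ℕ) : FT a (∅ : Finset I) := by
  refine ⟨fun x hx => absurd hx (Finset.notMem_empty x), fun _ => 0,
    fun x hx => absurd hx (Finset.notMem_empty x), fun x _ => rfl,
    fun x hx => absurd hx (Finset.notMem_empty x)⟩

theorem FT_mono (a : I → I → ℕ) {W T : Finset I} (h : FT a W) (hT : T ⊆ W) : FT a T := by
  obtain ⟨u, h1, h2, h3⟩ := h.pos
  have hu : ∀ x, 0 ≤ u x := by
    intro x
    by_cases hx : x ∈ W
    · exact (h1 x hx).le
    · rw [h2 x hx]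
  refine ⟨fun x hx => h.loopfree x (hT hx), fun i => if i ∈ T then u i else 0,
    fun x hx => ?_, fun x hx => ?_, fun x hx => ?_⟩
  · simp only [if_pos hx]
    exact h1 x (hT hx)
  · simp only [if_neg hx]
  · have h4 : cv a (fun j => u j - (if j ∈ T then u j else 0)) x ≤ 0 := by
      apply cv_nonpos
      · intro j
        split_ifs
        · rw [sub_self]
        · rw [sub_zero]
          exact hu j
      · rw [if_pos hx, sub_self]
    rw [cv_sub] at h4
    have h5 := h3 x (hT hx)
    linarith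

/-- comparison. -/
theorem FT_nonneg (a : I → I → ℕ) {W : Finset I} (h : FT a W) (v : I → ℚ)
    (h0 : ∀ x, x ∉ W → 0 ≤ v x) (h1 : ∀ x ∈ W, 0 ≤ cv a v x) : ∀ x, 0 ≤ v x := by
  intro x
  by_contra hx
  have hx' : v x < 0 := not_le.1 hx
  have hxW : x ∈ W := by
    by_contra hxW
    exact hx (h0 x hxW)
  obtain ⟨u, hu1, hu2, hu3⟩ := h.pos
  obtain ⟨x0, hx0, hmax⟩ := Finset.exists_max_image W (fun y => -v y / u y) ⟨x, hxW⟩
  set t : ℚ := -v x0 / u x0 with ht
  have htx : -v x / u x ≤ t := hmax x hxW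
  have htpos : 0 < t := lt_of_lt_of_le (div_pos (by linarith) (hu1 x hxW)) htx
  have hnn : ∀ y, 0 ≤ v y + t * u y := by
    intro y
    by_cases hy : y ∈ W
    · have h2 : -v y / u y ≤ t := hmax y hy
      have h3 : -v y ≤ t * u y := (div_le_iff₀ (hu1 y hy)).1 h2
      linarith
    · rw [hu2 y hy, mul_zero, add_zero]
      exact h0 y hy
  have hz : v x0 + t * u x0 = 0 := by
    have h2 : t * u x0 = -v x0 := by
      rw [ht]
      exact div_mul_cancel₀ _ (hu1 x0 hx0).ne'
    linarith
  have h4 := cv_nonpos a (fun y => v y + t * u y) x0 hnn hz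
  rw [cv_add, cv_smul] at h4
  have h5 := h1 x0 hx0
  have h6 := mul_pos htpos (hu3 x0 hx0)
  linarith

theorem FT_eq_zero (a : I → I → ℕ) {W : Finset I} (h : FT a W) (v : I → ℚ)
    (h0 : ∀ x, x ∉ W → v x = 0) (h1 : ∀ x ∈ W, cv a v x = 0) : ∀ x, v x = 0 := by
  have h2 := FT_nonneg a h v (fun x hx => (h0 x hx).ge) (fun x hx => (h1 x hx).ge)
  have h3 := FT_nonneg a h (fun x => -v x) (fun x hx => by rw [h0 x hx, neg_zero])
    (fun x hx => by rw [cv_neg, h1 x hx, neg_zero])
  intro x
  have h4 := h2 x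
  have h5 := h3 x
  linarith

theorem FT_unique (a : I → I → ℕ) {W : Finset I} (h : FT a W) (v v' : I → ℚ)
    (h0 : ∀ x, x ∉ W → v x = v' x) (h1 : ∀ x ∈ W, cv a v x = cv a v' x) : ∀ x, v x = v' x := by
  intro x
  have h2 := FT_eq_zero a h (fun x => v x - v' x) (fun x hx => by rw [h0 x hx, sub_self])
    (fun x hx => by rw [cv_sub, h1 x hx, sub_self]) x
  linarith

theorem sol_off (a : I → I → ℕ) (W : Finset I) (r : I → ℚ) (x : I) (hx : x ∉ W) :
    sol a W r x = 0 := by
  unfold sol
  split_ifs with h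
  · exact h.choose_spec.1 x hx
  · rfl

private theorem E1_exists (a : I → I → ℕ) {W : Finset I} (h : FT a W) (r : I → ℚ) :
    ∃ v : I → ℚ, (∀ x, x ∉ W → v x = 0) ∧ ∀ x ∈ W, cv a v x = r x := by
  classical
  let e : (W → ℚ) → I → ℚ := fun f i => if hi : i ∈ W then f ⟨i, hi⟩ else 0
  have he_add : ∀ f g : W → ℚ, e (f + g) = fun i => e f i + e g i := by
    intro f g
    funext i
    simp only [e]
    split_ifs
    · rfl
    · rw [add_zero]
  have he_smul : ∀ (c : ℚ) (f : W → ℚ), e (c • f) = fun i => c * e f i := by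
    intro c f
    funext i
    simp only [e]
    split_ifs
    · rfl
    · rw [mul_zero]
  let φ : (W → ℚ) →ₗ[ℚ] (W → ℚ) :=
    { toFun := fun f x => cv a (e f) x.1
      map_add' := by
        intro f g
        funext x
        simp only [he_add, Pi.add_apply]
        exact cv_add a (e f) (e g) x.1
      map_smul' := by
        intro c f
        funext x
        simp only [he_smul, Pi.smul_apply, smul_eq_mul, RingHom.id_apply]
        exact cv_smul a c (e f) x.1 }
  have hinj : Function.Injective φ := by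
    rw [injective_iff_map_eq_zero]
    intro f hf
    funext x
    have h1 := FT_eq_zero a h (e f) (fun y hy => by simp only [e, dif_neg hy])
      (fun y hy => congrFun hf ⟨y, hy⟩) x.1
    simp only [e, dif_pos x.2] at h1
    exact h1
  have hsurj : Function.Surjective φ := LinearMap.injective_iff_surjective.1 hinj
  obtain ⟨f, hf⟩ := hsurj (fun x => r x.1)
  refine ⟨e f, fun x hx => by simp only [e, dif_neg hx], fun x hx => congrFun hf ⟨x, hx⟩⟩

theorem sol_cv (a : I → I → ℕ) {W : Finset I} (h : FT a W) (r : I → ℚ) (x : I) (hx : x ∈ W) :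
    cv a (sol a W r) x = r x := by
  have hex := E1_exists a h r
  unfold sol
  rw [dif_pos hex]
  exact hex.choose_spec.2 x hx

theorem sol_nonneg (a : I → I → ℕ) {W : Finset I} (h : FT a W) (r : I → ℚ)
    (hr : ∀ x ∈ W, 0 ≤ r x) (x : I) : 0 ≤ sol a W r x := by
  refine FT_nonneg a h (sol a W r) (fun y hy => (sol_off a W r y hy).ge) (fun y hy => ?_) x
  rw [sol_cv a h r y hy]
  exact hr y hy

theorem ext_off (a : I → I → ℕ) (W : Finset I) (m : I → ℚ) (x : I) (hx : x ∉ W) :
    ext a W m x = m x := by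
  unfold ext offW
  rw [sol_off a W _ x hx, if_neg hx, add_zero]

private theorem E1_ext_cv (a : I → I → ℕ) (W : Finset I) (m : I → ℚ) (x : I) :
    cv a (ext a W m) x = cv a (offW W m) x + cv a (sol a W (fun x => -cv a (offW W m) x)) x :=
  cv_add a (offW W m) (sol a W (fun x => -cv a (offW W m) x)) x

theorem ext_cv (a : I → I → ℕ) {W : Finset I} (h : FT a W) (m : I → ℚ) (x : I) (hx : x ∈ W) :
    cv a (ext a W m) x = 0 := by
  rw [E1_ext_cv, sol_cv a h _ x hx, add_neg_cancel]

theorem ext_nonneg (a : I → I → ℕ) {W : Finset I} (h : FT a W) (m : I → ℚ)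
    (hm : ∀ x, x ∉ W → 0 ≤ m x) (x : I) : 0 ≤ ext a W m x := by
  refine FT_nonneg a h (ext a W m) (fun y hy => ?_) (fun y hy => (ext_cv a h m y hy).ge) x
  rw [ext_off a W m y hy]
  exact hm y hy

theorem ext_unique (a : I → I → ℕ) {W : Finset I} (h : FT a W) (m v : I → ℚ)
    (h0 : ∀ x, x ∉ W → v x = m x) (h1 : ∀ x ∈ W, cv a v x = 0) : ∀ x, v x = ext a W m x := by
  refine FT_unique a h v (ext a W m) (fun x hx => ?_) (fun x hx => ?_)
  · rw [h0 x hx, ext_off a W m x hx]
  · rw [h1 x hx, ext_cv a h m x hx]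

theorem ext_empty (a : I → I → ℕ) (m : I → ℚ) (x : I) : ext a ∅ m x = m x := by
  exact ext_off a ∅ m x (by simp)

/-- the effective Cartan matrix. -/
theorem cv_ext (a : I → I → ℕ) {W : Finset I} (h : FT a W) (m : I → ℚ) (l : I) :
    cv a (ext a W m) l = ∑ j ∈ Finset.univ \ W, effC a W l j * m j := by
  have h1 : ∀ x, (∑ j ∈ Finset.univ \ W, m j * ext a W (uv j) x) = ext a W m x := by
    refine ext_unique a h m (fun x => ∑ j ∈ Finset.univ \ W, m j * ext a W (uv j) x)
      (fun x hx => ?_) (fun x hx => ?_)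
    · rw [Finset.sum_eq_single x]
      · rw [ext_off a W (uv x) x hx]
        unfold uv
        rw [if_pos rfl, mul_one]
      · intro j _ hj
        rw [ext_off a W (uv j) x hx]
        unfold uv
        rw [if_neg hj.symm, mul_zero]
      · intro hx'
        exact absurd (Finset.mem_sdiff.2 ⟨Finset.mem_univ x, hx⟩) hx'
    · rw [cv_sum]
      refine Finset.sum_eq_zero (fun j _ => ?_)
      rw [cv_smul, ext_cv a h (uv j) x hx, mul_zero]
  have h2 : ext a W m = fun x => ∑ j ∈ Finset.univ \ W, m j * ext a W (uv j) x := by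
    funext x
    exact (h1 x).symm
  rw [h2, cv_sum]
  refine Finset.sum_congr rfl (fun j _ => ?_)
  rw [cv_smul]
  unfold effC
  ring

private theorem E1_cv_uv (a : I → I → ℕ) (l j : I) :
    cv a (uv j) l = ((cart a l j : ℤ) : ℚ) := by
  unfold cv
  rw [Finset.sum_eq_single j]
  · unfold uv
    rw [if_pos rfl, mul_one]
  · intro i _ hi
    unfold uv
    rw [if_neg hi, mul_zero]
  · intro hj
    exact absurd (Finset.mem_univ j) hj

private theorem E1_uv_nonneg (j x : I) : 0 ≤ uv j x := by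
  unfold uv
  split_ifs
  · exact zero_le_one
  · exact le_refl 0

theorem effC_empty (a : I → I → ℕ) (l j : I) : effC a ∅ l j = ((cart a l j : ℤ) : ℚ) := by
  unfold effC
  have h : ext a ∅ (uv j) = uv j := by
    funext x
    exact ext_empty a (uv j) x
  rw [h, E1_cv_uv]

theorem effC_nonpos (a : I → I → ℕ) {W : Finset I} (h : FT a W) {l j : I} (hl : l ∉ W)
    (hj : j ∉ W) (hlj : l ≠ j) : effC a W l j ≤ 0 := by
  unfold effC
  apply cv_nonpos
  · exact ext_nonneg a h (uv j) (fun x _ => E1_uv_nonneg j x)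
  · rw [ext_off a W (uv j) l hl]
    unfold uv
    rw [if_neg hlj]

theorem effC_le (a : I → I → ℕ) {W : Finset I} (h : FT a W) {l j : I} (hl : l ∉ W)
    (hj : j ∉ W) : effC a W l j ≤ ((cart a l j : ℤ) : ℚ) := by
  unfold effC
  have h1 : offW W (uv j) = uv j := by
    funext x
    unfold offW
    by_cases hx : x ∈ W
    · rw [if_pos hx]
      unfold uv
      rw [if_neg (fun h' : x = j => hj (by rw [← h']; exact hx))]
    · rw [if_neg hx]
  rw [E1_ext_cv, h1, E1_cv_uv]
  have h2 : cv a (sol a W (fun x => -cv a (uv j) x)) l ≤ 0 := by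
    apply cv_nonpos
    · intro x
      refine sol_nonneg a h _ (fun y hy => ?_) x
      have h3 : cv a (uv j) y ≤ 0 := by
        apply cv_nonpos
        · exact E1_uv_nonneg j
        · unfold uv
          rw [if_neg (fun h' : y = j => hj (by rw [← h']; exact hy))]
      linarith
    · exact sol_off a W _ l hl
  linarith

/-- a vector with positive image is positive. -/
theorem sol_pos_of (a : I → I → ℕ) (v : I → ℚ) (hv : ∀ j, 0 ≤ v j) (x : I) (hx : 0 < cv a v x) :
    0 < v x := by
  by_contra h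
  have h1 : v x = 0 := le_antisymm (not_lt.1 h) (hv x)
  have h2 := cv_nonpos a v x hv h1
  linarith

end Pool.Agent.H40.KADE
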