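import Pool.Agent.H40.KADE.E1

/-!
KAC ADE engine, module E1c: clusters (connected components of `W`).

`comp a W x` is the set of `y ∈ W` with `Relation.ReflTransGen (adjW a W) x y`; for symmetric `a` this is an equivalence
relation on `W`.
-/

set_option autoImplicit false

namespace Pool.Agent.H40.KADE

open scoped BigOperators
open Pool.Agent.H27.KAC

variable {I : Type} [Fintype I] [DecidableEq I]

private theorem E1c_mem_comp (a : I → I → ℕ) {W : Finset I} {x y : I} :
    y ∈ comp a W x ↔ y ∈ W ∧ Relation.ReflTransGen (adjW a W) x y := by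
  classical
  unfold comp
  exact Finset.mem_filter

private theorem E1c_mem_clusters (a : I → I → ℕ) {W N : Finset I} :
    N ∈ clusters a W ↔ ∃ x ∈ W, comp a W x = N := by
  classical
  unfold clusters
  exact Finset.mem_image

private theorem E1c_symm (a : I → I → ℕ) (hs : ∀ i j, a i j = a j i) {W : Finset I} {x y : I}
    (h : Relation.ReflTransGen (adjW a W) x y) : Relation.ReflTransGen (adjW a W) y x := by
  induction h with
  | refl => exact Relation.ReflTransGen.refl
  | tail _ hbc ih =>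
    exact Relation.ReflTransGen.head ⟨hbc.2.1, hbc.1, by rw [hs]; exact hbc.2.2⟩ ih

private theorem E1c_comp_eq (a : I → I → ℕ) (hs : ∀ i j, a i j = a j i) {W : Finset I} {x y : I}
    (h : y ∈ comp a W x) : comp a W y = comp a W x := by
  have hxy := (E1c_mem_comp a).1 h
  ext z
  rw [E1c_mem_comp, E1c_mem_comp]
  constructor
  · rintro ⟨hz, hyz⟩
    exact ⟨hz, hxy.2.trans hyz⟩
  · rintro ⟨hz, hxz⟩
    exact ⟨hz, (E1c_symm a hs hxy.2).trans hxz⟩

theorem cl_sub (a : I → I → ℕ) {W N : Finset I} (h : N ∈ clusters a W) : N ⊆ W := by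
  obtain ⟨x, hx, rfl⟩ := (E1c_mem_clusters a).1 h
  intro y hy
  exact ((E1c_mem_comp a).1 hy).1

theorem cl_nonempty (a : I → I → ℕ) {W N : Finset I} (h : N ∈ clusters a W) : N.Nonempty := by
  obtain ⟨x, hx, rfl⟩ := (E1c_mem_clusters a).1 h
  exact ⟨x, (E1c_mem_comp a).2 ⟨hx, Relation.ReflTransGen.refl⟩⟩

theorem cl_exists (a : I → I → ℕ) {W : Finset I} {x : I} (hx : x ∈ W) :
    ∃ N ∈ clusters a W, x ∈ N := by
  exact ⟨comp a W x, (E1c_mem_clusters a).2 ⟨x, hx, rfl⟩,
    (E1c_mem_comp a).2 ⟨hx, Relation.ReflTransGen.refl⟩⟩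

theorem cl_unique (a : I → I → ℕ) (hs : ∀ i j, a i j = a j i) {W N N' : Finset I}
    (h : N ∈ clusters a W) (h' : N' ∈ clusters a W) {x : I} (hx : x ∈ N) (hx' : x ∈ N') : N = N' := by
  obtain ⟨u, hu, rfl⟩ := (E1c_mem_clusters a).1 h
  obtain ⟨u', hu', rfl⟩ := (E1c_mem_clusters a).1 h'
  rw [← E1c_comp_eq a hs hx, ← E1c_comp_eq a hs hx']

/-- a cluster is closed under adjacency in `W`. -/
theorem cl_closed (a : I → I → ℕ) (hs : ∀ i j, a i j = a j i) {W N : Finset I}
    (h : N ∈ clusters a W) {x y : I} (hx : x ∈ N) (hy : y ∈ W) (hxy : 0 < a x y) : y ∈ N := by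
  obtain ⟨u, hu, rfl⟩ := (E1c_mem_clusters a).1 h
  have hux := (E1c_mem_comp a).1 hx
  exact (E1c_mem_comp a).2 ⟨hy, hux.2.tail ⟨hux.1, hy, hxy⟩⟩

/-- connectedness of a cluster: a nonempty subset which is closed under adjacency is everything. -/
theorem cl_conn (a : I → I → ℕ) (hs : ∀ i j, a i j = a j i) {W N : Finset I}
    (h : N ∈ clusters a W) {T : Finset I} (hT : T ⊆ N) (hne : T.Nonempty)
    (hcl : ∀ x ∈ T, ∀ y ∈ N, 0 < a x y → y ∈ T) : T = N := by
  apply Finset.Subset.antisymm hT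
  obtain ⟨t, ht⟩ := hne
  have key : ∀ y, Relation.ReflTransGen (adjW a W) t y → y ∈ T := by
    intro y hy
    induction hy with
    | refl => exact ht
    | tail _ hbc ih =>
      exact hcl _ ih _ (cl_closed a hs h (hT ih) hbc.2.1 hbc.2.2) hbc.2.2
  obtain ⟨u, hu, rfl⟩ := (E1c_mem_clusters a).1 h
  intro y hy
  have h1 := hT ht
  rw [← E1c_comp_eq a hs h1] at hy
  exact key y ((E1c_mem_comp a).1 hy).2

theorem cl_self (a : I → I → ℕ) (hs : ∀ i j, a i j = a j i) {W N : Finset I}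
    (h : N ∈ clusters a W) : N ∈ clusters a N := by
  obtain ⟨x, hx⟩ := cl_nonempty a h
  refine (E1c_mem_clusters a).2 ⟨x, hx, ?_⟩
  have hmem : comp a N x ∈ clusters a N := (E1c_mem_clusters a).2 ⟨x, hx, rfl⟩
  refine cl_conn a hs h (cl_sub a hmem) (cl_nonempty a hmem) ?_
  intro u hu y hy huy
  exact cl_closed a hs hmem hu hy huy

theorem cl_of (a : I → I → ℕ) (hs : ∀ i j, a i j = a j i) {W N : Finset I} (hN : N ⊆ W)
    (h : N ∈ clusters a N) (hcl : ∀ x ∈ N, ∀ y ∈ W, 0 < a x y → y ∈ N) : N ∈ clusters a W := by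
  obtain ⟨x, hx⟩ := cl_nonempty a h
  have hxW : x ∈ W := hN hx
  have hmem : comp a W x ∈ clusters a W := (E1c_mem_clusters a).2 ⟨x, hxW, rfl⟩
  have hxc : x ∈ comp a W x := (E1c_mem_comp a).2 ⟨hxW, Relation.ReflTransGen.refl⟩
  have hsub : comp a W x ⊆ N := by
    intro y hy
    have hy2 := ((E1c_mem_comp a).1 hy).2
    clear hy
    induction hy2 with
    | refl => exact hx
    | tail _ hbc ih => exact hcl _ ih _ hbc.2.1 hbc.2.2
  have heq : comp a W x = N := by
    refine cl_conn a hs h hsub ⟨x, hxc⟩ ?_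
    intro u hu y hy huy
    exact cl_closed a hs hmem hu (hN hy) huy
  rw [← heq]
  exact hmem

theorem cl_mono (a : I → I → ℕ) (hs : ∀ i j, a i j = a j i) {W W' N : Finset I} (hW : W' ⊆ W)
    (h : N ∈ clusters a W') : ∃ N' ∈ clusters a W, N ⊆ N' := by
  obtain ⟨x, hx, rfl⟩ := (E1c_mem_clusters a).1 h
  refine ⟨comp a W x, (E1c_mem_clusters a).2 ⟨x, hW hx, rfl⟩, ?_⟩
  intro y hy
  obtain ⟨hy1, hy2⟩ := (E1c_mem_comp a).1 hy
  refine (E1c_mem_comp a).2 ⟨hW hy1, ?_⟩
  clear hy hy1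
  induction hy2 with
  | refl => exact Relation.ReflTransGen.refl
  | tail _ hbc ih => exact ih.tail ⟨hW hbc.1, hW hbc.2.1, hbc.2.2⟩

/-- if in addition `v = 0` on `N` then no neighbour of `N` has `v > 0`. -/
theorem cl_zero_nbr (a : I → I → ℕ) {W N : Finset I}
    (h : N ∈ clusters a W) (v : I → ℚ) (hv : ∀ i, 0 ≤ v i) (hc : ∀ x ∈ W, cv a v x = 0)
    (h0 : ∀ x ∈ N, v x = 0) {x y : I} (hx : x ∈ N) (hxy : 0 < a x y) : v y = 0 := by
  exact cv_zero_nbr a v x hv (h0 x hx) (hc x (cl_sub a h hx)) y hxy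

/-- zero set principle: if `v ≥ 0`, `(C v)_x = 0` on `W`, then on every cluster of `W` either `v = 0`
or `v > 0` everywhere. -/
theorem cl_zero_or (a : I → I → ℕ) (hs : ∀ i j, a i j = a j i) {W N : Finset I}
    (h : N ∈ clusters a W) (v : I → ℚ) (hv : ∀ i, 0 ≤ v i) (hc : ∀ x ∈ W, cv a v x = 0) :
    (∀ x ∈ N, v x = 0) ∨ ∀ x ∈ N, 0 < v x := by
  classical
  by_cases hne : (N.filter (fun x => v x = 0)).Nonempty
  · left
    have hT : N.filter (fun x => v x = 0) = N := by
      refine cl_conn a hs h (Finset.filter_subset _ _) hne ?_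
      intro x hx y hy hxy
      rw [Finset.mem_filter] at hx ⊢
      exact ⟨hy, cv_zero_nbr a v x hv hx.2 (hc x (cl_sub a h hx.1)) y hxy⟩
    intro x hx
    rw [← hT, Finset.mem_filter] at hx
    exact hx.2
  · right
    intro x hx
    refine lt_of_le_of_ne (hv x) ?_
    intro h0
    exact hne ⟨x, Finset.mem_filter.2 ⟨hx, h0.symm⟩⟩

/-- the values outside of `N` are irrelevant for vectors supported in `W`. -/
theorem cl_cv (a : I → I → ℕ) (hs : ∀ i j, a i j = a j i) {W N : Finset I}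
    (h : N ∈ clusters a W) (v : I → ℚ) (hv : ∀ i, i ∉ W → v i = 0) {x : I} (hx : x ∈ N) :
    cv a (fun i => if i ∈ N then v i else 0) x = cv a v x := by
  unfold cv
  refine Finset.sum_congr rfl fun i _ => ?_
  by_cases hi : i ∈ N
  · simp only [if_pos hi]
  · simp only [if_neg hi, mul_zero]
    by_cases hiW : i ∈ W
    · have ha : a x i = 0 := by
        by_contra hne
        exact hi (cl_closed a hs h hx hiW (Nat.pos_of_ne_zero hne))
      have hxi : x ≠ i := by
        rintro rfl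
        exact hi hx
      rw [cart_ne a hxi, ha]
      simp
    · rw [hv i hiW, mul_zero]

theorem clusters_empty (a : I → I → ℕ) : clusters a (∅ : Finset I) = ∅ := by
  classical
  unfold clusters
  exact Finset.image_empty _

end Pool.Agent.H40.KADE
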