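import Pool.Agent.H40.KADE.E1

/-!
KAC ADE engine, module E1d: the walls together with the created walls are of finite type (automatically).
-/

set_option autoImplicit false

namespace Pool.Agent.H40.KADE

open scoped BigOperators
open Pool.Agent.H27.KAC

variable {I : Type} [Fintype I] [DecidableEq I]

/-- a small positive number. -/
theorem E1d_small (X : Finset I) (b c : I → ℚ) (hc : ∀ x ∈ X, 0 < c x) :
    ∃ ε : ℚ, 0 < ε ∧ ∀ x ∈ X, 0 < c x + ε * b x := by
  classical
  induction X using Finset.induction_on with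
  | empty => exact ⟨1, one_pos, fun x hx => absurd hx (Finset.notMem_empty x)⟩
  | insert y X hy ih =>
    obtain ⟨ε, hε, h⟩ := ih (fun x hx => hc x (Finset.mem_insert_of_mem hx))
    have hcy := hc y (Finset.mem_insert_self y X)
    have h1 : (0 : ℚ) < 1 + |b y| := by positivity
    refine ⟨min ε (c y / (2 * (1 + |b y|))), lt_min hε (by positivity), ?_⟩
    intro x hx
    have hm0 : 0 < min ε (c y / (2 * (1 + |b y|))) := lt_min hε (by positivity)
    rcases Finset.mem_insert.1 hx with rfl | hx
    · have h2 : min ε (c x / (2 * (1 + |b x|))) ≤ c x / (2 * (1 + |b x|)) := min_le_right _ _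
      have h3 : min ε (c x / (2 * (1 + |b x|))) * (1 + |b x|) ≤ c x / 2 := by
        have h4 : min ε (c x / (2 * (1 + |b x|))) * (1 + |b x|) ≤
            c x / (2 * (1 + |b x|)) * (1 + |b x|) := mul_le_mul_of_nonneg_right h2 h1.le
        refine h4.trans (le_of_eq ?_)
        field_simp
      have h5 := neg_abs_le (b x)
      have h6 : min ε (c x / (2 * (1 + |b x|))) * (-|b x|) ≤
          min ε (c x / (2 * (1 + |b x|))) * b x := mul_le_mul_of_nonneg_left h5 hm0.le
      nlinarith
    · have h2 := h x hx
      have h3 : min ε (c y / (2 * (1 + |b y|))) ≤ ε := min_le_left _ _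
      have h4 := hc x (Finset.mem_insert_of_mem hx)
      by_cases hb : 0 ≤ b x
      · have : 0 ≤ min ε (c y / (2 * (1 + |b y|))) * b x := mul_nonneg hm0.le hb
        linarith
      · push Not at hb
        have : ε * b x ≤ min ε (c y / (2 * (1 + |b y|))) * b x :=
          mul_le_mul_of_nonpos_right h3 hb.le
        linarith

/-- `W ∪ X` is of finite type. -/
theorem FT_cr (a : I → I → ℕ) {cn : Finset I → (I → ℚ) → ℕ → ℚ} {k : ℕ} (hk : 2 ≤ k)
    {γ P p : I → ℚ} {W : Finset I} {q : I → ℚ} {w : Finset I → ℕ → ℚ}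
    (h : GS a cn k γ P p W q w) (hγ : ∀ i, 0 ≤ γ i)
    (hX : ∀ x ∈ crX W P, a x x = 0 ∧ 0 < p x) : FT a (W ∪ crX W P) := by
  classical
  obtain ⟨u, hu, hu0, hcu⟩ := h.ft.pos
  have hunn : ∀ i, 0 ≤ u i := by
    intro i
    by_cases hi : i ∈ W
    · exact (hu i hi).le
    · rw [hu0 i hi]
  have hk1 : (0 : ℚ) < (k : ℚ) - 1 := by
    have : (2 : ℚ) ≤ (k : ℚ) := by exact_mod_cast hk
    linarith
  have hXP : ∀ x ∈ crX W P, x ∉ W ∧ P x = 0 := by
    intro x hx
    unfold crX at hx
    exact (Finset.mem_filter.1 hx).2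
  obtain ⟨ε, hε, hεx⟩ := E1d_small (crX W P) (fun x => cv a u x) (fun x => cv a γ x) (by
    intro x hx
    beta_reduce
    rw [h.cons x, (hXP x hx).2]
    have := mul_pos hk1 (hX x hx).2
    linarith)
  set Z := W ∪ crX W P with hZ
  set off : I → ℚ := fun i => if i ∈ Z then 0 else γ i with hoff
  have hoffnn : ∀ i, 0 ≤ off i := by
    intro i
    simp only [hoff]
    split_ifs
    · exact le_rfl
    · exact hγ i
  have hWZ : ∀ x ∈ W, x ∈ Z := fun x hx => Finset.mem_union_left _ hx
  have hcv : ∀ x ∈ Z, 0 < cv a γ x + ε * cv a u x := by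
    intro x hx
    rcases Finset.mem_union.1 hx with hx | hx
    · have h1 := h.cons x
      rw [h.P0 x hx, h.p0 x hx] at h1
      have h2 := mul_pos hε (hcu x hx)
      rw [h1]
      linarith
    · exact hεx x hx
  have hy : ∀ x ∈ Z, 0 < γ x + ε * u x := by
    intro x hx
    rcases Finset.mem_union.1 hx with hxW | hxX
    · have := mul_pos hε (hu x hxW)
      have := hγ x
      linarith
    · apply sol_pos_of a (fun i => γ i + ε * u i) _ x
      · rw [cv_add a γ (fun i => ε * u i), cv_smul]
        exact hcv x hx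
      · intro j
        have := mul_nonneg hε.le (hunn j)
        have := hγ j
        linarith
  refine ⟨?_, fun i => (γ i - off i) + ε * u i, ?_, ?_, ?_⟩
  · intro x hx
    rcases Finset.mem_union.1 hx with hx | hx
    · exact h.ft.loopfree x hx
    · exact (hX x hx).1
  · intro x hx
    have h1 : off x = 0 := by
      simp only [hoff]
      rw [if_pos hx]
    beta_reduce
    rw [h1, sub_zero]
    exact hy x hx
  · intro x hx
    have h1 : off x = γ x := by
      simp only [hoff]
      rw [if_neg hx]
    beta_reduce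
    rw [h1, hu0 x (fun h => hx (hWZ x h))]
    ring
  · intro x hx
    have h1 : off x = 0 := by
      simp only [hoff]
      rw [if_pos hx]
    rw [cv_add a (fun i => γ i - off i) (fun i => ε * u i), cv_sub, cv_smul]
    have h2 := cv_nonpos a off x hoffnn h1
    have h3 := hcv x hx
    linarith

end Pool.Agent.H40.KADE
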