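import Mathlib

/-!
KAC ADE engine, module E2: M-matrices (Z-matrices `A` with a positive vector `y`, `A y ≥ 0`).

* `mm_comp` (comparison, over any linearly ordered field, here needed over `ℚ` and `ℝ`): if `A v ≥ 0` and `v` is negative
  somewhere, let `t = max (-v_i / y_i) > 0` and `T` the set where it is attained; `v + t y ≥ 0`, `= 0` exactly on `T`; for
  `l ∈ T`: `0 ≤ (A (v + t y))_l = ∑_{j ∉ T} A_lj (v + t y)_j ≤ 0`, so `(A y)_l = 0` and `A_lj = 0` for `j ∉ T`.
* `mm_det_nonneg`: for `s ∈ (0, 1]` the matrix `(1 - s) A + s` satisfies the hypotheses with `A y > 0`, so it is injective,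
  so its determinant is `≠ 0` (over `ℝ`); it is `1` at `s = 1`, continuous, hence `> 0` on `(0,1]` (IVT), `≥ 0` at `s = 0`.
* `mm_det_ge`: row by row: `det A ≥ det (A with row i replaced by ρ_i e_i)` because the difference is the determinant of a
  matrix of the same kind (multilinearity in row `i`), `ρ_i = r_i / y_i`; finally the diagonal matrix.
* `mm_tree`: the same with `row i = ρ_i e_i` for the root and `row i = w_i (e_i / ... )`, see the statement.
-/

set_option autoImplicit false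

namespace Pool.Agent.H40.KADE

open scoped BigOperators
open Matrix

variable {I : Type} [Fintype I] [DecidableEq I]

/-- comparison. -/
theorem mm_comp {K : Type} [Field K] [LinearOrder K] [IsStrictOrderedRing K] (A : Matrix I I K)
    (hZ : ∀ i j, i ≠ j → A i j ≤ 0) (y : I → K) (hy : ∀ i, 0 < y i)
    (hAy : ∀ i, 0 ≤ (A *ᵥ y) i)
    (htr : ∀ T : Finset I, T.Nonempty → (∀ l ∈ T, (A *ᵥ y) l = 0) → ∃ l ∈ T, ∃ j, j ∉ T ∧ A l j ≠ 0)
    (v : I → K) (hv : ∀ i, 0 ≤ (A *ᵥ v) i) : ∀ i, 0 ≤ v i := by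
  by_contra hcon
  push Not at hcon
  obtain ⟨i0, hi0⟩ := hcon
  have hne : (Finset.univ : Finset I).Nonempty := ⟨i0, Finset.mem_univ _⟩
  obtain ⟨m, -, hm⟩ := Finset.exists_max_image Finset.univ (fun i => -v i / y i) hne
  set t : K := -v m / y m with ht
  have ht0 : 0 < t := lt_of_lt_of_le (div_pos (by linarith) (hy i0)) (hm i0 (Finset.mem_univ _))
  have hge : ∀ i, 0 ≤ v i + t * y i := by
    intro i
    have h1 := hm i (Finset.mem_univ _)
    have h2 : -v i / y i ≤ t := h1
    rw [div_le_iff₀ (hy i)] at h2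
    linarith
  set T : Finset I := Finset.univ.filter (fun i => v i + t * y i = 0) with hT
  have hmT : m ∈ T := by
    rw [hT, Finset.mem_filter]
    refine ⟨Finset.mem_univ _, ?_⟩
    rw [ht, div_mul_cancel₀ _ (hy m).ne']
    ring
  have hkey : ∀ l ∈ T, (A *ᵥ v) l + t * (A *ᵥ y) l = ∑ j, A l j * (v j + t * y j) := by
    intro l _
    simp only [Matrix.mulVec, dotProduct, Finset.mul_sum]
    rw [← Finset.sum_add_distrib]
    refine Finset.sum_congr rfl fun j _ => by ring
  have hnonpos : ∀ l ∈ T, ∀ j, A l j * (v j + t * y j) ≤ 0 := by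
    intro l hl j
    rcases eq_or_ne l j with rfl | hlj
    · rw [(Finset.mem_filter.mp hl).2, mul_zero]
    · exact mul_nonpos_of_nonpos_of_nonneg (hZ l j hlj) (hge j)
  have hzero : ∀ l ∈ T, (A *ᵥ y) l = 0 ∧ ∀ j, A l j * (v j + t * y j) = 0 := by
    intro l hl
    have h1 := hkey l hl
    have h2 : ∑ j, A l j * (v j + t * y j) ≤ 0 := Finset.sum_nonpos fun j _ => hnonpos l hl j
    have h3 := hv l
    have h4 := mul_nonneg ht0.le (hAy l)
    have h5 : t * (A *ᵥ y) l = 0 := by linarith
    have h6 : ∑ j, A l j * (v j + t * y j) = 0 := by linarith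
    refine ⟨(mul_eq_zero.mp h5).resolve_left ht0.ne', fun j => ?_⟩
    have h7 := (Finset.sum_eq_zero_iff_of_nonpos (fun j _ => hnonpos l hl j)).mp h6
    exact h7 j (Finset.mem_univ _)
  obtain ⟨l, hl, j, hj, hne'⟩ := htr T ⟨m, hmT⟩ (fun l hl => (hzero l hl).1)
  have h8 := (hzero l hl).2 j
  rcases mul_eq_zero.mp h8 with h9 | h9
  · exact hne' h9
  · exact hj (by rw [hT, Finset.mem_filter]; exact ⟨Finset.mem_univ _, h9⟩)

/-- injectivity. -/
theorem E2_det_ne {K : Type} [Field K] [LinearOrder K] [IsStrictOrderedRing K] (A : Matrix I I K)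
    (hZ : ∀ i j, i ≠ j → A i j ≤ 0) (y : I → K) (hy : ∀ i, 0 < y i)
    (hAy : ∀ i, 0 ≤ (A *ᵥ y) i)
    (htr : ∀ T : Finset I, T.Nonempty → (∀ l ∈ T, (A *ᵥ y) l = 0) → ∃ l ∈ T, ∃ j, j ∉ T ∧ A l j ≠ 0) :
    A.det ≠ 0 := by
  intro h0
  obtain ⟨v, hv, hAv⟩ := Matrix.exists_mulVec_eq_zero_iff.mpr h0
  apply hv
  have h1 := mm_comp A hZ y hy hAy htr v (fun i => by rw [hAv]; exact le_refl _)
  have h2 := mm_comp A hZ y hy hAy htr (-v) (fun i => by
    rw [Matrix.mulVec_neg, hAv, neg_zero]; exact le_refl _)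
  funext i
  have h3 := h2 i
  rw [Pi.neg_apply] at h3
  have h4 : v i ≤ 0 := by linarith
  exact le_antisymm h4 (h1 i)

theorem mm_det_nonneg (A : Matrix I I ℚ) (hZ : ∀ i j, i ≠ j → A i j ≤ 0) (y : I → ℚ)
    (hy : ∀ i, 0 < y i) (hAy : ∀ i, 0 ≤ (A *ᵥ y) i) : 0 ≤ A.det := by
  set B : Matrix I I ℝ := A.map (fun q : ℚ => (q : ℝ)) with hB
  have hBdet : B.det = ((A.det : ℚ) : ℝ) := by
    have := (RingHom.map_det (Rat.castHom ℝ) A)
    rw [hB]
    exact this.symm
  set z : I → ℝ := fun i => ((y i : ℚ) : ℝ) with hz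
  have hzpos : ∀ i, 0 < z i := fun i => by
    have h1 : (0 : ℝ) < ((y i : ℚ) : ℝ) := by exact_mod_cast hy i
    exact h1
  have hBz : ∀ i, 0 ≤ (B *ᵥ z) i := by
    intro i
    have h1 : (B *ᵥ z) i = (((A *ᵥ y) i : ℚ) : ℝ) := by
      simp only [Matrix.mulVec, dotProduct, hB, hz, Matrix.map_apply]
      push_cast
      rfl
    rw [h1]
    exact_mod_cast hAy i
  set f : ℝ → ℝ := fun s => ((1 - s) • B + s • (1 : Matrix I I ℝ)).det with hf
  have hcont : Continuous f := by
    refine Continuous.matrix_det ?_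
    exact ((continuous_const.sub continuous_id).smul continuous_const).add
      (continuous_id.smul continuous_const)
  have hf1 : f 1 = 1 := by
    simp [hf]
  have hf0 : f 0 = B.det := by
    simp [hf]
  have hne : ∀ s : ℝ, 0 < s → s ≤ 1 → f s ≠ 0 := by
    intro s hs hs1
    have hMz : ∀ i, 0 < (((1 - s) • B + s • (1 : Matrix I I ℝ)) *ᵥ z) i := by
      intro i
      have h1 : (((1 - s) • B + s • (1 : Matrix I I ℝ)) *ᵥ z) i = (1 - s) * (B *ᵥ z) i + s * z i := by
        rw [Matrix.add_mulVec, Matrix.smul_mulVec, Matrix.smul_mulVec, Matrix.one_mulVec]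
        rfl
      rw [h1]
      have h2 := mul_nonneg (by linarith : (0:ℝ) ≤ 1 - s) (hBz i)
      have h3 := mul_pos hs (hzpos i)
      linarith
    refine E2_det_ne _ ?_ z hzpos (fun i => (hMz i).le) ?_
    · intro i j hij
      have h1 : ((1 - s) • B + s • (1 : Matrix I I ℝ)) i j = (1 - s) * ((A i j : ℚ) : ℝ) := by
        simp [hB, Matrix.add_apply, Matrix.smul_apply, Matrix.one_apply_ne hij]
      rw [h1]
      have h2 : ((A i j : ℚ) : ℝ) ≤ 0 := by exact_mod_cast hZ i j hij
      exact mul_nonpos_of_nonneg_of_nonpos (by linarith) h2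
    · intro T hT hTz
      obtain ⟨l, hl⟩ := hT
      exact absurd (hTz l hl) (hMz l).ne'
  by_contra hneg
  push Not at hneg
  have hf0neg : f 0 < 0 := by
    rw [hf0, hBdet]
    exact_mod_cast hneg
  have hmem : (0 : ℝ) ∈ Set.Icc (f 0) (f 1) := ⟨hf0neg.le, by rw [hf1]; norm_num⟩
  obtain ⟨s, hs, hfs⟩ := intermediate_value_Icc (by norm_num : (0:ℝ) ≤ 1) hcont.continuousOn hmem
  rcases eq_or_lt_of_le hs.1 with h | h
  · rw [← h] at hfs
    linarith
  · exact hne s h hs.2 hfs

theorem mm_det_pos (A : Matrix I I ℚ) (hZ : ∀ i j, i ≠ j → A i j ≤ 0) (y : I → ℚ)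
    (hy : ∀ i, 0 < y i) (hAy : ∀ i, 0 ≤ (A *ᵥ y) i)
    (htr : ∀ T : Finset I, T.Nonempty → (∀ l ∈ T, (A *ᵥ y) l = 0) → ∃ l ∈ T, ∃ j, j ∉ T ∧ A l j ≠ 0) :
    0 < A.det :=
  lt_of_le_of_ne (mm_det_nonneg A hZ y hy hAy) (E2_det_ne A hZ y hy hAy htr).symm

theorem mm_inv_nonneg (A : Matrix I I ℚ) (hZ : ∀ i j, i ≠ j → A i j ≤ 0) (y : I → ℚ)
    (hy : ∀ i, 0 < y i) (hAy : ∀ i, 0 ≤ (A *ᵥ y) i)
    (htr : ∀ T : Finset I, T.Nonempty → (∀ l ∈ T, (A *ᵥ y) l = 0) → ∃ l ∈ T, ∃ j, j ∉ T ∧ A l j ≠ 0)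
    (i j : I) : 0 ≤ A⁻¹ i j := by
  have hdet := mm_det_pos A hZ y hy hAy htr
  have hunit : IsUnit A.det := isUnit_iff_ne_zero.mpr hdet.ne'
  have hmul := Matrix.mul_nonsing_inv A hunit
  refine mm_comp A hZ y hy hAy htr (fun k => A⁻¹ k j) (fun l => ?_) i
  have h1 : (A *ᵥ (fun k => A⁻¹ k j)) l = (A * A⁻¹) l j := by
    rw [Matrix.mul_apply]
    rfl
  rw [h1, hmul, Matrix.one_apply]
  split_ifs <;> norm_num

/-- one row replacement. -/
theorem E2_step (A : Matrix I I ℚ) (hZ : ∀ i j, i ≠ j → A i j ≤ 0) (y : I → ℚ)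
    (hy : ∀ i, 0 < y i) (hAy : ∀ i, 0 ≤ (A *ᵥ y) i) (i : I) (w : I → ℚ)
    (hw : ∀ j, j ≠ i → A i j ≤ w j) (hwy : ∑ j, w j * y j ≤ (A *ᵥ y) i) :
    (A.updateRow i w).det ≤ A.det := by
  have h1 : A = A.updateRow i ((fun j => A i j - w j) + w) := by
    ext a b
    rcases eq_or_ne a i with rfl | ha
    · rw [Matrix.updateRow_self]
      simp
    · rw [Matrix.updateRow_ne ha]
  have h2 : A.det = (A.updateRow i (fun j => A i j - w j)).det + (A.updateRow i w).det := by
    conv_lhs => rw [h1]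
    exact Matrix.det_updateRow_add A i _ _
  have h3 : 0 ≤ (A.updateRow i (fun j => A i j - w j)).det := by
    refine mm_det_nonneg _ ?_ y hy ?_
    · intro a b hab
      rcases eq_or_ne a i with rfl | ha
      · rw [Matrix.updateRow_self]
        have := hw b (Ne.symm hab)
        linarith
      · rw [Matrix.updateRow_ne ha]
        exact hZ a b hab
    · intro a
      rcases eq_or_ne a i with rfl | ha
      · have h4 : ((A.updateRow a (fun j => A a j - w j)) *ᵥ y) a = (A *ᵥ y) a - ∑ j, w j * y j := by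
          simp only [Matrix.mulVec, dotProduct, Matrix.updateRow_self]
          rw [← Finset.sum_sub_distrib]
          refine Finset.sum_congr rfl fun j _ => by ring
        rw [h4]
        linarith
      · have h4 : ((A.updateRow i (fun j => A i j - w j)) *ᵥ y) a = (A *ᵥ y) a := by
          simp only [Matrix.mulVec, dotProduct, Matrix.updateRow_ne ha]
        rw [h4]
        exact hAy a
  linarith

/-- the rows in `S` replaced by the rows of `W`. -/
def E2_mix (A W : Matrix I I ℚ) (S : Finset I) : Matrix I I ℚ :=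
  Matrix.of fun i j => if i ∈ S then W i j else A i j

theorem E2_mix_row (A W : Matrix I I ℚ) (S : Finset I) (i j : I) :
    E2_mix A W S i j = if i ∈ S then W i j else A i j := rfl

theorem E2_mix_insert (A W : Matrix I I ℚ) (S : Finset I) (i : I) :
    E2_mix A W (insert i S) = (E2_mix A W S).updateRow i (W i) := by
  ext a b
  rcases eq_or_ne a i with rfl | ha
  · rw [Matrix.updateRow_self, E2_mix_row, if_pos (Finset.mem_insert_self _ _)]
  · rw [Matrix.updateRow_ne ha, E2_mix_row, E2_mix_row]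
    simp [Finset.mem_insert, ha]

/-- all the row replacements. -/
theorem E2_mix_le (A W : Matrix I I ℚ) (hZ : ∀ i j, i ≠ j → A i j ≤ 0) (y : I → ℚ)
    (hy : ∀ i, 0 < y i)
    (hW0 : ∀ i j, i ≠ j → W i j ≤ 0) (hWA : ∀ i j, i ≠ j → A i j ≤ W i j)
    (hWy : ∀ i, 0 ≤ (W *ᵥ y) i) (hWAy : ∀ i, (W *ᵥ y) i ≤ (A *ᵥ y) i) :
    W.det ≤ A.det := by
  have hmv : ∀ (S : Finset I) (i : I), ((E2_mix A W S) *ᵥ y) i =
      if i ∈ S then (W *ᵥ y) i else (A *ᵥ y) i := by
    intro S i
    simp only [Matrix.mulVec, dotProduct, E2_mix_row]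
    split_ifs <;> rfl
  have key : ∀ S : Finset I, (E2_mix A W S).det ≤ A.det := by
    intro S
    induction S using Finset.induction_on with
    | empty =>
      have : E2_mix A W ∅ = A := by
        ext a b
        rw [E2_mix_row, if_neg (Finset.notMem_empty _)]
      rw [this]
    | insert i S hi ih =>
      rw [E2_mix_insert]
      refine le_trans (E2_step _ ?_ y hy ?_ i (W i) ?_ ?_) ih
      · intro a b hab
        rw [E2_mix_row]
        split_ifs
        · exact hW0 a b hab
        · exact hZ a b hab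
      · intro a
        rw [hmv]
        split_ifs
        · exact hWy a
        · exact le_trans (hWy a) (hWAy a)
      · intro j hj
        rw [E2_mix_row, if_neg hi]
        exact hWA i j (Ne.symm hj)
      · rw [hmv, if_neg hi]
        exact hWAy i
  have hu : E2_mix A W Finset.univ = W := by
    ext a b
    rw [E2_mix_row, if_pos (Finset.mem_univ _)]
  have := key Finset.univ
  rwa [hu] at this

/-- lower bound by the product of the scaled row sums. -/
theorem mm_det_ge (A : Matrix I I ℚ) (hZ : ∀ i j, i ≠ j → A i j ≤ 0) (y r : I → ℚ)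
    (hy : ∀ i, 0 < y i) (hr : ∀ i, 0 ≤ r i) (hAy : ∀ i, r i ≤ (A *ᵥ y) i) :
    ∏ i, (r i / y i) ≤ A.det := by
  have hd : (Matrix.diagonal (fun i => r i / y i)).det = ∏ i, (r i / y i) := Matrix.det_diagonal
  rw [← hd]
  have hDy : ∀ i, ((Matrix.diagonal (fun i => r i / y i)) *ᵥ y) i = r i := by
    intro i
    rw [Matrix.mulVec_diagonal]
    exact div_mul_cancel₀ _ (hy i).ne'
  refine E2_mix_le A _ hZ y hy ?_ ?_ ?_ ?_
  · intro i j hij
    rw [Matrix.diagonal_apply_ne _ hij]
  · intro i j hij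
    rw [Matrix.diagonal_apply_ne _ hij]
    exact hZ i j hij
  · intro i
    rw [hDy]
    exact hr i
  · intro i
    rw [hDy]
    exact hAy i

/-- lower bound for the diagonal entry of the inverse times the determinant. -/
theorem mm_minor (A : Matrix I I ℚ) (hZ : ∀ i j, i ≠ j → A i j ≤ 0) (y r : I → ℚ)
    (hy : ∀ i, 0 < y i) (hr : ∀ i, 0 ≤ r i) (hAy : ∀ i, r i ≤ (A *ᵥ y) i) (hdet : A.det ≠ 0) (i0 : I) :
    ∏ i ∈ Finset.univ.erase i0, (r i / y i) ≤ A.det * A⁻¹ i0 i0 := by
  have h1 : A.det * A⁻¹ i0 i0 = (A.updateRow i0 (Pi.single i0 1)).det := by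
    rw [← Matrix.adjugate_apply, Matrix.inv_def, Matrix.smul_apply, Ring.inverse_eq_inv',
      smul_eq_mul, ← mul_assoc, mul_inv_cancel₀ hdet, one_mul]
  rw [h1]
  have h2 := mm_det_ge (A.updateRow i0 (Pi.single i0 1)) ?_ y (Function.update r i0 (y i0)) hy ?_ ?_
  · refine le_trans (le_of_eq ?_) h2
    rw [← Finset.mul_prod_erase Finset.univ _ (Finset.mem_univ i0), Function.update_self,
      div_self (hy i0).ne', one_mul]
    refine Finset.prod_congr rfl fun i hi => ?_
    rw [Function.update_of_ne (Finset.ne_of_mem_erase hi)]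
  · intro a b hab
    rcases eq_or_ne a i0 with rfl | ha
    · rw [Matrix.updateRow_self, Pi.single_eq_of_ne (Ne.symm hab)]
    · rw [Matrix.updateRow_ne ha]
      exact hZ a b hab
  · intro a
    rcases eq_or_ne a i0 with rfl | ha
    · rw [Function.update_self]
      exact (hy _).le
    · rw [Function.update_of_ne ha]
      exact hr a
  · intro a
    rcases eq_or_ne a i0 with rfl | ha
    · rw [Function.update_self]
      refine le_of_eq ?_
      simp [Matrix.mulVec, dotProduct, Matrix.updateRow_self, Pi.single_apply]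
    · rw [Function.update_of_ne ha]
      refine le_trans (hAy a) (le_of_eq ?_)
      simp only [Matrix.mulVec, dotProduct, Matrix.updateRow_ne ha]

/-- lower bound by a spanning tree: `π i` is the parent of `i ≠ r`, of smaller depth; the row sums are nonnegative
and the entries `A i (π i)` are at most `-1`; then `det A ≥ (row sum of r)`. -/
theorem mm_tree (A : Matrix I I ℚ) (hZ : ∀ i j, i ≠ j → A i j ≤ 0) (r : I) (dep : I → ℕ)
    (par : I → I) (hpar : ∀ i, i ≠ r → dep (par i) < dep i) (hw : ∀ i, i ≠ r → A i (par i) ≤ -1)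
    (hrow : ∀ i, 0 ≤ ∑ j, A i j) : ∑ j, A r j ≤ A.det := by
  have hpne : ∀ i, i ≠ r → par i ≠ i := by
    intro i hi h
    have := hpar i hi
    rw [h] at this
    exact lt_irrefl _ this
  set P : Matrix I I ℚ := Matrix.of fun i j =>
    (if i = j then (1 : ℚ) else 0) - (if i ≠ r ∧ par i = j then 1 else 0) with hP
  have hPa : ∀ i j, P i j =
      (if i = j then (1 : ℚ) else 0) - (if i ≠ r ∧ par i = j then 1 else 0) := fun i j => rfl
  have hPdet : P.det = 1 := by
    have hbt : Matrix.BlockTriangular P (fun i => OrderDual.toDual (dep i)) := by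
      intro i j hij
      have hij' : dep i < dep j := OrderDual.toDual_lt_toDual.mp hij
      rw [hPa]
      have h1 : i ≠ j := by
        rintro rfl
        exact lt_irrefl _ hij'
      have h2 : ¬ (i ≠ r ∧ par i = j) := by
        rintro ⟨h3, h4⟩
        have := hpar i h3
        rw [h4] at this
        exact lt_asymm this hij'
      rw [if_neg h1, if_neg h2, sub_zero]
    rw [hbt.det]
    refine Finset.prod_eq_one fun a _ => ?_
    have h1 : P.toSquareBlock (fun i => OrderDual.toDual (dep i)) a = 1 := by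
      ext ⟨i, hi⟩ ⟨j, hj⟩
      rw [Matrix.toSquareBlock_def, Matrix.of_apply, hPa, Matrix.one_apply]
      have hd : dep i = dep j := by
        have : OrderDual.toDual (dep i) = OrderDual.toDual (dep j) := hi.trans hj.symm
        exact OrderDual.toDual_inj.mp this
      have h2 : ¬ (i ≠ r ∧ par i = j) := by
        rintro ⟨h3, h4⟩
        have := hpar i h3
        rw [h4, hd] at this
        exact lt_irrefl _ this
      rw [if_neg h2, sub_zero]
      simp only [Subtype.mk.injEq]
    rw [h1, Matrix.det_one]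
  set ρ : ℚ := ∑ j, A r j with hρ
  set W : Matrix I I ℚ := P.updateRow r (ρ • P r) with hW
  have hWdet : W.det = ρ := by
    rw [hW, Matrix.det_updateRow_smul, Matrix.updateRow_eq_self, hPdet, mul_one]
  rw [← hWdet]
  have hPr : ∀ j, P r j = if r = j then 1 else 0 := by
    intro j
    rw [hPa, if_neg (fun h : r ≠ r ∧ par r = j => h.1 rfl), sub_zero]
  have hWr : ∀ j, W r j = if r = j then ρ else 0 := by
    intro j
    rw [hW, Matrix.updateRow_self, Pi.smul_apply, hPr, smul_eq_mul]
    split_ifs <;> simp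
  have hWi : ∀ i, i ≠ r → ∀ j, W i j = (if i = j then 1 else 0) - (if par i = j then 1 else 0) := by
    intro i hi j
    rw [hW, Matrix.updateRow_ne hi, hPa]
    simp [hi]
  have hWsum : ∀ i, (W *ᵥ (fun _ => (1 : ℚ))) i = if i = r then ρ else 0 := by
    intro i
    simp only [Matrix.mulVec, dotProduct, mul_one]
    rcases eq_or_ne i r with rfl | hi
    · rw [if_pos rfl, Finset.sum_congr rfl (fun j _ => hWr j)]
      simp
    · rw [if_neg hi, Finset.sum_congr rfl (fun j _ => hWi i hi j), Finset.sum_sub_distrib]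
      simp
  have hAsum : ∀ i, (A *ᵥ (fun _ => (1 : ℚ))) i = ∑ j, A i j := by
    intro i
    simp only [Matrix.mulVec, dotProduct, mul_one]
  refine E2_mix_le A W hZ (fun _ => 1) (fun _ => one_pos) ?_ ?_ ?_ ?_
  · intro i j hij
    rcases eq_or_ne i r with rfl | hi
    · rw [hWr, if_neg hij]
    · rw [hWi i hi, if_neg hij]
      split_ifs <;> norm_num
  · intro i j hij
    rcases eq_or_ne i r with rfl | hi
    · rw [hWr, if_neg hij]
      exact hZ _ j hij
    · rw [hWi i hi, if_neg hij]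
      split_ifs with h
      · rw [← h]
        have := hw i hi
        linarith
      · have := hZ i j hij
        linarith
  · intro i
    rw [hWsum]
    split_ifs
    · exact hrow r
    · exact le_refl _
  · intro i
    rw [hWsum, hAsum]
    split_ifs with h
    · rw [h]
    · exact hrow i

end Pool.Agent.H40.KADE
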