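import Pool.Agent.H40.KADE.E1c

/-!
KAC ADE engine, module E3: one step preserves the consistency `GS`.

Notation: `W' = W \ S` remaining walls, `m = mhat a W' q n`, `γ' = stG k γ m`, `P' = stP a P p m`, `p' = P`,
`q' = stQ W' q m`, `w' = neww cn w k q' m`.

* `m i = n i - q i` for `i ∉ W'` (`ext_off`), `(C m)_x = 0` on `W'` (`ext_cv`, `FT_mono`).
* `cons`: `(C γ')_i = k p_i - (k+1) P_i - k (C m)_i = (k-1) P_i - k P'_i`.
* `int`: `P' - P - C q' = (P - p - C q) + C (m + q - q')` and `m + q - q' = n` off `W'`, `0` on `W'`: integral (`cv_int`).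
* `adm`: for a cluster `N'` of `W'`: either `m = 0` on `N'`: then no element of `S` is adjacent to `N'` (`cl_zero_nbr`, `m_s > 0`
  for `s ∈ S` because `(C m)_s > 0`: `sol_pos_of`), so `N'` is a cluster of `W` (`cl_of`) and everything is unchanged on `N'`
  (`CN.congr`); or `m > 0` on `N'` (`cl_zero_or`): the cluster `N ⊇ N'` of `W` is touched, so `w N k ≠ 0` because `tw ≠ 0`; if
  `w N l = cn N q (L - l)` then `(L - k) q_x ∈ ℤ` on `N` by `CN.int` (`FTC` from `FT_mono`, `cl_self`, `cl_cv` and `GS.int`), so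
  `γ'_x + k q'_x = γ_x + k q_x = (γ_x + L q_x) - (L - k) q_x ∈ ℤ`; the new clock is `k`.
* `gint`: for `i ∉ W`: `γ_i - k n_i`; for `s ∈ S`: `γ_s - k (n_s - q_s) = γ_s + k q_s - k n_s`, as before (the cluster of `s` in
  `W` is touched).
-/

set_option autoImplicit false

namespace Pool.Agent.H40.KADE

open scoped BigOperators
open Pool.Agent.H27.KAC

variable {I : Type} [Fintype I] [DecidableEq I]

theorem mhat_off (a : I → I → ℕ) (W' : Finset I) (q : I → ℚ) (n : I → ℤ) (i : I) (hi : i ∉ W') :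
    mhat a W' q n i = (n i : ℚ) - q i := by
  exact ext_off a W' _ i hi

theorem mhat_cv (a : I → I → ℕ) {W' : Finset I} (h : FT a W') (q : I → ℚ) (n : I → ℤ) (x : I)
    (hx : x ∈ W') : cv a (mhat a W' q n) x = 0 := by
  exact ext_cv a h _ x hx

theorem box_bound {W' : Finset I} {k : ℕ} (hk : 1 ≤ k) {γ q : I → ℚ} {n : I → ℤ}
    (hn : n ∈ boxS W' k γ q) (i : I) (hi : i ∉ W') :
    0 ≤ (n i : ℚ) - q i ∧ (k : ℚ) * ((n i : ℚ) - q i) ≤ γ i := by
  unfold boxS at hn
  rw [Fintype.mem_piFinset] at hn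
  have h1 := hn i
  rw [if_neg hi, Finset.mem_Icc] at h1
  obtain ⟨h2, h3⟩ := h1
  have h4 : q i ≤ (n i : ℚ) := Int.ceil_le.1 h2
  have h5 : (n i : ℚ) ≤ γ i / k + q i := Int.le_floor.1 h3
  have hk0 : (0 : ℚ) < k := by exact_mod_cast hk
  refine ⟨by linarith, ?_⟩
  have h6 : (n i : ℚ) - q i ≤ γ i / k := by linarith
  calc (k : ℚ) * ((n i : ℚ) - q i) ≤ k * (γ i / k) := by gcongr
    _ = γ i := by field_simp

theorem mhat_nonneg (a : I → I → ℕ) {W' : Finset I} (h : FT a W') {k : ℕ} (hk : 1 ≤ k)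
    {γ q : I → ℚ} {n : I → ℤ} (hn : n ∈ boxS W' k γ q) (i : I) : 0 ≤ mhat a W' q n i := by
  exact ext_nonneg a h _ (fun x hx => (box_bound hk hn x hx).1) i

/-- `FTC` for the clusters of a consistent state. -/
theorem GS_FTC (a : I → I → ℕ) (hs : ∀ i j, a i j = a j i) {cn : Finset I → (I → ℚ) → ℕ → ℚ}
    {k : ℕ} {γ P p : I → ℚ} {W : Finset I} {q : I → ℚ} {w : Finset I → ℕ → ℚ}
    (h : GS a cn k γ P p W q w) {N : Finset I} (hN : N ∈ clusters a W) : FTC a N q := by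
  refine ⟨FT_mono a h.ft (cl_sub a hN), cl_self a hs hN, fun x hx => ?_⟩
  rw [cl_cv a hs hN q h.q0 hx]
  obtain ⟨z, hz⟩ := h.int x
  have hxW := cl_sub a hN hx
  rw [h.P0 x hxW, h.p0 x hxW] at hz
  exact ⟨-z, by push_cast; linarith⟩

/-- nonnegativity of the response functions. -/
theorem GS_w_nonneg (a : I → I → ℕ) (hs : ∀ i j, a i j = a j i)
    {cn : Finset I → (I → ℚ) → ℕ → ℚ} (hcn : CN a cn)
    {k : ℕ} {γ P p : I → ℚ} {W : Finset I} {q : I → ℚ} {w : Finset I → ℕ → ℚ}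
    (h : GS a cn k γ P p W q w) {N : Finset I} (hN : N ∈ clusters a W) {l : ℕ} (hl : l ≤ k - 1) :
    0 ≤ w N l := by
  rcases h.adm N hN with ⟨L, -, h2, -⟩ | ⟨-, h2, -⟩
  · rw [h2 l hl]
    exact hcn.nonneg N q (L - l) (GS_FTC a hs h hN)
  · rw [h2 l hl]
    exact zero_le_one

theorem GS_tw_nonneg (a : I → I → ℕ) (hs : ∀ i j, a i j = a j i)
    {cn : Finset I → (I → ℚ) → ℕ → ℚ} (hcn : CN a cn)
    {k : ℕ} {γ P p : I → ℚ} {W : Finset I} {q : I → ℚ} {w : Finset I → ℕ → ℚ}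
    (h : GS a cn k γ P p W q w) {l : ℕ} (hl : l ≤ k - 1) (v : I → ℚ) : 0 ≤ tw a W w l v := by
  unfold tw
  refine Finset.prod_nonneg fun N hN => ?_
  split_ifs
  · exact zero_le_one
  · exact GS_w_nonneg a hs hcn h hN hl

theorem stG_nonneg (a : I → I → ℕ) {cn : Finset I → (I → ℚ) → ℕ → ℚ}
    {k : ℕ} (hk : 1 ≤ k) {γ P p : I → ℚ} {W : Finset I} {q : I → ℚ} {w : Finset I → ℕ → ℚ}
    (h : GS a cn (k + 1) γ P p W q w) (hγ : ∀ i, 0 ≤ γ i) {S : Finset I} (hS : S ⊆ W)
    {n : I → ℤ} (hn : n ∈ boxS (W \ S) k γ q) (i : I) :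
    0 ≤ stG k γ (mhat a (W \ S) q n) i := by
  have hft : FT a (W \ S) := FT_mono a h.ft Finset.sdiff_subset
  refine FT_nonneg a hft _ (fun x hx => ?_) (fun x hx => ?_) i
  · unfold stG
    rw [mhat_off a _ q n x hx]
    have := (box_bound hk hn x hx).2
    linarith
  · have hxW : x ∈ W := (Finset.mem_sdiff.1 hx).1
    have e : cv a (stG k γ (mhat a (W \ S) q n)) x =
        cv a γ x - (k : ℚ) * cv a (mhat a (W \ S) q n) x := by
      unfold stG
      rw [cv_sub, cv_smul]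
    rw [e, mhat_cv a hft q n x hx, h.cons x, h.P0 x hxW, h.p0 x hxW]
    simp

/-- one step preserves the consistency. -/
theorem st_GS (a : I → I → ℕ) (hs : ∀ i j, a i j = a j i)
    {cn : Finset I → (I → ℚ) → ℕ → ℚ} (hcn : CN a cn)
    {k : ℕ} (hk : 1 ≤ k) {γ P p : I → ℚ} {W : Finset I} {q : I → ℚ} {w : Finset I → ℕ → ℚ}
    (h : GS a cn (k + 1) γ P p W q w) {S : Finset I} (hS : S ⊆ W)
    {n : I → ℤ} (hn : n ∈ boxS (W \ S) k γ q)
    (hpos : ∀ s ∈ S, 0 < cv a (mhat a (W \ S) q n) s)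
    (htw : tw a W w k (mhat a (W \ S) q n) ≠ 0) :
    GS a cn k (stG k γ (mhat a (W \ S) q n)) (stP a P p (mhat a (W \ S) q n)) P (W \ S)
      (stQ (W \ S) q (mhat a (W \ S) q n))
      (neww cn w k (stQ (W \ S) q (mhat a (W \ S) q n)) (mhat a (W \ S) q n)) := by
  have hft : FT a (W \ S) := FT_mono a h.ft Finset.sdiff_subset
  set m : I → ℚ := mhat a (W \ S) q n with hm
  have hmn : ∀ i, 0 ≤ m i := mhat_nonneg a hft hk hn
  have hmo : ∀ i, i ∉ W \ S → m i = (n i : ℚ) - q i := fun i hi => mhat_off a _ q n i hi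
  have hmc : ∀ x ∈ W \ S, cv a m x = 0 := fun x hx => mhat_cv a hft q n x hx
  -- touched clusters
  have hint : ∀ N ∈ clusters a W, (∃ x ∈ N, m x ≠ 0) → ∀ x ∈ N, ∃ z : ℤ,
      γ x + (k : ℚ) * q x = z := by
    intro N hN ⟨x0, hx0, hm0⟩ x hx
    have hw : w N k ≠ 0 := by
      intro h0
      apply htw
      unfold tw
      refine Finset.prod_eq_zero hN ?_
      rw [if_neg (fun hall => hm0 (hall x0 hx0)), h0]
    rcases h.adm N hN with ⟨L, hL, h2, h3⟩ | ⟨h1, -, h3⟩
    · have hL' : k ≤ L := by simpa using hL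
      rw [h2 k (by simp)] at hw
      obtain ⟨z, hz⟩ := hcn.int N q (L - k) (GS_FTC a hs h hN) hw x hx
      obtain ⟨z', hz'⟩ := h3 x hx
      refine ⟨z' - z, ?_⟩
      push_cast [Nat.cast_sub hL'] at hz ⊢
      linarith
    · obtain ⟨z, hz⟩ := h3 x hx
      exact ⟨z, by rw [h1 x hx, mul_zero, add_zero, hz]⟩
  refine ⟨hft, fun x hx => ?_, fun x hx => h.P0 x (Finset.mem_sdiff.1 hx).1, fun i hi => ?_,
    fun i => ?_, fun i => ?_, fun i hi => ?_, fun N' hN' => ?_⟩
  · have hxW := (Finset.mem_sdiff.1 hx).1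
    unfold stP
    rw [h.P0 x hxW, h.p0 x hxW, hmc x hx]
    ring
  · unfold stQ
    rw [if_neg hi]
  · have e : cv a (stG k γ m) i = cv a γ i - (k : ℚ) * cv a m i := by
      unfold stG
      rw [cv_sub, cv_smul]
    rw [e, h.cons i]
    unfold stP
    push_cast
    ring
  · obtain ⟨z, hz⟩ := h.int i
    obtain ⟨z', hz'⟩ := cv_int a (fun j => (q j + m j) - stQ (W \ S) q m j) (fun j => by
      unfold stQ
      by_cases hj : j ∈ W \ S
      · exact ⟨0, by rw [if_pos hj]; simp⟩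
      · exact ⟨n j, by rw [if_neg hj, hmo j hj]; ring⟩) i
    rw [cv_sub, cv_add] at hz'
    refine ⟨z + z', ?_⟩
    unfold stP
    push_cast
    linarith
  · unfold stG
    rw [hmo i hi]
    by_cases hiW : i ∈ W
    · have hiS : i ∈ S := by
        by_contra hcon
        exact hi (Finset.mem_sdiff.2 ⟨hiW, hcon⟩)
      have hmi : 0 < m i := sol_pos_of a m hmn i (hpos i hiS)
      obtain ⟨N, hN, hiN⟩ := cl_exists a hiW
      obtain ⟨z, hz⟩ := hint N hN ⟨i, hiN, hmi.ne'⟩ i hiN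
      refine ⟨z - k * n i, ?_⟩
      push_cast
      linarith
    · obtain ⟨z, hz⟩ := h.gint i hiW
      refine ⟨z - k * n i, ?_⟩
      rw [h.q0 i hiW, hz]
      push_cast
      ring
  · have hsub : N' ⊆ W \ S := cl_sub a hN'
    have hq' : ∀ x ∈ N', stQ (W \ S) q m x = q x + m x := by
      intro x hx
      unfold stQ
      rw [if_pos (hsub hx)]
    rcases cl_zero_or a hs hN' m hmn hmc with h0 | h0
    · have hNW : N' ∈ clusters a W := by
        refine cl_of a hs (hsub.trans Finset.sdiff_subset) (cl_self a hs hN') ?_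
        intro x hx y hy hxy
        by_cases hyS : y ∈ S
        · exfalso
          have h1 := sol_pos_of a m hmn y (hpos y hyS)
          rw [cl_zero_nbr a hN' m hmn hmc h0 hx hxy] at h1
          exact lt_irrefl _ h1
        · exact cl_closed a hs hN' hx (Finset.mem_sdiff.2 ⟨hy, hyS⟩) hxy
      have hqq : ∀ x ∈ N', q x = stQ (W \ S) q m x := by
        intro x hx
        rw [hq' x hx, h0 x hx, add_zero]
      have hgg : ∀ x ∈ N', stG k γ m x = γ x := by
        intro x hx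
        unfold stG
        rw [h0 x hx, mul_zero, sub_zero]
      have hww : ∀ l, neww cn w k (stQ (W \ S) q m) m N' l = w N' l := by
        intro l
        unfold neww
        rw [if_pos h0]
      rcases h.adm N' hNW with ⟨L, hL, h2, h3⟩ | ⟨h1, h2, h3⟩
      · refine Or.inl ⟨L, ?_, fun l hl => ?_, fun x hx => ?_⟩
        · have : k ≤ L := by simpa using hL
          omega
        · rw [hww l, h2 l (by simp; omega)]
          exact hcn.congr N' _ _ _ hqq
        · obtain ⟨z, hz⟩ := h3 x hx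
          refine ⟨z, ?_⟩
          rw [hgg x hx, ← hqq x hx, hz]
      · refine Or.inr ⟨fun x hx => ?_, fun l hl => ?_, fun x hx => ?_⟩
        · rw [← hqq x hx, h1 x hx]
        · rw [hww l, h2 l (by simp; omega)]
        · obtain ⟨z, hz⟩ := h3 x hx
          exact ⟨z, by rw [hgg x hx, hz]⟩
    · obtain ⟨N, hN, hNN⟩ := cl_mono a hs (Finset.sdiff_subset : W \ S ⊆ W) hN'
      obtain ⟨x0, hx0⟩ := cl_nonempty a hN'
      have hnz : ¬ ∀ x ∈ N', m x = 0 := fun hall => (h0 x0 hx0).ne' (hall x0 hx0)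
      refine Or.inl ⟨k, by omega, fun l hl => ?_, fun x hx => ?_⟩
      · unfold neww
        rw [if_neg hnz]
      · obtain ⟨z, hz⟩ := hint N hN ⟨x0, hNN hx0, (h0 x0 hx0).ne'⟩ x (hNN hx)
        refine ⟨z, ?_⟩
        rw [hq' x hx]
        unfold stG
        rw [← hz]
        ring

end Pool.Agent.H40.KADE
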