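import Pool.Agent.H40.KADE.E3
import Pool.Agent.H40.KADE.E2

/-!
KAC ADE engine, module E3b: the matrix of one step.

`A = blk W' M`, `M = stM a W W' P H m`, `W' = W \ S`.  `y = yv W W' P m`.
* `st_Ay`: for `l ∉ W'`: `(A y)_l = P'_l + (p_l - (H P)_l)`; for `l ∈ W'`: `1`.
  (columns `j ∉ W` with `m_j = 0`: `(2 δ_lj - H_lj) P_j`; with `m_j ≠ 0`: `P_j (2 δ - H_lj) + m_j C^eff_lj`; columns `s ∈ S`:
  `C^eff_ls m_s`; sum: `2 P_l - (H P)_l + (C m)_l` by `cv_ext`.)
* `st_Z`: off-diagonal entries `≤ 0` (`effC_nonpos`).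
* `st_notrap`: let `T ≠ ∅` with `(A y)_T = 0` and `A_lj = 0` for `l ∈ T, j ∉ T`.  `T ∩ W' = ∅`.  With `H` replaced by `(1-δ) H`:
  `0 = P'_l + (p_l - (H P)_l) + δ (H P)_l`, all three terms are `≥ 0`, so `P'_l = 0`, `(H P)_l = 0`, `p_l = 0`; `l ∉ S` because
  `P'_s = (C m)_s > 0`; row `l` of `H` is zero (`P_i > 0` off `W`).  So `m_j C^eff_lj = 0` for `j ∉ T ∪ W'` and
  `-2 P_l = (C m)_l = ∑_{j ∈ T} C^eff_lj m_j`.  Let `v = ext a W' (m restricted to T)`: `v ≥ 0`, supported in `W' ∪ T`,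
  `(C v)_x = 0` on `W'`, `(C v)_l = -2 P_l < 0` on `T`; `FT a (W' ∪ T)` and `FT_nonneg` for `-v` give `v = 0`, contradiction.
-/

set_option autoImplicit false

namespace Pool.Agent.H40.KADE

open scoped BigOperators
open Matrix Pool.Agent.H27.KAC

variable {I : Type} [Fintype I] [DecidableEq I]

/-- the positive vector. -/
def yv (W W' : Finset I) (P m : I → ℚ) (j : I) : ℚ :=
  if j ∈ W' then 1 else if j ∈ W then m j else if m j = 0 then P j else 1

/-- the new matrix `H' = N A⁻¹`. -/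
noncomputable def stH (a : I → I → ℕ) (W W' : Finset I) (P : I → ℚ) (H : I → I → ℚ) (m : I → ℚ)
    (l j : I) : ℚ :=
  if l ∈ W ∨ j ∈ W' then 0 else sclq (P l) (m l) * (blk W' (stM a W W' P H m))⁻¹ l j

theorem st_yv_pos {W W' : Finset I} {P m : I → ℚ} (hP : ∀ i, i ∉ W → 0 < P i)
    (hm : ∀ s ∈ W, s ∉ W' → 0 < m s) (i : I) : 0 < yv W W' P m i := by
  unfold yv
  split_ifs with h1 h2 h3
  · exact one_pos
  · exact hm i h2 h1
  · exact hP i h2
  · exact one_pos

private theorem E3b_sclq_nonneg {P m : ℚ} (hP : 0 < P) : 0 ≤ sclq P m := by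
  unfold sclq
  split_ifs
  · exact zero_le_one
  · exact hP.le

theorem st_Z (a : I → I → ℕ) {W W' : Finset I} (hW : W' ⊆ W) (hFT : FT a W')
    {P : I → ℚ} (hP : ∀ i, i ∉ W → 0 < P i) {H : I → I → ℚ} (hH0 : ∀ l i, l ∈ W ∨ i ∈ W → H l i = 0)
    (hH : ∀ l i, 0 ≤ H l i) {m : I → ℚ} (hm : ∀ i, 0 ≤ m i) (l j : I) (hlj : l ≠ j) :
    blk W' (stM a W W' P H m) l j ≤ 0 := by
  have _hW := hW
  have _hH0 := hH0
  unfold blk
  rw [Matrix.of_apply]
  split_ifs with h1
  · exact le_rfl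
  · push Not at h1
    have he : effC a W' l j ≤ 0 := effC_nonpos a hFT h1.1 h1.2 hlj
    unfold stM
    rw [if_neg hlj]
    split_ifs with h2
    · exact he
    · have h3 : 0 ≤ sclq (P j) (m j) := E3b_sclq_nonneg (hP j h2)
      have h4 := mul_nonneg h3 (hH l j)
      have h5 := mul_nonneg (hm j) (neg_nonneg.2 he)
      linarith

theorem st_Ay (a : I → I → ℕ) {W W' : Finset I} (hW : W' ⊆ W) (hFT : FT a W')
    {P p : I → ℚ} (hP0 : ∀ x ∈ W, P x = 0)
    {H : I → I → ℚ} (hH0 : ∀ l i, l ∈ W ∨ i ∈ W → H l i = 0)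
    {m m0 : I → ℚ} (hm : m = ext a W' m0) (l : I) :
    (blk W' (stM a W W' P H m) *ᵥ yv W W' P m) l =
      if l ∈ W' then 1 else stP a P p m l + (p l - ∑ i, H l i * P i) := by
  have _hH0 := hH0
  have hmv : (blk W' (stM a W W' P H m) *ᵥ yv W W' P m) l =
      ∑ j, blk W' (stM a W W' P H m) l j * yv W W' P m j := rfl
  rw [hmv]
  by_cases hl : l ∈ W'
  · rw [if_pos hl, Finset.sum_eq_single l]
    · simp [blk, yv, hl]
    · intro j _ hj
      simp [blk, hl, Ne.symm hj]
    · intro h1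
      exact absurd (Finset.mem_univ l) h1
  · rw [if_neg hl]
    have h1 : ∀ j, blk W' (stM a W W' P H m) l j * yv W W' P m j =
        P j * ((if l = j then 2 else 0) - H l j) + (if j ∈ W' then 0 else effC a W' l j * m0 j) := by
      intro j
      by_cases hj : j ∈ W'
      · have hlj : l ≠ j := fun h => hl (h ▸ hj)
        simp [blk, hj, hlj, hP0 j (hW hj)]
      · have hmj : m j = m0 j := by rw [hm]; exact ext_off a W' m0 j hj
        by_cases hjW : j ∈ W
        · simp [blk, yv, stM, hl, hj, hjW, hP0 j hjW, hmj]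
        · by_cases h0 : m j = 0
          · have h0' : m0 j = 0 := by rw [← hmj]; exact h0
            simp only [blk, yv, stM, sclq, Matrix.of_apply, hl, hj, hjW, h0, h0', or_self, if_false,
              if_true]
            ring
          · have h0' : ¬ m0 j = 0 := by rw [← hmj]; exact h0
            simp only [blk, yv, stM, sclq, Matrix.of_apply, hl, hj, hjW, h0, or_self, if_false]
            rw [hmj]
            ring
    rw [Finset.sum_congr rfl fun j _ => h1 j, Finset.sum_add_distrib]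
    have h2 : ∑ j, (if j ∈ W' then 0 else effC a W' l j * m0 j) = cv a m l := by
      rw [hm, cv_ext a hFT m0 l, ← Finset.sum_filter_add_sum_filter_not Finset.univ (fun j => j ∈ W')]
      rw [Finset.sum_eq_zero (s := Finset.univ.filter fun j => j ∈ W')
        (fun j hj => if_pos (Finset.mem_filter.1 hj).2), zero_add]
      have h3 : Finset.univ.filter (fun j => ¬ j ∈ W') = Finset.univ \ W' := by
        ext j; simp
      rw [h3]
      refine Finset.sum_congr rfl fun j hj => ?_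
      rw [Finset.mem_sdiff] at hj
      rw [if_neg hj.2]
    have h4 : ∑ j, P j * ((if l = j then 2 else 0) - H l j) = 2 * P l - ∑ i, H l i * P i := by
      have h5 : ∀ j, P j * ((if l = j then 2 else 0) - H l j) =
          (if l = j then 2 * P j else 0) - H l j * P j := by
        intro j
        split_ifs <;> ring
      rw [Finset.sum_congr rfl fun j _ => h5 j, Finset.sum_sub_distrib, Finset.sum_ite_eq,
        if_pos (Finset.mem_univ l)]
    rw [h2, h4]
    unfold stP
    ring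

/-- the vector `m` is positive on `S`. -/
private theorem E3b_mpos (a : I → I → ℕ) {W : Finset I} (hFT : FT a W) {k : ℕ} (hk : 1 ≤ k)
    {γ q : I → ℚ} {S : Finset I} {n : I → ℤ} (hn : n ∈ boxS (W \ S) k γ q)
    (hpos : ∀ s ∈ S, 0 < cv a (mhat a (W \ S) q n) s) (s : I) (hs : s ∈ W) (hs' : s ∉ W \ S) :
    0 < mhat a (W \ S) q n s := by
  have h1 : s ∈ S := by
    by_contra h2
    exact hs' (Finset.mem_sdiff.2 ⟨hs, h2⟩)
  exact sol_pos_of a _ (fun j => mhat_nonneg a (FT_mono a hFT Finset.sdiff_subset) hk hn j) s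
    (hpos s h1)

/-- the determinant is nonnegative. -/
theorem st_det_nonneg (a : I → I → ℕ) {cn : Finset I → (I → ℚ) → ℕ → ℚ}
    {k : ℕ} (hk : 1 ≤ k) {γ P p : I → ℚ} {H : I → I → ℚ} {W : Finset I} {q : I → ℚ}
    {w : Finset I → ℕ → ℚ} (h : Fresh a cn (k + 1) γ P p H W q w) {S : Finset I} (hS : S ⊆ W)
    {n : I → ℤ} (hn : n ∈ boxS (W \ S) k γ q)
    (hpos : ∀ s ∈ S, 0 < cv a (mhat a (W \ S) q n) s)
    (hP' : ∀ i, 0 ≤ stP a P p (mhat a (W \ S) q n) i) :
    0 ≤ (blk (W \ S) (stM a W (W \ S) P H (mhat a (W \ S) q n))).det := by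
  have _hS := hS
  have hFT' : FT a (W \ S) := FT_mono a h.ft Finset.sdiff_subset
  have hm0 : ∀ i, 0 ≤ mhat a (W \ S) q n i := fun i => mhat_nonneg a hFT' hk hn i
  refine mm_det_nonneg _
    (fun i j hij => st_Z a Finset.sdiff_subset hFT' h.Ppos h.H0 h.Hnn hm0 i j hij)
    (yv W (W \ S) P (mhat a (W \ S) q n))
    (fun i => st_yv_pos h.Ppos (fun s hs hs' => E3b_mpos a h.ft hk hn hpos s hs hs') i)
    (fun i => ?_)
  rw [st_Ay a Finset.sdiff_subset hFT' (p := p) h.P0 h.H0
    (m := mhat a (W \ S) q n) (m0 := fun i => (n i : ℚ) - q i) rfl i]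
  split_ifs
  · exact zero_le_one
  · have h1 := hP' i
    have h2 := h.dnn i
    linarith

/-- no trap for the perturbed matrix. -/
theorem st_notrap (a : I → I → ℕ) {cn : Finset I → (I → ℚ) → ℕ → ℚ}
    {k : ℕ} (hk : 1 ≤ k) {γ P p : I → ℚ} {H : I → I → ℚ} {W : Finset I} {q : I → ℚ}
    {w : Finset I → ℕ → ℚ} (h : Fresh a cn (k + 1) γ P p H W q w) {S : Finset I} (hS : S ⊆ W)
    {n : I → ℤ} (hn : n ∈ boxS (W \ S) k γ q)
    (hpos : ∀ s ∈ S, 0 < cv a (mhat a (W \ S) q n) s)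
    (hP' : ∀ i, 0 ≤ stP a P p (mhat a (W \ S) q n) i)
    (hFT : FT a ((W \ S) ∪ crX (W \ S) (stP a P p (mhat a (W \ S) q n))))
    {δ : ℚ} (hδ0 : 0 < δ) (hδ1 : δ ≤ 1) (T : Finset I) (hT : T.Nonempty)
    (hT0 : ∀ l ∈ T, (blk (W \ S) (stM a W (W \ S) P (fun l i => (1 - δ) * H l i)
      (mhat a (W \ S) q n)) *ᵥ yv W (W \ S) P (mhat a (W \ S) q n)) l = 0) :
    ∃ l ∈ T, ∃ j, j ∉ T ∧ blk (W \ S) (stM a W (W \ S) P (fun l i => (1 - δ) * H l i)
      (mhat a (W \ S) q n)) l j ≠ 0 := by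
  have _hS := hS
  have _hδ1 := hδ1
  by_contra hcon
  push Not at hcon
  set W' : Finset I := W \ S with hW'
  set m : I → ℚ := mhat a W' q n with hm
  have hW'W : W' ⊆ W := Finset.sdiff_subset
  have hFT' : FT a W' := FT_mono a h.ft hW'W
  have hm0 : ∀ i, 0 ≤ m i := fun i => mhat_nonneg a hFT' hk hn i
  have hmext : m = ext a W' (fun i => (n i : ℚ) - q i) := rfl
  have hHδ0 : ∀ l i, l ∈ W ∨ i ∈ W → (1 - δ) * H l i = 0 := by
    intro l i hli
    rw [h.H0 l i hli, mul_zero]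
  have hPnn : ∀ i, 0 ≤ P i := by
    intro i
    by_cases hi : i ∈ W
    · rw [h.P0 i hi]
    · exact (h.Ppos i hi).le
  -- the properties of the elements of `T`
  have hT1 : ∀ l ∈ T, l ∉ W' ∧ stP a P p m l = 0 ∧ p l = 0 ∧ (∑ i, H l i * P i) = 0 := by
    intro l hl
    have h1 := hT0 l hl
    rw [st_Ay a hW'W hFT' (p := p) h.P0 hHδ0 hmext l] at h1
    split_ifs at h1 with h2
    · exact absurd h1 one_ne_zero
    · have h3 : ∑ i, (1 - δ) * H l i * P i = (1 - δ) * ∑ i, H l i * P i := by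
        rw [Finset.mul_sum]
        exact Finset.sum_congr rfl fun i _ => by ring
      rw [h3] at h1
      have h4 : 0 ≤ ∑ i, H l i * P i :=
        Finset.sum_nonneg fun i _ => mul_nonneg (h.Hnn l i) (hPnn i)
      have h5 := hP' l
      have h6 := h.dnn l
      have h7 : 0 ≤ δ * ∑ i, H l i * P i := mul_nonneg hδ0.le h4
      have h8 : δ * ∑ i, H l i * P i = 0 := by linarith
      have h9 : (∑ i, H l i * P i) = 0 := by
        rcases mul_eq_zero.1 h8 with h9 | h9
        · exact absurd h9 hδ0.ne'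
        · exact h9
      refine ⟨h2, ?_, ?_, h9⟩
      · linarith
      · rw [h9] at h6 h1
        linarith
  have hT2 : ∀ l ∈ T, l ∉ W := by
    intro l hl hlW
    obtain ⟨h1, h2, h3, -⟩ := hT1 l hl
    have h4 : l ∈ S := by
      by_contra h5
      exact h1 (Finset.mem_sdiff.2 ⟨hlW, h5⟩)
    have h5 := hpos l h4
    unfold stP at h2
    rw [h3, h.P0 l hlW] at h2
    linarith
  have hT3 : ∀ l ∈ T, cv a m l = -(2 * P l) := by
    intro l hl
    obtain ⟨h1, h2, h3, -⟩ := hT1 l hl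
    unfold stP at h2
    rw [h3] at h2
    linarith
  have hT4 : ∀ l ∈ T, ∀ i, H l i = 0 := by
    intro l hl i
    by_cases hi : i ∈ W
    · exact h.H0 l i (Or.inr hi)
    · obtain ⟨-, -, -, h4⟩ := hT1 l hl
      have h5 := (Finset.sum_eq_zero_iff_of_nonneg
        (fun i _ => mul_nonneg (h.Hnn l i) (hPnn i))).1 h4 i (Finset.mem_univ i)
      rcases mul_eq_zero.1 h5 with h6 | h6
      · exact h6
      · exact absurd h6 (h.Ppos i hi).ne'
  have hT5 : ∀ l ∈ T, ∀ j, j ∉ T → j ∉ W' → effC a W' l j * m j = 0 := by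
    intro l hl j hj hjW'
    have h1 := hcon l hl j hj
    have hlj : l ≠ j := fun h => hj (h ▸ hl)
    have hl' := (hT1 l hl).1
    unfold blk at h1
    rw [Matrix.of_apply, if_neg (by push Not; exact ⟨hl', hjW'⟩)] at h1
    unfold stM at h1
    by_cases hjW : j ∈ W
    · rw [if_pos hjW] at h1
      rw [h1, zero_mul]
    · beta_reduce at h1
      rw [if_neg hjW, if_neg hlj, hT4 l hl j, mul_zero, sub_zero, mul_zero, zero_add] at h1
      rw [mul_comm]
      exact h1
  -- the vector `v`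
  set v : I → ℚ := ext a W' (fun j => if j ∈ T then m j else 0) with hv
  have hv0 : ∀ x, 0 ≤ v x := ext_nonneg a hFT' _ (fun x _ => by
    split_ifs
    · exact hm0 x
    · exact le_rfl)
  have hvoff : ∀ x, x ∉ W' ∪ T → v x = 0 := by
    intro x hx
    rw [Finset.mem_union, not_or] at hx
    rw [hv, ext_off a W' _ x hx.1, if_neg hx.2]
  have hvW : ∀ x ∈ W', cv a v x = 0 := fun x hx => ext_cv a hFT' _ x hx
  have hvT : ∀ l ∈ T, cv a v l = -(2 * P l) := by
    intro l hl
    rw [← hT3 l hl, hmext, hv, cv_ext a hFT' _ l, cv_ext a hFT' _ l]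
    refine Finset.sum_congr rfl fun j hj => ?_
    rw [Finset.mem_sdiff] at hj
    have hmj : m j = (n j : ℚ) - q j := by
      rw [hmext]; exact ext_off a W' _ j hj.2
    split_ifs with h1
    · rw [hmj]
    · have h2 := hT5 l hl j h1 hj.2
      rw [hmj] at h2
      rw [mul_zero, h2]
  have hFT2 : FT a (W' ∪ T) := by
    refine FT_mono a hFT (Finset.union_subset_union le_rfl ?_)
    intro l hl
    obtain ⟨h1, h2, -, -⟩ := hT1 l hl
    exact Finset.mem_filter.2 ⟨Finset.mem_univ l, h1, h2⟩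
  have hneg : ∀ x, 0 ≤ -v x := by
    refine FT_nonneg a hFT2 (fun x => -v x) (fun x hx => ?_) (fun x hx => ?_)
    · rw [hvoff x hx, neg_zero]
    · rw [cv_neg]
      rcases Finset.mem_union.1 hx with h1 | h1
      · rw [hvW x h1, neg_zero]
      · rw [hvT x h1]
        have h2 := hPnn x
        linarith
  have hvz : v = fun _ => 0 := by
    funext x
    have h1 := hneg x
    have h2 := hv0 x
    linarith
  obtain ⟨l, hl⟩ := hT
  have h1 := hvT l hl
  rw [hvz, cv_zero] at h1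
  have h2 := h.Ppos l (hT2 l hl)
  linarith

/-- the normal form of the columns. -/
theorem st_norm (a : I → I → ℕ) {W W' : Finset I} (hW : W' ⊆ W) (P : I → ℚ) (H : I → I → ℚ)
    (m : I → ℚ) (hdet : (blk W' (stM a W W' P H m)).det ≠ 0) (l i : I) (hl : l ∉ W') (hi : i ∉ W') :
    stN W P m l i = ∑ l' ∈ Finset.univ \ W', stH a W W' P H m l l' * stM a W W' P H m l' i := by
  have _hW := hW
  have _hl := hl
  by_cases hlW : l ∈ W
  · rw [Finset.sum_eq_zero]
    · unfold stN
      rw [if_neg]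
      rintro ⟨rfl, h2⟩
      exact h2 hlW
    · intro l' _
      unfold stH
      rw [if_pos (Or.inl hlW), zero_mul]
  · set A : Matrix I I ℚ := blk W' (stM a W W' P H m) with hA
    have h1 : ∀ l' ∈ Finset.univ \ W', stH a W W' P H m l l' * stM a W W' P H m l' i =
        sclq (P l) (m l) * (A⁻¹ l l' * A l' i) := by
      intro l' hl'
      rw [Finset.mem_sdiff] at hl'
      have h2 : A l' i = stM a W W' P H m l' i := by
        rw [hA]
        unfold blk
        rw [Matrix.of_apply, if_neg (by push Not; exact ⟨hl'.2, hi⟩)]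
      rw [h2]
      unfold stH
      rw [if_neg (by push Not; exact ⟨hlW, hl'.2⟩)]
      ring
    rw [Finset.sum_congr rfl h1, ← Finset.mul_sum]
    have h3 : ∑ l' ∈ Finset.univ \ W', A⁻¹ l l' * A l' i = ∑ l', A⁻¹ l l' * A l' i := by
      refine Finset.sum_subset (Finset.subset_univ _) fun l' _ hl' => ?_
      rw [Finset.mem_sdiff, not_and_not_right] at hl'
      have h4 := hl' (Finset.mem_univ l')
      have h5 : l' ≠ i := fun h => hi (h ▸ h4)
      have h6 : A l' i = 0 := by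
        rw [hA]
        unfold blk
        rw [Matrix.of_apply, if_pos (Or.inl h4), if_neg h5]
      rw [h6, mul_zero]
    have h7 : ∑ l', A⁻¹ l l' * A l' i = (1 : Matrix I I ℚ) l i := by
      rw [← Matrix.nonsing_inv_mul A (isUnit_iff_ne_zero.2 hdet), Matrix.mul_apply]
    rw [h3, h7, Matrix.one_apply]
    unfold stN
    by_cases hli : l = i
    · subst hli
      rw [if_pos ⟨rfl, hlW⟩, if_pos rfl, mul_one]
    · rw [if_neg (fun h => hli h.1), if_neg hli, mul_zero]

/-- looped vertices. -/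
private theorem E3b_loop (a : I → I → ℕ) (hd : ∀ i, a i i ≠ 1)
    {cn : Finset I → (I → ℚ) → ℕ → ℚ}
    {k : ℕ} (hk : 2 ≤ k) {γ P p : I → ℚ} {H : I → I → ℚ} {W : Finset I} {q : I → ℚ}
    {w : Finset I → ℕ → ℚ} (h : Fresh a cn (k + 1) γ P p H W q w) {S : Finset I} (hS : S ⊆ W)
    {n : I → ℤ} (hn : n ∈ boxS (W \ S) k γ q) (i : I) (hi : a i i ≠ 0) :
    0 < stP a P p (mhat a (W \ S) q n) i := by
  have hiW : i ∉ W := fun h1 => hi (h.ft.loopfree i h1)
  have hG : ∀ j, 0 ≤ stG k γ (mhat a (W \ S) q n) j :=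
    fun j => stG_nonneg a (by omega) h.toGS h.gnn hS hn j
  have h1 : cv a (stG k γ (mhat a (W \ S) q n)) i =
      cv a γ i - (k : ℚ) * cv a (mhat a (W \ S) q n) i := by
    have h2 : stG k γ (mhat a (W \ S) q n) =
        fun j => γ j - (fun j => (k : ℚ) * mhat a (W \ S) q n j) j := rfl
    rw [h2, cv_sub, cv_smul]
  have h3 := cv_le_diag a (stG k γ (mhat a (W \ S) q n)) i (fun j _ => hG j)
  have h4 : ((cart a i i : ℤ) : ℚ) ≤ 0 := by
    rw [cart_self]
    have h5 : 2 ≤ a i i := by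
      have h6 := hd i
      omega
    have h7 : (2 : ℚ) ≤ (a i i : ℚ) := by exact_mod_cast h5
    push_cast
    linarith
  have h8 := mul_nonneg (neg_nonneg.2 h4) (hG i)
  have h9 := h.cons i
  have h10 := h.Ppos i hiW
  have hk2 : (2 : ℚ) ≤ (k : ℚ) := by exact_mod_cast hk
  rw [h9] at h1
  push_cast at h1
  have h11 : (k : ℚ) * stP a P p (mhat a (W \ S) q n) i =
      ((k : ℚ) - 1) * P i - cv a (stG k γ (mhat a (W \ S) q n)) i := by
    rw [h1]
    unfold stP
    ring
  have h12 : 0 < (k : ℚ) * stP a P p (mhat a (W \ S) q n) i := by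
    rw [h11]
    have h13 : 0 < ((k : ℚ) - 1) * P i := mul_pos (by linarith) h10
    linarith
  by_contra hcon
  push Not at hcon
  have h14 := mul_nonneg (show (0 : ℚ) ≤ (k : ℚ) by linarith) (neg_nonneg.2 hcon)
  linarith

/-- the state before creation, for the perturbed matrix (`k ≥ 2`). -/
theorem st_pre (a : I → I → ℕ) (hs : ∀ i j, a i j = a j i) (hd : ∀ i, a i i ≠ 1)
    {cn : Finset I → (I → ℚ) → ℕ → ℚ} (hcn : CN a cn)
    {k : ℕ} (hk : 2 ≤ k) {γ P p : I → ℚ} {H : I → I → ℚ} {W : Finset I} {q : I → ℚ}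
    {w : Finset I → ℕ → ℚ} (h : Fresh a cn (k + 1) γ P p H W q w) {S : Finset I} (hS : S ⊆ W)
    {n : I → ℤ} (hn : n ∈ boxS (W \ S) k γ q)
    (hpos : ∀ s ∈ S, 0 < cv a (mhat a (W \ S) q n) s)
    (htw : tw a W w k (mhat a (W \ S) q n) ≠ 0)
    (hP' : ∀ i, a i i = 0 → 0 ≤ stP a P p (mhat a (W \ S) q n) i)
    (hFT : FT a ((W \ S) ∪ crX (W \ S) (stP a P p (mhat a (W \ S) q n))))
    {δ : ℚ} (hδ0 : 0 < δ) (hδ1 : δ ≤ 1) :
    0 < (blk (W \ S) (stM a W (W \ S) P (fun l i => (1 - δ) * H l i)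
      (mhat a (W \ S) q n))).det ∧
    Pre a cn k (stG k γ (mhat a (W \ S) q n)) (stP a P p (mhat a (W \ S) q n)) P
      (stH a W (W \ S) P (fun l i => (1 - δ) * H l i) (mhat a (W \ S) q n)) (W \ S)
      (stQ (W \ S) q (mhat a (W \ S) q n))
      (neww cn w k (stQ (W \ S) q (mhat a (W \ S) q n)) (mhat a (W \ S) q n)) := by
  have hk1 : 1 ≤ k := by omega
  have hGS := st_GS a hs hcn hk1 h.toGS hS hn hpos htw
  have hloop : ∀ i, a i i ≠ 0 → 0 < stP a P p (mhat a (W \ S) q n) i :=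
    fun i hi => E3b_loop a hd hk h hS hn i hi
  have hPall : ∀ i, 0 ≤ stP a P p (mhat a (W \ S) q n) i := by
    intro i
    by_cases hi : a i i = 0
    · exact hP' i hi
    · exact (hloop i hi).le
  have hFT' : FT a (W \ S) := FT_mono a h.ft Finset.sdiff_subset
  have hm0 : ∀ i, 0 ≤ mhat a (W \ S) q n i := fun i => mhat_nonneg a hFT' hk1 hn i
  have hPnn : ∀ i, 0 ≤ P i := by
    intro i
    by_cases hi : i ∈ W
    · rw [h.P0 i hi]
    · exact (h.Ppos i hi).le
  have hHδ0 : ∀ l i, l ∈ W ∨ i ∈ W → (1 - δ) * H l i = 0 := by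
    intro l i hli
    rw [h.H0 l i hli, mul_zero]
  have hHδ : ∀ l i, 0 ≤ (1 - δ) * H l i := fun l i =>
    mul_nonneg (by linarith) (h.Hnn l i)
  have hZ : ∀ i j, i ≠ j → blk (W \ S) (stM a W (W \ S) P (fun l i => (1 - δ) * H l i)
      (mhat a (W \ S) q n)) i j ≤ 0 := fun i j hij =>
    st_Z a Finset.sdiff_subset hFT' h.Ppos hHδ0 hHδ hm0 i j hij
  have hy : ∀ i, 0 < yv W (W \ S) P (mhat a (W \ S) q n) i := fun i =>
    st_yv_pos h.Ppos (fun s hs hs' => E3b_mpos a h.ft hk1 hn hpos s hs hs') i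
  have hAy0 : ∀ i, (blk (W \ S) (stM a W (W \ S) P (fun l i => (1 - δ) * H l i)
      (mhat a (W \ S) q n)) *ᵥ yv W (W \ S) P (mhat a (W \ S) q n)) i =
      if i ∈ W \ S then 1 else stP a P p (mhat a (W \ S) q n) i +
        (p i - ∑ j, (1 - δ) * H i j * P j) := fun i =>
    st_Ay a Finset.sdiff_subset hFT' (p := p) h.P0 hHδ0 rfl i
  have hdef : ∀ i, 0 ≤ p i - ∑ j, (1 - δ) * H i j * P j := by
    intro i
    have h3 : ∑ j, (1 - δ) * H i j * P j = (1 - δ) * ∑ j, H i j * P j := by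
      rw [Finset.mul_sum]
      exact Finset.sum_congr rfl fun j _ => by ring
    have h4 : 0 ≤ ∑ j, H i j * P j :=
      Finset.sum_nonneg fun j _ => mul_nonneg (h.Hnn i j) (hPnn j)
    have h5 := h.dnn i
    have h6 := mul_nonneg hδ0.le h4
    rw [h3]
    linarith
  have hAy : ∀ i, 0 ≤ (blk (W \ S) (stM a W (W \ S) P (fun l i => (1 - δ) * H l i)
      (mhat a (W \ S) q n)) *ᵥ yv W (W \ S) P (mhat a (W \ S) q n)) i := by
    intro i
    rw [hAy0 i]
    split_ifs
    · exact zero_le_one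
    · exact add_nonneg (hPall i) (hdef i)
  have htr := fun T hT hT0 => st_notrap a hk1 h hS hn hpos hPall hFT hδ0 hδ1 T hT hT0
  have hdet := mm_det_pos _ hZ _ hy hAy htr
  have hinv := mm_inv_nonneg _ hZ _ hy hAy htr
  refine ⟨hdet, ⟨hGS, ?_, ?_, hPall, ?_, hPnn, ?_, ?_⟩⟩
  · intro l i hli
    unfold stH
    rw [if_pos]
    rcases hli with h1 | h1
    · exact Or.inl (Finset.sdiff_subset h1)
    · exact Or.inr h1
  · intro l i
    unfold stH
    split_ifs with h1
    · exact le_rfl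
    · push Not at h1
      exact mul_nonneg (E3b_sclq_nonneg (h.Ppos l h1.1)) (hinv l i)
  · intro i hi h0
    constructor
    · by_contra h1
      have h2 := hloop i h1
      linarith
    · refine h.Ppos i fun hiW => ?_
      have h1 : i ∈ S := by
        by_contra h2
        exact hi (Finset.mem_sdiff.2 ⟨hiW, h2⟩)
      have h2 := hpos i h1
      unfold stP at h0
      rw [h.P0 i hiW, h.p0 i hiW] at h0
      linarith
  · intro l
    by_cases hlW : l ∈ W
    · rw [Finset.sum_eq_zero]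
      · exact hPnn l
      · intro i _
        unfold stH
        rw [if_pos (Or.inl hlW), zero_mul]
    · set A : Matrix I I ℚ := blk (W \ S) (stM a W (W \ S) P (fun l i => (1 - δ) * H l i)
        (mhat a (W \ S) q n)) with hA
      have h1 : ∀ i, stH a W (W \ S) P (fun l i => (1 - δ) * H l i) (mhat a (W \ S) q n) l i *
          stP a P p (mhat a (W \ S) q n) i ≤
          sclq (P l) (mhat a (W \ S) q n l) *
            (A⁻¹ l i * (A *ᵥ yv W (W \ S) P (mhat a (W \ S) q n)) i) := by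
        intro i
        have hs0 : 0 ≤ sclq (P l) (mhat a (W \ S) q n l) := E3b_sclq_nonneg (h.Ppos l hlW)
        unfold stH
        split_ifs with h2
        · rw [zero_mul]
          exact mul_nonneg hs0 (mul_nonneg (hinv l i) (hAy i))
        · push Not at h2
          rw [hAy0 i, if_neg h2.2, mul_assoc]
          refine mul_le_mul_of_nonneg_left (mul_le_mul_of_nonneg_left ?_ (hinv l i)) hs0
          have h3 := hdef i
          linarith
      have h2 : ∑ i, A⁻¹ l i * (A *ᵥ yv W (W \ S) P (mhat a (W \ S) q n)) i =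
          yv W (W \ S) P (mhat a (W \ S) q n) l := by
        have h3 : A⁻¹ *ᵥ (A *ᵥ yv W (W \ S) P (mhat a (W \ S) q n)) =
            yv W (W \ S) P (mhat a (W \ S) q n) := by
          rw [Matrix.mulVec_mulVec, Matrix.nonsing_inv_mul A (isUnit_iff_ne_zero.2 hdet.ne'),
            Matrix.one_mulVec]
        exact congrFun h3 l
      refine (Finset.sum_le_sum fun i _ => h1 i).trans ?_
      rw [← Finset.mul_sum, h2]
      have h4 : l ∉ W \ S := fun h5 => hlW (Finset.sdiff_subset h5)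
      unfold yv sclq
      rw [if_neg h4, if_neg hlW]
      split_ifs
      · rw [one_mul]
      · rw [mul_one]
  · exact fun i => stG_nonneg a hk1 h.toGS h.gnn hS hn i

/-- looped vertices: the new exponent is positive (`k ≥ 2`); vertices with `P' = 0` are loop-free with `P > 0`. -/
theorem st_loop (a : I → I → ℕ) (hs : ∀ i j, a i j = a j i) (hd : ∀ i, a i i ≠ 1)
    {cn : Finset I → (I → ℚ) → ℕ → ℚ}
    {k : ℕ} (hk : 2 ≤ k) {γ P p : I → ℚ} {H : I → I → ℚ} {W : Finset I} {q : I → ℚ}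
    {w : Finset I → ℕ → ℚ} (h : Fresh a cn (k + 1) γ P p H W q w) {S : Finset I} (hS : S ⊆ W)
    {n : I → ℤ} (hn : n ∈ boxS (W \ S) k γ q) (i : I) (hi : a i i ≠ 0) :
    0 < stP a P p (mhat a (W \ S) q n) i := by
  have _hs := hs
  exact E3b_loop a hd hk h hS hn i hi

end Pool.Agent.H40.KADE
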