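import Pool.Agent.H40.KADE.E3

/-!
KAC ADE engine, module E4: creation of walls preserves the invariants.

`X = crX W P = {i ∉ W : P i = 0}`, `Q = crQ a W X p`, i.e. `Q = 0` off `W ∪ X`, `(C Q)_x = p x > 0` on `X`, `0` on `W`; `Q ≥ 0`.
`γ' = crG k γ Q = γ - (k-1) Q`, `P' = P`, `p' = crp a p Q = p - C Q`, `q' = crq q Q = q + Q`, `H' = crH a W X H`.
* GS: `cons`, `int` are linear; `P = 0`, `p' = 0` on `W ∪ X`; `adm`: let `N'` be a cluster of `W ∪ X`.  By `cl_zero_or` either `Q = 0`
  on `N'`: then `N' ∩ X = ∅` (`Q_x > 0` on `X`: `sol_pos_of`), `N'` is a cluster of `W` (`cl_of`) and nothing changes; or `Q > 0`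
  on `N'`; new clock `L = k - 1`: for `x ∈ N' ∩ X`: `γ'_x + (k-1) q'_x = γ_x ∈ ℤ`; for `x ∈ N' ∩ W`, in the cluster `N` of `W`
  (touched, so `w N (k-1) ≠ 0` because `tw ≠ 0`): `γ_x + (k-1) q_x ∈ ℤ` by `CN.int` as in E3.
  (`cl_zero_or` needs `(C v)_x = 0` on the walls; here `(C Q)_x = p_x` on `X`; use: the zero set of `Q` in `N'` contains no element
  of `X`, and it is closed under adjacency by `cv_zero_nbr`.)
* `p' ≥ 0`: off `W ∪ X`: `(C Q)_l ≤ 0` (`cv_nonpos`).  `H' ≥ 0` : `(C sol e_x)_l ≤ 0`.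
* `d' = p' - H' P`: `∑_i H'_li P_i = (H P)_l - ∑_x (C sol e_x)_l (H P)_x` (`P = 0` on `X`), `p'_l = p_l - ∑_x (C sol e_x)_l p_x` (`Q = ∑_x p_x sol e_x`),
  so `d'_l = d_l - ∑_x (C sol e_x)_l d_x ≥ 0`.
* `γ' ≥ 0`: `FT_nonneg` for `W ∪ X`: `(C γ')_x = 0` there, `γ' = γ ≥ 0` elsewhere.
-/

set_option autoImplicit false

namespace Pool.Agent.H40.KADE

open scoped BigOperators
open Pool.Agent.H27.KAC

variable {I : Type} [Fintype I] [DecidableEq I]

theorem E4_mem (W : Finset I) (P : I → ℚ) (x : I) : x ∈ crX W P ↔ x ∉ W ∧ P x = 0 := by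
  unfold crX
  rw [Finset.mem_filter]
  exact ⟨fun h => h.2, fun h => ⟨Finset.mem_univ _, h⟩⟩

theorem E4_Q_off (a : I → I → ℕ) (W X : Finset I) (p : I → ℚ) (x : I) (hx : x ∉ W ∪ X) :
    crQ a W X p x = 0 := sol_off a _ _ x hx

theorem E4_Q_cv (a : I → I → ℕ) {W X : Finset I} (h : FT a (W ∪ X)) (p : I → ℚ) (x : I)
    (hx : x ∈ W ∪ X) : cv a (crQ a W X p) x = if x ∈ X then p x else 0 :=
  sol_cv a h _ x hx

theorem E4_Q_nonneg (a : I → I → ℕ) {W X : Finset I} (h : FT a (W ∪ X)) (p : I → ℚ)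
    (hp : ∀ x ∈ X, 0 ≤ p x) (x : I) : 0 ≤ crQ a W X p x := by
  refine sol_nonneg a h _ (fun y _ => ?_) x
  split_ifs with hy
  · exact hp y hy
  · exact le_refl _

theorem cr_GS (a : I → I → ℕ) (hs : ∀ i j, a i j = a j i)
    {cn : Finset I → (I → ℚ) → ℕ → ℚ} (hcn : CN a cn)
    {k : ℕ} (hk : 2 ≤ k) {γ P p : I → ℚ} {W : Finset I} {q : I → ℚ} {w : Finset I → ℕ → ℚ}
    (h : GS a cn k γ P p W q w) (hX : ∀ x ∈ crX W P, 0 < p x) (hFT : FT a (W ∪ crX W P))
    (htw : tw a W w (k - 1) (crQ a W (crX W P) p) ≠ 0) :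
    GS a cn k (crG k γ (crQ a W (crX W P) p)) P (crp a p (crQ a W (crX W P) p)) (W ∪ crX W P)
      (crq q (crQ a W (crX W P) p))
      (neww cn w (k - 1) (crq q (crQ a W (crX W P) p)) (crQ a W (crX W P) p)) := by
  set X : Finset I := crX W P with hXdef
  set Q : I → ℚ := crQ a W X p with hQdef
  have hXW : ∀ x ∈ X, x ∉ W := fun x hx => ((E4_mem W P x).1 hx).1
  have hXP : ∀ x ∈ X, P x = 0 := fun x hx => ((E4_mem W P x).1 hx).2
  have hQn : ∀ i, 0 ≤ Q i := fun i => E4_Q_nonneg a hFT p (fun x hx => (hX x hx).le) i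
  have hQo : ∀ i, i ∉ W ∪ X → Q i = 0 := fun i hi => E4_Q_off a W X p i hi
  have hQX : ∀ x ∈ X, cv a Q x = p x := by
    intro x hx
    rw [hQdef, E4_Q_cv a hFT p x (Finset.mem_union_right _ hx), if_pos hx]
  have hQW : ∀ x ∈ W, cv a Q x = 0 := by
    intro x hx
    rw [hQdef, E4_Q_cv a hFT p x (Finset.mem_union_left _ hx), if_neg (fun hh => hXW x hh hx)]
  have hQXpos : ∀ x ∈ X, 0 < Q x := by
    intro x hx
    refine sol_pos_of a Q hQn x ?_
    rw [hQX x hx]
    exact hX x hx
  have hk1 : ((k - 1 : ℕ) : ℚ) = (k : ℚ) - 1 := by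
    rw [Nat.cast_sub (by omega)]
    norm_num
  -- touched clusters
  have hint : ∀ N ∈ clusters a W, (∃ x ∈ N, Q x ≠ 0) → ∀ x ∈ N, ∃ z : ℤ,
      γ x + ((k : ℚ) - 1) * q x = z := by
    intro N hN ⟨x0, hx0, hm0⟩ x hx
    have hw : w N (k - 1) ≠ 0 := by
      intro h0
      apply htw
      unfold tw
      refine Finset.prod_eq_zero hN ?_
      rw [if_neg (fun hall => hm0 (hall x0 hx0)), h0]
    rcases h.adm N hN with ⟨L, hL, h2, h3⟩ | ⟨h1, -, h3⟩
    · rw [h2 (k - 1) le_rfl] at hw
      obtain ⟨z, hz⟩ := hcn.int N q (L - (k - 1)) (GS_FTC a hs h hN) hw x hx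
      obtain ⟨z', hz'⟩ := h3 x hx
      refine ⟨z' - z, ?_⟩
      rw [Nat.cast_sub hL, hk1] at hz
      push_cast
      linarith
    · obtain ⟨z, hz⟩ := h3 x hx
      exact ⟨z, by rw [h1 x hx, mul_zero, add_zero, hz]⟩
  refine ⟨hFT, fun x hx => ?_, fun x hx => ?_, fun i hi => ?_,
    fun i => ?_, fun i => ?_, fun i hi => ?_, fun N' hN' => ?_⟩
  · rcases Finset.mem_union.1 hx with hx | hx
    · exact h.P0 x hx
    · exact hXP x hx
  · unfold crp
    rcases Finset.mem_union.1 hx with hx | hx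
    · rw [h.p0 x hx, hQW x hx, sub_zero]
    · rw [hQX x hx, sub_self]
  · unfold crq
    rw [hQo i hi, h.q0 i (fun hh => hi (Finset.mem_union_left _ hh)), add_zero]
  · have e : cv a (crG k γ Q) i = cv a γ i - ((k : ℚ) - 1) * cv a Q i := by
      unfold crG
      rw [cv_sub, cv_smul]
    rw [e, h.cons i]
    unfold crp
    ring
  · obtain ⟨z, hz⟩ := h.int i
    refine ⟨z, ?_⟩
    have e : cv a (crq q Q) i = cv a q i + cv a Q i := by
      unfold crq
      rw [cv_add]
    rw [e, ← hz]
    unfold crp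
    ring
  · unfold crG
    rw [hQo i hi, mul_zero, sub_zero]
    exact h.gint i (fun hh => hi (Finset.mem_union_left _ hh))
  · have hsub : N' ⊆ W ∪ X := cl_sub a hN'
    by_cases h0 : ∀ x ∈ N', Q x = 0
    · have hNW' : ∀ x ∈ N', x ∈ W := by
        intro x hx
        rcases Finset.mem_union.1 (hsub hx) with hh | hh
        · exact hh
        · exact absurd (h0 x hx) (hQXpos x hh).ne'
      have hNW : N' ∈ clusters a W := by
        refine cl_of a hs hNW' (cl_self a hs hN') ?_
        intro x hx y hy hxy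
        exact cl_closed a hs hN' hx (Finset.mem_union_left _ hy) hxy
      have hqq : ∀ x ∈ N', q x = crq q Q x := by
        intro x hx
        unfold crq
        rw [h0 x hx, add_zero]
      have hgg : ∀ x ∈ N', crG k γ Q x = γ x := by
        intro x hx
        unfold crG
        rw [h0 x hx, mul_zero, sub_zero]
      have hww : ∀ l, neww cn w (k - 1) (crq q Q) Q N' l = w N' l := by
        intro l
        unfold neww
        rw [if_pos h0]
      rcases h.adm N' hNW with ⟨L, hL, h2, h3⟩ | ⟨h1, h2, h3⟩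
      · refine Or.inl ⟨L, hL, fun l hl => ?_, fun x hx => ?_⟩
        · rw [hww l, h2 l hl]
          exact hcn.congr N' _ _ _ hqq
        · obtain ⟨z, hz⟩ := h3 x hx
          refine ⟨z, ?_⟩
          rw [hgg x hx, ← hqq x hx, hz]
      · refine Or.inr ⟨fun x hx => ?_, fun l hl => ?_, fun x hx => ?_⟩
        · rw [← hqq x hx, h1 x hx]
        · rw [hww l, h2 l hl]
        · obtain ⟨z, hz⟩ := h3 x hx
          exact ⟨z, by rw [hgg x hx, hz]⟩
    · have hpos : ∀ x ∈ N', 0 < Q x := by
        by_contra hcon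
        push Not at hcon
        obtain ⟨x0, hx0, hx1⟩ := hcon
        have hx2 : Q x0 = 0 := le_antisymm hx1 (hQn x0)
        apply h0
        have hT : N'.filter (fun x => Q x = 0) = N' := by
          refine cl_conn a hs hN' (Finset.filter_subset _ _)
            ⟨x0, Finset.mem_filter.2 ⟨hx0, hx2⟩⟩ ?_
          intro x hx y hy hxy
          obtain ⟨hx3, hx4⟩ := Finset.mem_filter.1 hx
          refine Finset.mem_filter.2 ⟨hy, ?_⟩
          have hxW : x ∈ W := by
            rcases Finset.mem_union.1 (hsub hx3) with hh | hh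
            · exact hh
            · exact absurd hx4 (hQXpos x hh).ne'
          exact cv_zero_nbr a Q x hQn hx4 (hQW x hxW) y hxy
        intro x hx
        rw [← hT] at hx
        exact (Finset.mem_filter.1 hx).2
      refine Or.inl ⟨k - 1, le_rfl, fun l hl => ?_, fun x hx => ?_⟩
      · unfold neww
        rw [if_neg h0]
      · rw [hk1]
        have e : crG k γ Q x + ((k : ℚ) - 1) * crq q Q x = γ x + ((k : ℚ) - 1) * q x := by
          unfold crG crq
          ring
        rw [e]
        rcases Finset.mem_union.1 (hsub hx) with hh | hh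
        · obtain ⟨N, hN, hxN⟩ := cl_exists a hh
          exact hint N hN ⟨x, hxN, (hpos x hx).ne'⟩ x hxN
        · rw [h.q0 x (hXW x hh), mul_zero, add_zero]
          exact h.gint x (hXW x hh)

theorem cr_fresh (a : I → I → ℕ) (hs : ∀ i j, a i j = a j i)
    {cn : Finset I → (I → ℚ) → ℕ → ℚ} (hcn : CN a cn)
    {k : ℕ} (hk : 2 ≤ k) {γ P p : I → ℚ} {H : I → I → ℚ} {W : Finset I} {q : I → ℚ}
    {w : Finset I → ℕ → ℚ} (h : Pre a cn k γ P p H W q w) (hFT : FT a (W ∪ crX W P))
    (htw : tw a W w (k - 1) (crQ a W (crX W P) p) ≠ 0) :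
    Fresh a cn k (crG k γ (crQ a W (crX W P) p)) P (crp a p (crQ a W (crX W P) p))
      (crH a W (crX W P) H) (W ∪ crX W P) (crq q (crQ a W (crX W P) p))
      (neww cn w (k - 1) (crq q (crQ a W (crX W P) p)) (crQ a W (crX W P) p)) := by
  have hX : ∀ x ∈ crX W P, 0 < p x := fun x hx =>
    (h.Pz x ((E4_mem W P x).1 hx).1 ((E4_mem W P x).1 hx).2).2
  have hGS := cr_GS a hs hcn hk h.toGS hX hFT htw
  have hXP : ∀ x ∈ crX W P, P x = 0 := fun x hx => ((E4_mem W P x).1 hx).2
  have hQn : ∀ i, 0 ≤ crQ a W (crX W P) p i :=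
    fun i => E4_Q_nonneg a hFT p (fun x hx => (hX x hx).le) i
  have hQo : ∀ i, i ∉ W ∪ crX W P → crQ a W (crX W P) p i = 0 :=
    fun i hi => E4_Q_off a W (crX W P) p i hi
  have hen : ∀ x i, 0 ≤ sol a (W ∪ crX W P) (fun y => if y = x then 1 else 0) i := by
    intro x i
    refine sol_nonneg a hFT _ (fun y _ => ?_) i
    split_ifs
    · exact zero_le_one
    · exact le_refl _
  have heo : ∀ x l, l ∉ W ∪ crX W P →
      cv a (sol a (W ∪ crX W P) (fun y => if y = x then 1 else 0)) l ≤ 0 := by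
    intro x l hl
    exact cv_nonpos a _ l (hen x) (sol_off a _ _ l hl)
  refine ⟨hGS, ?_, ?_, ?_, ?_, ?_, ?_⟩
  · intro l i hli
    unfold crH
    rw [if_pos hli]
  · intro l i
    unfold crH
    split_ifs with hli
    · exact le_refl _
    · push Not at hli
      have h1 : ∑ x ∈ crX W P, cv a (sol a (W ∪ crX W P) (fun y => if y = x then 1 else 0)) l *
          H x i ≤ 0 := Finset.sum_nonpos fun x _ =>
        mul_nonpos_of_nonpos_of_nonneg (heo x l hli.1) (h.Hnn x i)
      have h2 := h.Hnn l i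
      linarith
  · intro i hi
    have h1 := h.Pnn i
    rcases h1.lt_or_eq with h2 | h2
    · exact h2
    · exfalso
      apply hi
      by_cases hiW : i ∈ W
      · exact Finset.mem_union_left _ hiW
      · exact Finset.mem_union_right _ ((E4_mem W P i).2 ⟨hiW, h2.symm⟩)
  · intro i
    by_cases hi : i ∈ W ∪ crX W P
    · rw [hGS.p0 i hi]
    · unfold crp
      have h1 := cv_nonpos a _ i hQn (hQo i hi)
      have h2 := h.pnn i
      linarith
  · intro l
    by_cases hl : l ∈ W ∪ crX W P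
    · rw [hGS.p0 l hl]
      refine le_of_eq (Finset.sum_eq_zero fun i _ => ?_)
      unfold crH
      rw [if_pos (Or.inl hl), zero_mul]
    · have hQs : ∀ i, crQ a W (crX W P) p i = ∑ x ∈ crX W P,
          p x * sol a (W ∪ crX W P) (fun y => if y = x then 1 else 0) i := by
        refine FT_unique a hFT _ _ (fun i hi => ?_) (fun i hi => ?_)
        · rw [hQo i hi]
          refine (Finset.sum_eq_zero fun x _ => ?_).symm
          rw [sol_off a _ _ i hi, mul_zero]
        · rw [E4_Q_cv a hFT p i hi, cv_sum]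
          have h1 : ∀ x ∈ crX W P, cv a (fun j => p x *
              sol a (W ∪ crX W P) (fun y => if y = x then 1 else 0) j) i =
              if i = x then p x else 0 := by
            intro x _
            rw [cv_smul, sol_cv a hFT _ i hi]
            split_ifs
            · rw [mul_one]
            · rw [mul_zero]
          rw [Finset.sum_congr rfl h1, Finset.sum_ite_eq]
      have hcvQ : cv a (crQ a W (crX W P) p) l = ∑ x ∈ crX W P,
          p x * cv a (sol a (W ∪ crX W P) (fun y => if y = x then 1 else 0)) l := by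
        have h1 : crQ a W (crX W P) p = fun i => ∑ x ∈ crX W P,
          p x * sol a (W ∪ crX W P) (fun y => if y = x then 1 else 0) i := funext hQs
        rw [h1, cv_sum]
        exact Finset.sum_congr rfl fun x _ => cv_smul a _ _ _
      have hH : ∑ i, crH a W (crX W P) H l i * P i = ∑ i, H l i * P i -
          ∑ x ∈ crX W P, cv a (sol a (W ∪ crX W P) (fun y => if y = x then 1 else 0)) l *
            ∑ i, H x i * P i := by
        have h1 : ∀ i, crH a W (crX W P) H l i * P i = H l i * P i - ∑ x ∈ crX W P,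
            cv a (sol a (W ∪ crX W P) (fun y => if y = x then 1 else 0)) l * (H x i * P i) := by
          intro i
          by_cases hi : i ∈ W ∪ crX W P
          · have hPi : P i = 0 := by
              rcases Finset.mem_union.1 hi with hh | hh
              · exact h.P0 i hh
              · exact hXP i hh
            rw [hPi]
            simp
          · unfold crH
            rw [if_neg (fun hh => hh.elim hl hi), sub_mul, Finset.sum_mul]
            congr 1
            exact Finset.sum_congr rfl fun x _ => mul_assoc _ _ _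
        rw [Finset.sum_congr rfl fun i _ => h1 i, Finset.sum_sub_distrib]
        congr 1
        rw [Finset.sum_comm]
        exact Finset.sum_congr rfl fun x _ => by rw [Finset.mul_sum]
      have hd : ∑ x ∈ crX W P, cv a (sol a (W ∪ crX W P) (fun y => if y = x then 1 else 0)) l *
          (p x - ∑ i, H x i * P i) ≤ 0 := Finset.sum_nonpos fun x _ =>
        mul_nonpos_of_nonpos_of_nonneg (heo x l hl) (by have := h.dnn x; linarith)
      have hd2 : ∑ x ∈ crX W P, cv a (sol a (W ∪ crX W P) (fun y => if y = x then 1 else 0)) l *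
          (p x - ∑ i, H x i * P i) = cv a (crQ a W (crX W P) p) l -
          ∑ x ∈ crX W P, cv a (sol a (W ∪ crX W P) (fun y => if y = x then 1 else 0)) l *
            ∑ i, H x i * P i := by
        rw [hcvQ, ← Finset.sum_sub_distrib]
        exact Finset.sum_congr rfl fun x _ => by ring
      rw [hH]
      unfold crp
      have h3 := h.dnn l
      linarith
  · refine FT_nonneg a hFT _ (fun x hx => ?_) (fun x hx => ?_)
    · unfold crG
      rw [hQo x hx, mul_zero, sub_zero]
      exact h.gnn x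
    · rw [hGS.cons x, hGS.p0 x hx, hGS.P0 x hx]
      simp

end Pool.Agent.H40.KADE
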