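import Pool.Agent.H40.KADE.E3b
import Pool.Agent.H40.KADE.E4
import Pool.Agent.H40.KADE.E1d

/-!
KAC ADE engine, module E5: positivity.

`pos`: induction on `k`.  `k = 1`: `bot` (`blk W idm = 1`, `GS_w_nonneg`).
`k + 1`, `k ≥ 1`: `G (k+1) … idm H` is the limit `δ → 0+` of the values at `(1-δ) H` (`poly`; a polynomial which is `≥ 0` on
`(0, 1)` is `≥ 0` at `0`), `(1-δ) H` is again fresh; by `step` it is a sum of terms which are `≥ 0` by `term_nonneg`.
`term_nonneg`: if `tw = 0` trivial.  Otherwise `st_GS`.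
* `k = 1`: `bot`: if `γ' = 0` then `P' = 0` (`cons` with `k = 1`), `st_det_nonneg` (for the matrix `(1-δ) H`), `GS_w_nonneg`.
* `k ≥ 2`: if some loop-free `i` has `P'_i < 0`: `i ∉ W'`, `i ∉ S` (`P'_s = (C m)_s > 0`), so `P_i > 0`: `vanNeg`.  Otherwise `P' ≥ 0`
  (`st_loop`), the vertices of `X = crX W' P'` are loop-free with `P > 0`.  If `W' ∪ X` is not `FT`: `vanType`.  Otherwise `st_pre`,
  `norm` (`st_norm`), `create`, `tw ≥ 0` (`GS_tw_nonneg`), and if `tw ≠ 0`: `cr_fresh` and the induction hypothesis.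
-/

set_option autoImplicit false

namespace Pool.Agent.H40.KADE

open scoped BigOperators
open Pool.Agent.H27.KAC

variable {I : Type} [Fintype I] [DecidableEq I]

/-- the terms of the step. -/
noncomputable def term (a : I → I → ℕ) (cn : Finset I → (I → ℚ) → ℕ → ℚ)
    (G : ℕ → (I → ℚ) → (I → ℚ) → (I → ℚ) → (I → I → ℚ) → (I → I → ℚ) → Finset I → (I → ℚ) →
      (Finset I → ℕ → ℚ) → ℚ) (k : ℕ) (γ P p : I → ℚ) (H : I → I → ℚ) (W : Finset I) (q : I → ℚ)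
    (w : Finset I → ℕ → ℚ) (S : Finset I) (n : I → ℤ) : ℚ :=
  stw W P n * tw a W w k (mhat a (W \ S) q n) *
    G k (stG k γ (mhat a (W \ S) q n)) (stP a P p (mhat a (W \ S) q n)) P
      (stM a W (W \ S) P H (mhat a (W \ S) q n)) (stN W P (mhat a (W \ S) q n)) (W \ S)
      (stQ (W \ S) q (mhat a (W \ S) q n))
      (neww cn w k (stQ (W \ S) q (mhat a (W \ S) q n)) (mhat a (W \ S) q n))

theorem fresh_scale {a : I → I → ℕ} {cn : Finset I → (I → ℚ) → ℕ → ℚ}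
    {k : ℕ} {γ P p : I → ℚ} {H : I → I → ℚ} {W : Finset I} {q : I → ℚ}
    {w : Finset I → ℕ → ℚ} (h : Fresh a cn k γ P p H W q w) {δ : ℚ} (h0 : 0 ≤ δ) (h1 : δ ≤ 1) :
    Fresh a cn k γ P p (fun l i => (1 - δ) * H l i) W q w := by
  have hPn : ∀ i, 0 ≤ P i := by
    intro i
    by_cases hi : i ∈ W
    · rw [h.P0 i hi]
    · exact (h.Ppos i hi).le
  refine ⟨h.toGS, ?_, ?_, h.Ppos, h.pnn, ?_, h.gnn⟩
  · intro l i hli
    rw [h.H0 l i hli, mul_zero]
  · intro l i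
    exact mul_nonneg (by linarith) (h.Hnn l i)
  · intro l
    have h2 : ∑ i, (1 - δ) * H l i * P i = (1 - δ) * ∑ i, H l i * P i := by
      rw [Finset.mul_sum]
      exact Finset.sum_congr rfl fun i _ => by ring
    have h3 : 0 ≤ ∑ i, H l i * P i :=
      Finset.sum_nonneg fun i _ => mul_nonneg (h.Hnn l i) (hPn i)
    have h4 := h.dnn l
    rw [h2]
    nlinarith

/-- passage to the limit. -/
theorem lim_le (f : Polynomial ℚ) (c : ℚ) (h : ∀ δ : ℚ, 0 < δ → δ < 1 → c ≤ f.eval δ) :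
    c ≤ f.eval 0 := by
  have h1 : IsClosed {δ : ℚ | c ≤ f.eval δ} := isClosed_le continuous_const f.continuous
  have h2 : Set.Ioo (0 : ℚ) 1 ⊆ {δ : ℚ | c ≤ f.eval δ} := fun δ hδ => h δ hδ.1 hδ.2
  have h3 := closure_minimal h2 h1
  rw [closure_Ioo (by norm_num)] at h3
  exact h3 ⟨le_rfl, zero_le_one⟩

theorem E5_wtq_nonneg {P : ℚ} (hP : 0 ≤ P) (m : ℕ) : 0 ≤ wtq P m := by
  unfold wtq
  refine div_nonneg (Finset.prod_nonneg fun i _ => ?_) (Nat.cast_nonneg _)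
  positivity

theorem E5_stw_nonneg {W : Finset I} {P : I → ℚ} (hP : ∀ i, 0 ≤ P i) (n : I → ℤ) :
    0 ≤ stw W P n := by
  unfold stw
  exact Finset.prod_nonneg fun j _ => E5_wtq_nonneg (hP j) _

theorem E5_P_nonneg {a : I → I → ℕ} {cn : Finset I → (I → ℚ) → ℕ → ℚ}
    {k : ℕ} {γ P p : I → ℚ} {H : I → I → ℚ} {W : Finset I} {q : I → ℚ}
    {w : Finset I → ℕ → ℚ} (h : Fresh a cn k γ P p H W q w) (i : I) : 0 ≤ P i := by
  by_cases hi : i ∈ W
  · rw [h.P0 i hi]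
  · exact (h.Ppos i hi).le

theorem E5_G_nonneg (a : I → I → ℕ) (hs : ∀ i j, a i j = a j i) (hd : ∀ i, a i i ≠ 1)
    {cn : Finset I → (I → ℚ) → ℕ → ℚ} (hcn : CN a cn)
    {G : ℕ → (I → ℚ) → (I → ℚ) → (I → ℚ) → (I → I → ℚ) → (I → I → ℚ) → Finset I → (I → ℚ) →
      (Finset I → ℕ → ℚ) → ℚ} (hG : ClusterVal a cn G)
    {k : ℕ} (hk : 1 ≤ k)
    (ih : ∀ (γ P p : I → ℚ) (H : I → I → ℚ) (W : Finset I) (q : I → ℚ) (w : Finset I → ℕ → ℚ),
      Fresh a cn k γ P p H W q w → 0 ≤ G k γ P p idm H W q w)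
    {γ P p : I → ℚ} {H : I → I → ℚ} {W : Finset I} {q : I → ℚ}
    {w : Finset I → ℕ → ℚ} (h : Fresh a cn (k + 1) γ P p H W q w) {S : Finset I} (hS : S ⊆ W)
    {n : I → ℤ} (hn : n ∈ boxS (W \ S) k γ q)
    (hpos : ∀ s ∈ S, 0 < cv a (mhat a (W \ S) q n) s) {δ : ℚ} (hδ0 : 0 < δ) (hδ1 : δ ≤ 1)
    (htw : tw a W w k (mhat a (W \ S) q n) ≠ 0) :
    0 ≤ G k (stG k γ (mhat a (W \ S) q n)) (stP a P p (mhat a (W \ S) q n)) P
      (stM a W (W \ S) P (fun l i => (1 - δ) * H l i) (mhat a (W \ S) q n))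
      (stN W P (mhat a (W \ S) q n)) (W \ S)
      (stQ (W \ S) q (mhat a (W \ S) q n))
      (neww cn w k (stQ (W \ S) q (mhat a (W \ S) q n)) (mhat a (W \ S) q n)) := by
  have hPn : ∀ i, 0 ≤ P i := E5_P_nonneg h
  have hGS := st_GS a hs hcn hk h.toGS hS hn hpos htw
  rcases Nat.lt_or_ge k 2 with hk2 | hk2
  · obtain rfl : k = 1 := by omega
    rw [hG.bot _ _ _ _ _ _ _ _ hGS]
    split_ifs with hγ
    · have hP' : ∀ i, 0 ≤ stP a P p (mhat a (W \ S) q n) i := by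
        intro i
        have h1 := hGS.cons i
        have h2 : stG 1 γ (mhat a (W \ S) q n) = fun _ => (0 : ℚ) := funext hγ
        rw [h2, cv_zero] at h1
        push_cast at h1
        linarith
      refine mul_nonneg ?_ (Finset.prod_nonneg fun N hN =>
        GS_w_nonneg a hs hcn hGS hN (by omega))
      exact st_det_nonneg a hk (fresh_scale h hδ0.le hδ1) hS hn hpos hP'
    · exact le_refl _
  · have hSpos : ∀ s ∈ S, 0 < stP a P p (mhat a (W \ S) q n) s := by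
      intro s hsS
      unfold stP
      rw [h.P0 s (hS hsS), h.p0 s (hS hsS)]
      have := hpos s hsS
      linarith
    have hnotW : ∀ i, i ∉ W \ S → stP a P p (mhat a (W \ S) q n) i ≤ 0 → i ∉ W := by
      intro i hi hle hiW
      have hiS : i ∈ S := by
        by_contra hcon
        exact hi (Finset.mem_sdiff.2 ⟨hiW, hcon⟩)
      have := hSpos i hiS
      linarith
    by_cases hneg : ∃ i, a i i = 0 ∧ stP a P p (mhat a (W \ S) q n) i < 0
    · obtain ⟨i, hi0, hi1⟩ := hneg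
      have hi2 : i ∉ W \ S := fun hh => by
        have := hGS.P0 i hh
        linarith
      have hi3 := hnotW i hi2 hi1.le
      rw [hG.vanNeg k _ _ _ _ _ _ _ _ i hk2 hGS hPn hi2 hi0 hi1 (h.Ppos i hi3)]
    · push Not at hneg
      have hP' : ∀ i, 0 ≤ stP a P p (mhat a (W \ S) q n) i := by
        intro i
        by_cases hi : a i i = 0
        · exact hneg i hi
        · exact (st_loop a hs hd hk2 h hS hn i hi).le
      have hXX : ∀ x ∈ crX (W \ S) (stP a P p (mhat a (W \ S) q n)), a x x = 0 ∧ 0 < P x := by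
        intro x hx
        obtain ⟨hx1, hx2⟩ := (E4_mem _ _ x).1 hx
        refine ⟨?_, h.Ppos x (hnotW x hx1 hx2.le)⟩
        by_contra hcon
        have := st_loop a hs hd hk2 h hS hn x hcon
        linarith
      by_cases hFT : FT a ((W \ S) ∪ crX (W \ S) (stP a P p (mhat a (W \ S) q n)))
      · obtain ⟨hdet, hpre⟩ := st_pre a hs hd hcn hk2 h hS hn hpos htw hneg hFT hδ0 hδ1
        rw [hG.norm k _ _ _ _ _ (stH a W (W \ S) P (fun l i => (1 - δ) * H l i)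
          (mhat a (W \ S) q n)) _ _ _ (fun l i hl hi => st_norm a Finset.sdiff_subset P _ _
            hdet.ne' l i hl hi)]
        refine mul_nonneg hdet.le ?_
        rw [hG.create k _ _ _ _ _ _ _ hk2 hpre.toGS hP' hPn hpre.H0 hFT (fun x hx => (hXX x hx).2)]
        by_cases htw2 : tw a (W \ S) (neww cn w k (stQ (W \ S) q (mhat a (W \ S) q n))
            (mhat a (W \ S) q n)) (k - 1) (crQ a (W \ S)
              (crX (W \ S) (stP a P p (mhat a (W \ S) q n))) P) = 0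
        · rw [htw2, zero_mul]
        · exact mul_nonneg (GS_tw_nonneg a hs hcn hGS le_rfl _)
            (ih _ _ _ _ _ _ _ (cr_fresh a hs hcn hk2 hpre hFT htw2))
      · exact absurd (FT_cr a hk2 hGS (fun i => stG_nonneg a hk h.toGS h.gnn hS hn i) hXX) hFT

theorem term_nonneg (a : I → I → ℕ) (hs : ∀ i j, a i j = a j i) (hd : ∀ i, a i i ≠ 1)
    {cn : Finset I → (I → ℚ) → ℕ → ℚ} (hcn : CN a cn)
    {G : ℕ → (I → ℚ) → (I → ℚ) → (I → ℚ) → (I → I → ℚ) → (I → I → ℚ) → Finset I → (I → ℚ) →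
      (Finset I → ℕ → ℚ) → ℚ} (hG : ClusterVal a cn G)
    {k : ℕ} (hk : 1 ≤ k)
    (ih : ∀ (γ P p : I → ℚ) (H : I → I → ℚ) (W : Finset I) (q : I → ℚ) (w : Finset I → ℕ → ℚ),
      Fresh a cn k γ P p H W q w → 0 ≤ G k γ P p idm H W q w)
    {γ P p : I → ℚ} {H : I → I → ℚ} {W : Finset I} {q : I → ℚ}
    {w : Finset I → ℕ → ℚ} (h : Fresh a cn (k + 1) γ P p H W q w) {S : Finset I} (hS : S ⊆ W)
    {n : I → ℤ} (hn : n ∈ boxS (W \ S) k γ q)
    (hpos : ∀ s ∈ S, 0 < cv a (mhat a (W \ S) q n) s) {δ : ℚ} (hδ0 : 0 < δ) (hδ1 : δ ≤ 1) :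
    0 ≤ term a cn G k γ P p (fun l i => (1 - δ) * H l i) W q w S n := by
  have hPn : ∀ i, 0 ≤ P i := E5_P_nonneg h
  unfold term
  by_cases htw : tw a W w k (mhat a (W \ S) q n) = 0
  · rw [htw, mul_zero, zero_mul]
  · exact mul_nonneg (mul_nonneg (E5_stw_nonneg hPn n)
      (GS_tw_nonneg a hs hcn h.toGS (by omega) _))
      (E5_G_nonneg a hs hd hcn hG hk ih h hS hn hpos hδ0 hδ1 htw)

theorem E5_blk_idm (W : Finset I) : blk W (idm : I → I → ℚ) = 1 := by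
  ext l i
  unfold blk idm
  rw [Matrix.of_apply, Matrix.one_apply]
  split_ifs <;> rfl

theorem E5_step (a : I → I → ℕ)
    {cn : Finset I → (I → ℚ) → ℕ → ℚ}
    {G : ℕ → (I → ℚ) → (I → ℚ) → (I → ℚ) → (I → I → ℚ) → (I → I → ℚ) → Finset I → (I → ℚ) →
      (Finset I → ℕ → ℚ) → ℚ} (hG : ClusterVal a cn G) {k : ℕ} (hk : 1 ≤ k)
    {γ P p : I → ℚ} {H : I → I → ℚ} {W : Finset I} {q : I → ℚ}
    {w : Finset I → ℕ → ℚ} (h : Fresh a cn (k + 1) γ P p H W q w) (δ : ℚ) :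
    G (k + 1) γ P p idm (fun l i => (1 - δ) * H l i) W q w =
      ∑ S ∈ W.powerset, ∑ n ∈ (boxS (W \ S) k γ q).filter
          (fun n => ∀ s ∈ S, 0 < cv a (mhat a (W \ S) q n) s),
        term a cn G k γ P p (fun l i => (1 - δ) * H l i) W q w S n := by
  exact hG.step k γ P p (fun l i => (1 - δ) * H l i) W q w hk h.toGS h.Ppos h.pnn
    (fun l i hli => by rw [h.H0 l i hli, mul_zero])

theorem pos (a : I → I → ℕ) (hs : ∀ i j, a i j = a j i) (hd : ∀ i, a i i ≠ 1)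
    {cn : Finset I → (I → ℚ) → ℕ → ℚ} (hcn : CN a cn)
    {G : ℕ → (I → ℚ) → (I → ℚ) → (I → ℚ) → (I → I → ℚ) → (I → I → ℚ) → Finset I → (I → ℚ) →
      (Finset I → ℕ → ℚ) → ℚ} (hG : ClusterVal a cn G) (k : ℕ) (hk : 1 ≤ k) :
    ∀ (γ P p : I → ℚ) (H : I → I → ℚ) (W : Finset I) (q : I → ℚ) (w : Finset I → ℕ → ℚ),
      Fresh a cn k γ P p H W q w → 0 ≤ G k γ P p idm H W q w := by
  induction k, hk using Nat.le_induction with
  | base =>
    intro γ P p H W q w h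
    rw [hG.bot _ _ _ _ _ _ _ _ h.toGS]
    split_ifs
    · rw [E5_blk_idm, Matrix.det_one, one_mul]
      exact Finset.prod_nonneg fun N hN => GS_w_nonneg a hs hcn h.toGS hN (by omega)
    · exact le_refl _
  | succ k hk ih =>
    intro γ P p H W q w h
    obtain ⟨f, hf⟩ := hG.poly (k + 1) γ P p H W q w
    have h0 : G (k + 1) γ P p idm H W q w = f.eval 0 := by
      rw [← hf 0]
      congr 1
      funext l i
      ring
    rw [h0]
    refine lim_le f 0 fun δ hδ0 hδ1 => ?_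
    rw [← hf δ, E5_step a hG hk h δ]
    refine Finset.sum_nonneg fun S hS => Finset.sum_nonneg fun n hn => ?_
    obtain ⟨hn1, hn2⟩ := Finset.mem_filter.1 hn
    exact term_nonneg a hs hd hcn hG hk ih h (Finset.mem_powerset.1 hS) hn1 hn2 hδ0 hδ1.le

/-- one term is a lower bound, for the perturbed matrix. -/
theorem term_le (a : I → I → ℕ) (hs : ∀ i j, a i j = a j i) (hd : ∀ i, a i i ≠ 1)
    {cn : Finset I → (I → ℚ) → ℕ → ℚ} (hcn : CN a cn)
    {G : ℕ → (I → ℚ) → (I → ℚ) → (I → ℚ) → (I → I → ℚ) → (I → I → ℚ) → Finset I → (I → ℚ) →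
      (Finset I → ℕ → ℚ) → ℚ} (hG : ClusterVal a cn G) {k : ℕ} (hk : 1 ≤ k)
    {γ P p : I → ℚ} {H : I → I → ℚ} {W : Finset I} {q : I → ℚ}
    {w : Finset I → ℕ → ℚ} (h : Fresh a cn (k + 1) γ P p H W q w) {S : Finset I} (hS : S ⊆ W)
    {n : I → ℤ} (hn : n ∈ boxS (W \ S) k γ q)
    (hpos : ∀ s ∈ S, 0 < cv a (mhat a (W \ S) q n) s) {δ : ℚ} (hδ0 : 0 < δ) (hδ1 : δ ≤ 1) :
    term a cn G k γ P p (fun l i => (1 - δ) * H l i) W q w S n ≤
      G (k + 1) γ P p idm (fun l i => (1 - δ) * H l i) W q w := by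
  have ih := pos a hs hd hcn hG k hk
  rw [E5_step a hG hk h δ]
  have hnn : ∀ S' ∈ W.powerset, ∀ n' ∈ (boxS (W \ S') k γ q).filter
      (fun n => ∀ s ∈ S', 0 < cv a (mhat a (W \ S') q n) s),
      0 ≤ term a cn G k γ P p (fun l i => (1 - δ) * H l i) W q w S' n' := by
    intro S' hS' n' hn'
    obtain ⟨hn1, hn2⟩ := Finset.mem_filter.1 hn'
    exact term_nonneg a hs hd hcn hG hk ih h (Finset.mem_powerset.1 hS') hn1 hn2 hδ0 hδ1
  refine le_trans ?_ (Finset.single_le_sum (fun S' hS' => Finset.sum_nonneg (hnn S' hS'))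
    (Finset.mem_powerset.2 hS))
  exact Finset.single_le_sum (f := fun n => term a cn G k γ P p (fun l i => (1 - δ) * H l i)
    W q w S n) (hnn S (Finset.mem_powerset.2 hS)) (Finset.mem_filter.2 ⟨hn, hpos⟩)

end Pool.Agent.H40.KADE
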