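import Pool.Agent.H40.KADE.E5
import Pool.Agent.H27.KAC.KJ4
import Pool.Agent.H27.KAC.KL6

/-!
KAC ADE engine, module E6: the top states, `f ≥ 0`.

* `FT_Zt`: `Z = Zt a α`.  Matrix `A` = `C` on `Z × Z`, identity elsewhere; `y = α` on `Z`, `1` elsewhere; `(A y)_x = ∑_{j ∉ Z} a_xj α_j ≥ 0` on
  `Z`.  If `T ⊆ Z` is a trap then `a_xj = 0` for `x ∈ T`, `j ∉ T`, contradicting `Conn` (`T ≠ univ` because some `s_r > 0`).
  `mm_inv_nonneg`: `u = A⁻¹ 1_Z ≥ 0`, `(C u)_x = 1` on `Z`, so `u_x > 0` (`sol_pos_of`), `u = 0` off `Z`.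
* `top_fresh`: `GS`: `cons`: `(C α)_i = K s_i - (K+1) s_i`; `adm`: second case.
* `f_nonneg_amp`: `top_poly` with `μ_i = 0` if `s_i = 0`, else `1`; `ClusterVal.top` and `pos`: `q(ε) ≥ 0` for `0 < ε < 1`, `q(0) = 0`, so
  `q'(0) ≥ 0` (`kl6_limit`-like), `q'(0) = f(α) ∑ α_i s_i`, the sum is `> 0`.
-/

set_option autoImplicit false

namespace Pool.Agent.H40.KADE

open scoped BigOperators
open Pool.Agent.H27.KAC

variable {I : Type} [Fintype I] [DecidableEq I]

theorem E6_mem (a : I → I → ℕ) (α : I →₀ ℕ) (i : I) :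
    i ∈ Zt a α ↔ a i i = 0 ∧ cw a α i = 0 := by
  unfold Zt
  rw [Finset.mem_filter]
  exact ⟨fun h => h.2, fun h => ⟨Finset.mem_univ _, h⟩⟩

theorem E6_cv_cw (a : I → I → ℕ) (α : I →₀ ℕ) (i : I) :
    cv a (fun j => (α j : ℚ)) i = ((cw a α i : ℤ) : ℚ) := by
  unfold cv cw
  push_cast
  rfl

theorem E6_pos (a : I → I → ℕ) {α : I →₀ ℕ} (hα : Amp a α) (i : I) : 0 ≤ -cw a α i := by
  by_cases h : a i i = 0
  · exact hα.pos i h
  · exact (hα.posl i h).le

theorem E6_pos' (a : I → I → ℕ) {α : I →₀ ℕ} (hα : Amp a α) (i : I) (hi : i ∉ Zt a α) :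
    0 < -cw a α i := by
  rw [E6_mem] at hi
  by_cases h : a i i = 0
  · have h1 := hα.pos i h
    have h2 : cw a α i ≠ 0 := fun h3 => hi ⟨h, h3⟩
    omega
  · exact hα.posl i h

theorem FT_Zt (a : I → I → ℕ) (hs : ∀ i j, a i j = a j i) (hc : Conn a) (α : I →₀ ℕ)
    (hα : Amp a α) : FT a (Zt a α) := by
  classical
  set Z := Zt a α with hZdef
  obtain ⟨r, hr⟩ := hα.ex
  have hrZ : r ∉ Z := by
    intro h
    have := ((E6_mem a α r).1 h).2
    omega
  set A : Matrix I I ℚ := Matrix.of (fun l j => if l ∈ Z ∧ j ∈ Z then ((cart a l j : ℤ) : ℚ)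
    else if l = j then 1 else 0) with hA
  have hAap : ∀ l j, A l j = if l ∈ Z ∧ j ∈ Z then ((cart a l j : ℤ) : ℚ)
      else if l = j then 1 else 0 := fun l j => rfl
  have hAZ : ∀ i j, i ≠ j → A i j ≤ 0 := by
    intro i j hij
    rw [hAap]
    split_ifs with h1
    · rw [cart_ne a hij]
      push_cast
      have : (0 : ℚ) ≤ (a i j : ℚ) := Nat.cast_nonneg _
      linarith
    · exact le_rfl
  -- action on vectors
  have hAv1 : ∀ (v : I → ℚ) (l : I), l ∉ Z → (A.mulVec v) l = v l := by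
    intro v l hl
    show ∑ j, A l j * v j = v l
    rw [Finset.sum_eq_single l]
    · rw [hAap, if_neg (fun h => hl h.1), if_pos rfl, one_mul]
    · intro j _ hj
      rw [hAap, if_neg (fun h => hl h.1), if_neg (Ne.symm hj), zero_mul]
    · intro h
      exact absurd (Finset.mem_univ l) h
  have hAv2 : ∀ (v : I → ℚ) (l : I), l ∈ Z → (A.mulVec v) l =
      cv a (fun j => if j ∈ Z then v j else 0) l := by
    intro v l hl
    show ∑ j, A l j * v j = _
    unfold cv
    refine Finset.sum_congr rfl fun j _ => ?_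
    rw [hAap]
    beta_reduce
    by_cases hj : j ∈ Z
    · rw [if_pos ⟨hl, hj⟩, if_pos hj]
    · have hne : l ≠ j := by
        rintro rfl
        exact hj hl
      rw [if_neg (fun h => hj h.2), if_neg hj, if_neg hne, zero_mul, mul_zero]
  set y : I → ℚ := fun j => if j ∈ Z then (α j : ℚ) else 1 with hy
  have hypos : ∀ i, 0 < y i := by
    intro i
    simp only [hy]
    split_ifs
    · have := hα.supp i
      exact_mod_cast this
    · exact one_pos
  have hAy : ∀ l ∈ Z, (A.mulVec y) l = ∑ j ∈ Finset.univ \ Z, (a l j : ℚ) * (α j : ℚ) := by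
    intro l hl
    rw [hAv2 y l hl]
    have h1 : cv a (fun j => if j ∈ Z then y j else 0) l =
        cv a (fun j => (α j : ℚ)) l - cv a (fun j => if j ∈ Z then 0 else (α j : ℚ)) l := by
      rw [← cv_sub]
      congr 1
      funext j
      simp only [hy]
      split_ifs <;> ring
    rw [h1, E6_cv_cw, ((E6_mem a α l).1 hl).2]
    unfold cv
    rw [Int.cast_zero, zero_sub, ← Finset.sum_neg_distrib]
    rw [← Finset.sum_subset (Finset.subset_univ (Finset.univ \ Z))]
    · refine Finset.sum_congr rfl fun j hj => ?_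
      have hjZ : j ∉ Z := (Finset.mem_sdiff.1 hj).2
      have hne : l ≠ j := by
        rintro rfl
        exact hjZ hl
      beta_reduce
      rw [if_neg hjZ, cart_ne a hne]
      push_cast
      ring
    · intro j _ hj
      have hjZ : j ∈ Z := by
        by_contra h
        exact hj (Finset.mem_sdiff.2 ⟨Finset.mem_univ _, h⟩)
      beta_reduce
      rw [if_pos hjZ]
      ring
  have hAynn : ∀ l, 0 ≤ (A.mulVec y) l := by
    intro l
    by_cases hl : l ∈ Z
    · rw [hAy l hl]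
      exact Finset.sum_nonneg fun j _ => by positivity
    · rw [hAv1 y l hl]
      exact (hypos l).le
  have htr : ∀ T : Finset I, T.Nonempty → (∀ l ∈ T, (A.mulVec y) l = 0) →
      ∃ l ∈ T, ∃ j, j ∉ T ∧ A l j ≠ 0 := by
    intro T hT hT0
    have hTZ : T ⊆ Z := by
      intro l hl
      by_contra h
      have h1 := hT0 l hl
      rw [hAv1 y l h] at h1
      exact absurd h1 (hypos l).ne'
    obtain ⟨i, hi, j, hj, hij⟩ := hc T hT (fun h => hrZ (hTZ (h ▸ Finset.mem_univ r)))
    refine ⟨i, hi, j, hj, ?_⟩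
    by_cases hjZ : j ∈ Z
    · have hne : i ≠ j := by
        rintro rfl
        exact hj hi
      rw [hAap, if_pos ⟨hTZ hi, hjZ⟩, cart_ne a hne]
      push_cast
      have : (0 : ℚ) < (a i j : ℚ) := by exact_mod_cast hij
      linarith
    · exfalso
      have h1 := hT0 i hi
      rw [hAy i (hTZ hi)] at h1
      have h2 : (a i j : ℚ) * (α j : ℚ) ≤ ∑ j ∈ Finset.univ \ Z, (a i j : ℚ) * (α j : ℚ) :=
        Finset.single_le_sum (f := fun j => (a i j : ℚ) * (α j : ℚ)) (fun j _ => by positivity)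
          (Finset.mem_sdiff.2 ⟨Finset.mem_univ j, hjZ⟩)
      have h3 : (0 : ℚ) < (a i j : ℚ) := by exact_mod_cast hij
      have h4 : (0 : ℚ) < (α j : ℚ) := by
        have := hα.supp j
        exact_mod_cast this
      have h5 := mul_pos h3 h4
      linarith
  have hdet : 0 < A.det := mm_det_pos A hAZ y hypos hAynn htr
  set b : I → ℚ := fun j => if j ∈ Z then 1 else 0 with hb
  set u : I → ℚ := A⁻¹.mulVec b with hu
  have hAu : A.mulVec u = b := by
    rw [hu, Matrix.mulVec_mulVec, Matrix.mul_nonsing_inv A (Ne.isUnit hdet.ne'), Matrix.one_mulVec]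
  have hbnn : ∀ i, 0 ≤ b i := by
    intro i
    simp only [hb]
    split_ifs
    · exact zero_le_one
    · exact le_rfl
  have hunn : ∀ i, 0 ≤ u i := mm_comp A hAZ y hypos hAynn htr u (fun i => by
    rw [hAu]
    exact hbnn i)
  have hu0 : ∀ x, x ∉ Z → u x = 0 := by
    intro x hx
    rw [← hAv1 u x hx, hAu]
    simp only [hb]
    rw [if_neg hx]
  have hcu : ∀ x ∈ Z, cv a u x = 1 := by
    intro x hx
    have h1 := hAv2 u x hx
    rw [hAu] at h1
    have h2 : (fun j => if j ∈ Z then u j else 0) = u := by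
      funext j
      split_ifs with h
      · rfl
      · exact (hu0 j h).symm
    rw [h2] at h1
    rw [← h1]
    simp only [hb]
    rw [if_pos hx]
  refine ⟨fun x hx => ((E6_mem a α x).1 hx).1, u, ?_, hu0, ?_⟩
  · intro x hx
    exact sol_pos_of a u hunn x (by rw [hcu x hx]; exact one_pos)
  · intro x hx
    rw [hcu x hx]
    exact one_pos

/-- the matrix of the top states. -/
def topH (a : I → I → ℕ) (α : I →₀ ℕ) (ε : ℚ) (l i : I) : ℚ :=
  if l = i ∧ ¬ (a i i = 0 ∧ cw a α i = 0) then 1 - ε * (if cw a α i = 0 then 0 else 1) else 0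

theorem top_fresh (a : I → I → ℕ) (hs : ∀ i j, a i j = a j i) (hc : Conn a)
    (cn : Finset I → (I → ℚ) → ℕ → ℚ) (α : I →₀ ℕ) (hα : Amp a α) (K : ℕ) (ε : ℚ) (h0 : 0 ≤ ε)
    (h1 : ε ≤ 1) :
    Fresh a cn (K + 1) (fun i => (α i : ℚ)) (fun i => -((cw a α i : ℤ) : ℚ))
      (fun i => -((cw a α i : ℤ) : ℚ)) (topH a α ε) (Zt a α) (fun _ => 0) (fun _ _ => 1) := by
  have hz : ∀ x ∈ Zt a α, -((cw a α x : ℤ) : ℚ) = 0 := by
    intro x hx
    rw [((E6_mem a α x).1 hx).2]
    simp
  have hnn : ∀ i, (0 : ℚ) ≤ -((cw a α i : ℤ) : ℚ) := by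
    intro i
    have := E6_pos a hα i
    exact_mod_cast this
  have hμ : ∀ i, 0 ≤ 1 - ε * (if cw a α i = 0 then (0 : ℚ) else 1) := by
    intro i
    split_ifs <;> linarith
  have hμ1 : ∀ i, 1 - ε * (if cw a α i = 0 then (0 : ℚ) else 1) ≤ 1 := by
    intro i
    split_ifs <;> linarith
  refine
    { ft := FT_Zt a hs hc α hα
      P0 := hz
      p0 := hz
      q0 := fun _ _ => rfl
      cons := ?_
      int := ?_
      gint := fun i _ => ⟨(α i : ℤ), by push_cast; rfl⟩
      adm := ?_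
      H0 := ?_
      Hnn := ?_
      Ppos := ?_
      pnn := hnn
      dnn := ?_
      gnn := fun i => Nat.cast_nonneg _ }
  · intro i
    rw [E6_cv_cw]
    push_cast
    ring
  · intro i
    refine ⟨0, ?_⟩
    rw [cv_zero]
    simp
  · intro N _
    exact Or.inr ⟨fun _ _ => rfl, fun _ _ => rfl, fun x _ => ⟨(α x : ℤ), by push_cast; rfl⟩⟩
  · intro l i hli
    unfold topH
    rw [if_neg]
    rintro ⟨h2, h3⟩
    rcases hli with h | h
    · rw [h2] at h
      exact h3 ((E6_mem a α i).1 h)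
    · exact h3 ((E6_mem a α i).1 h)
  · intro l i
    unfold topH
    split_ifs with h2 h3
    · simp
    · linarith
    · exact le_rfl
  · intro i hi
    have := E6_pos' a hα i hi
    exact_mod_cast this
  · intro l
    rw [Finset.sum_eq_single l]
    · unfold topH
      split_ifs with h2 h3
      · simp
      · have := hnn l
        nlinarith
      · rw [zero_mul]
        exact hnn l
    · intro i _ hi
      unfold topH
      rw [if_neg (fun h => hi h.1.symm), zero_mul]
    · intro h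
      exact absurd (Finset.mem_univ l) h

/-- the value of the top state. -/
theorem top_val (a : I → I → ℕ) {cn : Finset I → (I → ℚ) → ℕ → ℚ}
    {G : ℕ → (I → ℚ) → (I → ℚ) → (I → ℚ) → (I → I → ℚ) → (I → I → ℚ) → Finset I → (I → ℚ) →
      (Finset I → ℕ → ℚ) → ℚ} (hG : ClusterVal a cn G) (α : I →₀ ℕ) (hFT : FT a (Zt a α)) (K : ℕ)
    (ε : ℚ) :
    Val a α (topS a α K ε) = G (K + 1) (fun i => (α i : ℚ)) (fun i => -((cw a α i : ℤ) : ℚ))
      (fun i => -((cw a α i : ℤ) : ℚ)) idm (topH a α ε) (Zt a α) (fun _ => 0) (fun _ _ => 1) :=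
  hG.top α K (fun i => if cw a α i = 0 then 0 else 1) ε hFT (fun i _ h => by
    show (if cw a α i = 0 then (0 : ℚ) else 1) = 0
    rw [if_pos h])

theorem f_nonneg_amp (a : I → I → ℕ) (hs : ∀ i j, a i j = a j i) (hd : ∀ i, a i i ≠ 1)
    (hc : Conn a) {cn : Finset I → (I → ℚ) → ℕ → ℚ} (hcn : CN a cn)
    {G : ℕ → (I → ℚ) → (I → ℚ) → (I → ℚ) → (I → I → ℚ) → (I → I → ℚ) → Finset I → (I → ℚ) →
      (Finset I → ℕ → ℚ) → ℚ} (hG : ClusterVal a cn G)
    (f : (I → ℕ) → ℚ) (hK : KacData a f) (α : I →₀ ℕ) (hα : Amp a α) : 0 ≤ f α := by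
  obtain ⟨r, hr⟩ := hα.ex
  have hα0 : α ≠ 0 := by
    intro h
    have h1 := hα.supp r
    rw [h] at h1
    simp at h1
  obtain ⟨q, hq, hq0, hq1⟩ := top_poly a hs f hK α hα0 (tdeg α) le_rfl
    (fun i => if cw a α i = 0 then 0 else 1)
  have hlow : ∀ ε : ℚ, 0 < ε → ε < 1 → 0 * ε ≤ q.eval ε := by
    intro ε h0 h1
    rw [zero_mul, ← hq ε]
    have h2 := top_val a hG α (FT_Zt a hs hc α hα) (tdeg α) ε
    have h3 := pos a hs hd hcn hG (tdeg α + 1) (by omega) _ _ _ _ _ _ _
      (top_fresh a hs hc cn α hα (tdeg α) ε h0.le h1.le)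
    rw [← h2] at h3
    exact h3
  have h4 := kl6_limit q 0 hq0 hlow
  rw [hq1] at h4
  have h5 : 0 < ∑ i, (fun i => if cw a α i = 0 then (0 : ℚ) else 1) i * (α i : ℚ) *
      (-(cw a α i : ℤ) : ℚ) := by
    refine Finset.sum_pos' ?_ ⟨r, Finset.mem_univ r, ?_⟩
    · intro i _
      have h6 : (0 : ℚ) ≤ (-(cw a α i : ℤ) : ℚ) := by
        have := E6_pos a hα i
        exact_mod_cast this
      have h7 : (0 : ℚ) ≤ (fun i => if cw a α i = 0 then (0 : ℚ) else 1) i := by
        show (0 : ℚ) ≤ if cw a α i = 0 then (0 : ℚ) else 1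
        split_ifs
        · exact le_rfl
        · exact zero_le_one
      positivity
    · have h6 : (0 : ℚ) < (-(cw a α r : ℤ) : ℚ) := by exact_mod_cast hr
      have h7 : (fun i => if cw a α i = 0 then (0 : ℚ) else 1) r = 1 := by
        show (if cw a α r = 0 then (0 : ℚ) else 1) = 1
        rw [if_neg (by omega)]
      have h8 : (0 : ℚ) < (α r : ℚ) := by
        have := hα.supp r
        exact_mod_cast this
      rw [h7]
      positivity
  by_contra h
  push Not at h
  have := mul_neg_of_neg_of_pos h h5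
  linarith

end Pool.Agent.H40.KADE
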