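import Pool.Agent.H40.KADE.E5

/-!
KAC ADE engine, module E7: one step of the lower bound.

`A = blk W' (stM … (1-δ)H …)`, `y = yv …`, `A y = P' + d` off `W'` (`st_Ay`), `H' = stH …`, `N y = P` (for `l ∉ W`: `scl_l y_l = P_l`).
* `st_fresh`: `crX W' P' = ∅` because `P' > 0` off `W'`; `st_pre`.
* `st_dr`: `P_r = ∑_i H'_{ri} (P'_i + d_i)` (from `H' A = N`), so `P_r - ∑ H'_{ri} P'_i = ∑_i H'_{ri} d_i ≥ H'_{rr} d_r = scl_r (A⁻¹)_{rr} d_r`; and
  `det A (A⁻¹)_{rr} ≥ ∏_{l ≠ r} (P'_l / y_l)` by `mm_minor`.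
-/

set_option autoImplicit false

namespace Pool.Agent.H40.KADE

open scoped BigOperators
open Matrix Pool.Agent.H27.KAC

variable {I : Type} [Fintype I] [DecidableEq I]

theorem E7_fact (P k : ℕ) :
    ((P + k).factorial : ℚ) = P.factorial * ∏ i ∈ Finset.range k, ((P : ℚ) + i + 1) := by
  induction k with
  | zero => simp
  | succ k ih =>
    rw [Finset.prod_range_succ, ← mul_assoc, ← ih, ← add_assoc, Nat.factorial_succ]
    push_cast
    ring

theorem wt_eq (P m : ℕ) (hP : 1 ≤ P) :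
    wt P m = wtq (P : ℚ) m / (if m = 0 then (P : ℚ) else 1) := by
  have hPf : (P.factorial : ℚ) ≠ 0 := by exact_mod_cast P.factorial_ne_zero
  rcases Nat.eq_zero_or_pos m with rfl | hm
  · obtain ⟨P, rfl⟩ : ∃ P', P = P' + 1 := ⟨P - 1, by omega⟩
    have h1 : (((P + 1 : ℕ)) : ℚ) ≠ 0 := by exact_mod_cast P.succ_ne_zero
    have h2 : (P.factorial : ℚ) ≠ 0 := by exact_mod_cast P.factorial_ne_zero
    simp only [wt, wtq, if_true, Nat.add_zero, Nat.add_sub_cancel, Nat.factorial_zero, Nat.zero_sub,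
      Finset.range_zero, Finset.prod_empty, Nat.cast_one, div_one, mul_one]
    rw [Nat.factorial_succ]
    push_cast at h1 ⊢
    field_simp
  · obtain ⟨m, rfl⟩ : ∃ m', m = m' + 1 := ⟨m - 1, by omega⟩
    have h1 : ((m + 1).factorial : ℚ) ≠ 0 := by exact_mod_cast (m + 1).factorial_ne_zero
    rw [if_neg (Nat.succ_ne_zero m), div_one]
    simp only [wt, wtq]
    rw [show P + (m + 1) - 1 = P + m by omega, show m + 1 - 1 = m by omega, E7_fact]
    field_simp

theorem E7_mpos (a : I → I → ℕ) {cn : Finset I → (I → ℚ) → ℕ → ℚ}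
    {k : ℕ} {γ P p : I → ℚ} {H : I → I → ℚ} {W : Finset I} {q : I → ℚ}
    {w : Finset I → ℕ → ℚ} (h : Fresh a cn (k + 1) γ P p H W q w) {S : Finset I} (hS : S ⊆ W)
    {m : I → ℚ} (hpos : ∀ i, i ∉ W \ S → 0 < stP a P p m i) (s : I) (hs : s ∈ S) :
    0 < cv a m s := by
  have h1 := hpos s (by simp [hs])
  unfold stP at h1
  rw [h.P0 s (hS hs), h.p0 s (hS hs)] at h1
  linarith

theorem E7_P0 (a : I → I → ℕ) {cn : Finset I → (I → ℚ) → ℕ → ℚ}
    {k : ℕ} {γ P p : I → ℚ} {H : I → I → ℚ} {W : Finset I} {q : I → ℚ}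
    {w : Finset I → ℕ → ℚ} (h : Fresh a cn (k + 1) γ P p H W q w) (S : Finset I) (n : I → ℤ)
    (i : I) (hi : i ∈ W \ S) : stP a P p (mhat a (W \ S) q n) i = 0 := by
  have h1 : i ∈ W := (Finset.mem_sdiff.1 hi).1
  unfold stP
  rw [h.P0 i h1, h.p0 i h1, mhat_cv a (FT_mono a h.ft Finset.sdiff_subset) q n i hi]
  ring

theorem st_fresh (a : I → I → ℕ) (hs : ∀ i j, a i j = a j i) (hd : ∀ i, a i i ≠ 1)
    {cn : Finset I → (I → ℚ) → ℕ → ℚ} (hcn : CN a cn)
    {k : ℕ} (hk : 2 ≤ k) {γ P p : I → ℚ} {H : I → I → ℚ} {W : Finset I} {q : I → ℚ}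
    {w : Finset I → ℕ → ℚ} (h : Fresh a cn (k + 1) γ P p H W q w) {S : Finset I} (hS : S ⊆ W)
    {n : I → ℤ} (hn : n ∈ boxS (W \ S) k γ q)
    (hpos : ∀ i, i ∉ W \ S → 0 < stP a P p (mhat a (W \ S) q n) i)
    (htw : tw a W w k (mhat a (W \ S) q n) ≠ 0) {δ : ℚ} (hδ0 : 0 < δ) (hδ1 : δ ≤ 1) :
    0 < (blk (W \ S) (stM a W (W \ S) P (fun l i => (1 - δ) * H l i)
      (mhat a (W \ S) q n))).det ∧
    Fresh a cn k (stG k γ (mhat a (W \ S) q n)) (stP a P p (mhat a (W \ S) q n)) P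
      (stH a W (W \ S) P (fun l i => (1 - δ) * H l i) (mhat a (W \ S) q n)) (W \ S)
      (stQ (W \ S) q (mhat a (W \ S) q n))
      (neww cn w k (stQ (W \ S) q (mhat a (W \ S) q n)) (mhat a (W \ S) q n)) := by
  have hposS : ∀ s ∈ S, 0 < cv a (mhat a (W \ S) q n) s := E7_mpos a h hS hpos
  have hP' : ∀ i, a i i = 0 → 0 ≤ stP a P p (mhat a (W \ S) q n) i := by
    intro i _
    by_cases hi : i ∈ W \ S
    · rw [E7_P0 a h S n i hi]
    · exact (hpos i hi).le
  have hX : crX (W \ S) (stP a P p (mhat a (W \ S) q n)) = ∅ := by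
    unfold crX
    rw [Finset.filter_eq_empty_iff]
    rintro i - ⟨h1, h2⟩
    have := hpos i h1
    rw [h2] at this
    exact lt_irrefl _ this
  have hFT : FT a ((W \ S) ∪ crX (W \ S) (stP a P p (mhat a (W \ S) q n))) := by
    rw [hX, Finset.union_empty]
    exact FT_mono a h.ft Finset.sdiff_subset
  obtain ⟨hdet, hpre⟩ := st_pre a hs hd hcn hk h hS hn hposS htw hP' hFT hδ0 hδ1
  exact ⟨hdet, { hpre.toGS with
    H0 := hpre.H0
    Hnn := hpre.Hnn
    Ppos := hpos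
    pnn := hpre.pnn
    dnn := hpre.dnn
    gnn := hpre.gnn }⟩

/-- the facts about the matrix of one step. -/
theorem E7_mat (a : I → I → ℕ) {cn : Finset I → (I → ℚ) → ℕ → ℚ}
    {k : ℕ} (hk : 1 ≤ k) {γ P p : I → ℚ} {H : I → I → ℚ} {W : Finset I} {q : I → ℚ}
    {w : Finset I → ℕ → ℚ} (h : Fresh a cn (k + 1) γ P p H W q w) {S : Finset I} (hS : S ⊆ W)
    {n : I → ℤ} (hn : n ∈ boxS (W \ S) k γ q)
    (hposS : ∀ s ∈ S, 0 < cv a (mhat a (W \ S) q n) s) {δ : ℚ} (hδ1 : δ ≤ 1) :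
    (∀ i j, i ≠ j → blk (W \ S) (stM a W (W \ S) P (fun l i => (1 - δ) * H l i)
      (mhat a (W \ S) q n)) i j ≤ 0) ∧
    (∀ i, 0 < yv W (W \ S) P (mhat a (W \ S) q n) i) ∧
    ∀ l, (blk (W \ S) (stM a W (W \ S) P (fun l i => (1 - δ) * H l i)
      (mhat a (W \ S) q n)) *ᵥ yv W (W \ S) P (mhat a (W \ S) q n)) l =
      if l ∈ W \ S then 1 else stP a P p (mhat a (W \ S) q n) l +
        (p l - ∑ i, (1 - δ) * H l i * P i) := by
  have hFT : FT a (W \ S) := FT_mono a h.ft Finset.sdiff_subset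
  have hmnn : ∀ i, 0 ≤ mhat a (W \ S) q n i := mhat_nonneg a hFT hk hn
  have hH0 : ∀ l i, l ∈ W ∨ i ∈ W → (1 - δ) * H l i = 0 := by
    intro l i hli
    rw [h.H0 l i hli, mul_zero]
  have hH : ∀ l i, 0 ≤ (1 - δ) * H l i := fun l i => mul_nonneg (by linarith) (h.Hnn l i)
  refine ⟨?_, ?_, ?_⟩
  · exact st_Z a Finset.sdiff_subset hFT h.Ppos hH0 hH hmnn
  · apply st_yv_pos h.Ppos
    intro s hs hs'
    have : s ∈ S := by
      by_contra hc
      exact hs' (Finset.mem_sdiff.2 ⟨hs, hc⟩)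
    exact sol_pos_of a _ hmnn s (hposS s this)
  · intro l
    exact st_Ay a Finset.sdiff_subset hFT h.P0 hH0 (m0 := fun i => (n i : ℚ) - q i) rfl l

theorem E7_col (W' : Finset I) (M : I → I → ℚ) (hdet : (blk W' M).det ≠ 0) (r i : I)
    (hi : i ∈ W') (hri : r ≠ i) : (blk W' M)⁻¹ r i = 0 := by
  have hu : IsUnit (blk W' M).det := isUnit_iff_ne_zero.2 hdet
  have h1 : blk W' M *ᵥ Pi.single i (1 : ℚ) = Pi.single i 1 := by
    ext l
    rw [Matrix.mulVec_single_one]
    simp only [Matrix.col_apply, blk, Matrix.of_apply, hi, or_true, if_true, Pi.single_apply]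
  have h2 : (blk W' M)⁻¹ *ᵥ (blk W' M *ᵥ Pi.single i (1 : ℚ)) = Pi.single i 1 := by
    rw [Matrix.mulVec_mulVec, Matrix.nonsing_inv_mul _ hu, Matrix.one_mulVec]
  rw [h1, Matrix.mulVec_single_one] at h2
  have h3 := congrFun h2 r
  simp only [Matrix.col_apply, Pi.single_apply, if_neg hri] at h3
  exact h3

theorem E7_dle {a : I → I → ℕ} {cn : Finset I → (I → ℚ) → ℕ → ℚ}
    {k : ℕ} {γ P p : I → ℚ} {H : I → I → ℚ} {W : Finset I} {q : I → ℚ}
    {w : Finset I → ℕ → ℚ} (h : Fresh a cn k γ P p H W q w) {δ : ℚ} (hδ0 : 0 ≤ δ) (l : I) :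
    0 ≤ p l - ∑ i, H l i * P i ∧
      p l - ∑ i, H l i * P i ≤ p l - ∑ i, (1 - δ) * H l i * P i := by
  have hPnn : ∀ i, 0 ≤ P i := by
    intro i
    by_cases hi : i ∈ W
    · rw [h.P0 i hi]
    · exact (h.Ppos i hi).le
  have h1 : 0 ≤ ∑ i, H l i * P i :=
    Finset.sum_nonneg fun i _ => mul_nonneg (h.Hnn l i) (hPnn i)
  have h2 : ∑ i, (1 - δ) * H l i * P i = (1 - δ) * ∑ i, H l i * P i := by
    rw [Finset.mul_sum]
    exact Finset.sum_congr rfl fun i _ => by ring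
  refine ⟨by have := h.dnn l; linarith, ?_⟩
  rw [h2]
  nlinarith

theorem st_dr (a : I → I → ℕ) (hs : ∀ i j, a i j = a j i) (hd : ∀ i, a i i ≠ 1)
    {cn : Finset I → (I → ℚ) → ℕ → ℚ} (hcn : CN a cn)
    {k : ℕ} (hk : 2 ≤ k) {γ P p : I → ℚ} {H : I → I → ℚ} {W : Finset I} {q : I → ℚ}
    {w : Finset I → ℕ → ℚ} (h : Fresh a cn (k + 1) γ P p H W q w) {S : Finset I} (hS : S ⊆ W)
    {n : I → ℤ} (hn : n ∈ boxS (W \ S) k γ q)
    (hpos : ∀ i, i ∉ W \ S → 0 < stP a P p (mhat a (W \ S) q n) i)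
    {δ : ℚ} (hδ0 : 0 < δ) (hδ1 : δ ≤ 1) (r : I) (hr : r ∉ W) :
    sclq (P r) (mhat a (W \ S) q n r) *
      (∏ l ∈ Finset.univ.erase r, (if l ∈ W \ S then 1 else
        stP a P p (mhat a (W \ S) q n) l / yv W (W \ S) P (mhat a (W \ S) q n) l)) *
      (p r - ∑ i, H r i * P i) ≤
    (blk (W \ S) (stM a W (W \ S) P (fun l i => (1 - δ) * H l i) (mhat a (W \ S) q n))).det *
      (P r - ∑ i, stH a W (W \ S) P (fun l i => (1 - δ) * H l i) (mhat a (W \ S) q n) r i *
        stP a P p (mhat a (W \ S) q n) i) := by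
  have hposS : ∀ s ∈ S, 0 < cv a (mhat a (W \ S) q n) s := E7_mpos a h hS hpos
  obtain ⟨hZ, hy, hAy⟩ := E7_mat a (by omega : 1 ≤ k) h hS hn hposS hδ1
  have hd0 := fun l => E7_dle h hδ0.le l
  have hP0 := E7_P0 a h S n
  generalize hm : mhat a (W \ S) q n = m at *
  generalize hA : blk (W \ S) (stM a W (W \ S) P (fun l i => (1 - δ) * H l i) m) = A at *
  have hrW' : r ∉ W \ S := fun hc => hr (Finset.mem_sdiff.1 hc).1
  set rr : I → ℚ := fun l => if l ∈ W \ S then 1 else stP a P p m l with hrr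
  have hrr0 : ∀ l, 0 < rr l := by
    intro l
    simp only [hrr]
    split_ifs with hl
    · norm_num
    · exact hpos l hl
  have hrle : ∀ l, rr l ≤ (A *ᵥ yv W (W \ S) P m) l := by
    intro l
    rw [hAy l]
    simp only [hrr]
    split_ifs with hl
    · exact le_rfl
    · have := (hd0 l).1
      have := (hd0 l).2
      linarith
  have hAypos : ∀ l, 0 < (A *ᵥ yv W (W \ S) P m) l := fun l => (hrr0 l).trans_le (hrle l)
  have htr : ∀ T : Finset I, T.Nonempty → (∀ l ∈ T, (A *ᵥ yv W (W \ S) P m) l = 0) →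
      ∃ l ∈ T, ∃ j, j ∉ T ∧ A l j ≠ 0 := by
    rintro T ⟨l, hl⟩ hT
    exact absurd (hT l hl) (hAypos l).ne'
  have hdet : 0 < A.det := mm_det_pos A hZ _ hy (fun l => (hAypos l).le) htr
  have hinv : ∀ i j, 0 ≤ A⁻¹ i j := mm_inv_nonneg A hZ _ hy (fun l => (hAypos l).le) htr
  have hminor := mm_minor A hZ _ rr hy (fun l => (hrr0 l).le) hrle hdet.ne' r
  have hsclpos : 0 < sclq (P r) (m r) := by
    unfold sclq
    split_ifs
    · norm_num
    · exact h.Ppos r hr
  -- the product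
  have hprod : ∏ l ∈ Finset.univ.erase r, (if l ∈ W \ S then 1 else
      stP a P p m l / yv W (W \ S) P m l) =
      ∏ l ∈ Finset.univ.erase r, (rr l / yv W (W \ S) P m l) := by
    apply Finset.prod_congr rfl
    intro l _
    simp only [hrr]
    split_ifs with hl
    · have : yv W (W \ S) P m l = 1 := by
        unfold yv
        rw [if_pos hl]
      rw [this, div_one]
    · rfl
  -- y_r = sum
  have hyr : yv W (W \ S) P m r =
      ∑ i ∈ Finset.univ \ (W \ S), A⁻¹ r i * (stP a P p m i + (p i - ∑ j, (1 - δ) * H i j * P j)) := by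
    have hu : IsUnit A.det := isUnit_iff_ne_zero.2 hdet.ne'
    have h1 : A⁻¹ *ᵥ (A *ᵥ yv W (W \ S) P m) = yv W (W \ S) P m := by
      rw [Matrix.mulVec_mulVec, Matrix.nonsing_inv_mul _ hu, Matrix.one_mulVec]
    have h2 := congrFun h1 r
    rw [← h2]
    simp only [Matrix.mulVec, dotProduct]
    rw [← Finset.sum_sdiff (Finset.subset_univ (W \ S))]
    have h3 : ∑ x ∈ W \ S, A⁻¹ r x * ∑ x_1, A x x_1 * yv W (W \ S) P m x_1 = 0 := by
      apply Finset.sum_eq_zero
      intro i hi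
      have : A⁻¹ r i = 0 := by
        rw [← hA]
        apply E7_col _ _ (by rw [hA]; exact hdet.ne') r i hi
        rintro rfl
        exact hrW' hi
      rw [this, zero_mul]
    rw [h3, add_zero]
    apply Finset.sum_congr rfl
    intro i hi
    have hi' : i ∉ W \ S := (Finset.mem_sdiff.1 hi).2
    have h4 := hAy i
    rw [if_neg hi'] at h4
    rw [← h4]
    rfl
  have hsclr : sclq (P r) (m r) * yv W (W \ S) P m r = P r := by
    unfold sclq yv
    rw [if_neg hrW', if_neg hr]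
    split_ifs <;> ring
  -- the sum with `stH`
  have hsum : ∑ i, stH a W (W \ S) P (fun l i => (1 - δ) * H l i) m r i * stP a P p m i =
      sclq (P r) (m r) * ∑ i ∈ Finset.univ \ (W \ S), A⁻¹ r i * stP a P p m i := by
    rw [← Finset.sum_sdiff (Finset.subset_univ (W \ S))]
    have h3 : ∑ x ∈ W \ S, stH a W (W \ S) P (fun l i => (1 - δ) * H l i) m r x *
        stP a P p m x = 0 := by
      apply Finset.sum_eq_zero
      intro i hi
      rw [hP0 i hi, mul_zero]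
    rw [h3, add_zero, Finset.mul_sum]
    apply Finset.sum_congr rfl
    intro i hi
    have hi' : i ∉ W \ S := (Finset.mem_sdiff.1 hi).2
    unfold stH
    rw [if_neg (not_or.2 ⟨hr, hi'⟩), hA]
    ring
  have hdiff : P r - ∑ i, stH a W (W \ S) P (fun l i => (1 - δ) * H l i) m r i * stP a P p m i =
      sclq (P r) (m r) * ∑ i ∈ Finset.univ \ (W \ S),
        A⁻¹ r i * (p i - ∑ j, (1 - δ) * H i j * P j) := by
    rw [hsum]
    nth_rewrite 1 [← hsclr]
    rw [hyr, ← mul_sub, ← Finset.sum_sub_distrib]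
    congr 1
    apply Finset.sum_congr rfl
    intro i _
    ring
  have hge : A⁻¹ r r * (p r - ∑ i, H r i * P i) ≤ ∑ i ∈ Finset.univ \ (W \ S),
        A⁻¹ r i * (p i - ∑ j, (1 - δ) * H i j * P j) := by
    calc A⁻¹ r r * (p r - ∑ i, H r i * P i)
        ≤ A⁻¹ r r * (p r - ∑ j, (1 - δ) * H r j * P j) :=
          mul_le_mul_of_nonneg_left (hd0 r).2 (hinv r r)
      _ ≤ _ := by
          refine Finset.single_le_sum (f := fun i => A⁻¹ r i *
            (p i - ∑ j, (1 - δ) * H i j * P j)) ?_ (by simp [hrW'])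
          intro i _
          exact mul_nonneg (hinv r i) ((hd0 i).1.trans (hd0 i).2)
  rw [hprod, hdiff]
  calc sclq (P r) (m r) * (∏ l ∈ Finset.univ.erase r, (rr l / yv W (W \ S) P m l)) *
        (p r - ∑ i, H r i * P i)
      ≤ sclq (P r) (m r) * (A.det * A⁻¹ r r) * (p r - ∑ i, H r i * P i) := by
        refine mul_le_mul_of_nonneg_right ?_ (hd0 r).1
        exact mul_le_mul_of_nonneg_left hminor hsclpos.le
    _ = A.det * (sclq (P r) (m r) * (A⁻¹ r r * (p r - ∑ i, H r i * P i))) := by ring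
    _ ≤ A.det * (sclq (P r) (m r) * ∑ i ∈ Finset.univ \ (W \ S),
        A⁻¹ r i * (p i - ∑ j, (1 - δ) * H i j * P j)) := by
        refine mul_le_mul_of_nonneg_left ?_ hdet.le
        exact mul_le_mul_of_nonneg_left hge hsclpos.le

theorem E7_wtq_nonneg {P : ℚ} (hP : 0 ≤ P) (m : ℕ) : 0 ≤ wtq P m := by
  unfold wtq
  apply div_nonneg
  · exact Finset.prod_nonneg fun i _ => by positivity
  · positivity

theorem E7_stw_nonneg {W : Finset I} {P : I → ℚ} (hP : ∀ i, i ∉ W → 0 < P i) (n : I → ℤ) :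
    0 ≤ stw W P n := by
  unfold stw
  refine Finset.prod_nonneg fun j hj => E7_wtq_nonneg (hP j ?_).le _
  exact (Finset.mem_sdiff.1 hj).2

/-- one step of the lower bound: if the values of the fresh states at the frontier `(k | k-1)` with the new data are
bounded below by `c d_r` then so is the value at `(k+1 | k)`. -/
theorem step_lb (a : I → I → ℕ) (hs : ∀ i j, a i j = a j i) (hd : ∀ i, a i i ≠ 1)
    {cn : Finset I → (I → ℚ) → ℕ → ℚ} (hcn : CN a cn)
    {G : ℕ → (I → ℚ) → (I → ℚ) → (I → ℚ) → (I → I → ℚ) → (I → I → ℚ) → Finset I → (I → ℚ) →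
      (Finset I → ℕ → ℚ) → ℚ} (hG : ClusterVal a cn G)
    {k : ℕ} (hk : 2 ≤ k) {γ P p : I → ℚ} {H : I → I → ℚ} {W : Finset I} {q : I → ℚ}
    {w : Finset I → ℕ → ℚ} (h : Fresh a cn (k + 1) γ P p H W q w) {S : Finset I} (hS : S ⊆ W)
    {n : I → ℤ} (hn : n ∈ boxS (W \ S) k γ q)
    (hpos : ∀ i, i ∉ W \ S → 0 < stP a P p (mhat a (W \ S) q n) i)
    (htw : tw a W w k (mhat a (W \ S) q n) = 1) (r : I) (hr : r ∉ W) (c : ℚ) (hc : 0 ≤ c)
    (ih : ∀ H' : I → I → ℚ,
      Fresh a cn k (stG k γ (mhat a (W \ S) q n)) (stP a P p (mhat a (W \ S) q n)) P H' (W \ S)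
        (stQ (W \ S) q (mhat a (W \ S) q n))
        (neww cn w k (stQ (W \ S) q (mhat a (W \ S) q n)) (mhat a (W \ S) q n)) →
      c * (P r - ∑ i, H' r i * stP a P p (mhat a (W \ S) q n) i) ≤
      G k (stG k γ (mhat a (W \ S) q n)) (stP a P p (mhat a (W \ S) q n)) P idm H' (W \ S)
        (stQ (W \ S) q (mhat a (W \ S) q n))
        (neww cn w k (stQ (W \ S) q (mhat a (W \ S) q n)) (mhat a (W \ S) q n))) :
    stw W P n * c * (sclq (P r) (mhat a (W \ S) q n r) *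
      (∏ l ∈ Finset.univ.erase r, (if l ∈ W \ S then 1 else
        stP a P p (mhat a (W \ S) q n) l / yv W (W \ S) P (mhat a (W \ S) q n) l))) *
      (p r - ∑ i, H r i * P i) ≤ G (k + 1) γ P p idm H W q w := by
  have hposS : ∀ s ∈ S, 0 < cv a (mhat a (W \ S) q n) s := E7_mpos a h hS hpos
  obtain ⟨f, hf⟩ := hG.poly (k + 1) γ P p H W q w
  have h0 : G (k + 1) γ P p idm H W q w = f.eval 0 := by
    rw [← hf 0]
    congr 1
    funext l i
    ring
  rw [h0]
  apply lim_le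
  intro δ hδ0 hδ1
  rw [← hf δ]
  have htw0 : tw a W w k (mhat a (W \ S) q n) ≠ 0 := by
    rw [htw]
    exact one_ne_zero
  obtain ⟨hdet, hfr⟩ := st_fresh a hs hd hcn hk h hS hn hpos htw0 hδ0 hδ1.le
  refine le_trans ?_ (term_le a hs hd hcn hG (by omega) h hS hn hposS hδ0 hδ1.le)
  unfold term
  rw [htw, mul_one, hG.norm k _ _ P _ _ (stH a W (W \ S) P (fun l i => (1 - δ) * H l i)
    (mhat a (W \ S) q n)) (W \ S) _ _ (fun l i hl hi => st_norm a Finset.sdiff_subset P _ _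
      hdet.ne' l i hl hi)]
  have h1 := ih _ hfr
  have h2 := st_dr a hs hd hcn hk h hS hn hpos hδ0 hδ1.le r hr
  have h3 := E7_stw_nonneg h.Ppos n
  rw [mul_assoc, mul_assoc, mul_assoc]
  refine mul_le_mul_of_nonneg_left ?_ h3
  refine le_trans ?_ (mul_le_mul_of_nonneg_left h1 hdet.le)
  have h4 := mul_le_mul_of_nonneg_left h2 hc
  refine le_trans (le_of_eq ?_) (h4.trans (le_of_eq ?_))
  · ring
  · ring

/-- the set of the vertices at distance at most `k` from `r`. -/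
noncomputable def E7_reach (a : I → I → ℕ) (r : I) : ℕ → Finset I
  | 0 => {r}
  | k + 1 => Finset.univ.filter (fun j => j ∈ E7_reach a r k ∨ ∃ i ∈ E7_reach a r k, 0 < a j i)

theorem E7_tree (a : I → I → ℕ) (hs : ∀ i j, a i j = a j i) (hc : Conn a) (r : I) :
    ∃ (dep : I → ℕ) (par : I → I), (∀ i, i ≠ r → dep (par i) < dep i) ∧
      ∀ i, i ≠ r → 0 < a i (par i) := by
  classical
  have hall : ∀ i, ∃ k, i ∈ E7_reach a r k := by
    by_contra hcon
    push Not at hcon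
    obtain ⟨i0, hi0⟩ := hcon
    set S : Finset I := Finset.univ.filter (fun i => ∃ k, i ∈ E7_reach a r k) with hS
    have hne : S.Nonempty := ⟨r, by simp only [hS, Finset.mem_filter, Finset.mem_univ, true_and]; exact ⟨0, by simp [E7_reach]⟩⟩
    have hnu : S ≠ Finset.univ := by
      intro hu
      have : i0 ∈ S := by rw [hu]; exact Finset.mem_univ _
      simp only [hS, Finset.mem_filter, Finset.mem_univ, true_and] at this
      obtain ⟨k, hk⟩ := this
      exact hi0 k hk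
    obtain ⟨i, hi, j, hj, hij⟩ := hc S hne hnu
    simp only [hS, Finset.mem_filter, Finset.mem_univ, true_and] at hi hj
    obtain ⟨k, hk⟩ := hi
    apply hj
    refine ⟨k + 1, ?_⟩
    simp only [E7_reach, Finset.mem_filter, Finset.mem_univ, true_and]
    exact Or.inr ⟨i, hk, by rw [hs]; exact hij⟩
  have hstep : ∀ i, i ≠ r → ∃ j, Nat.find (hall j) < Nat.find (hall i) ∧ 0 < a i j := by
    intro i hi
    have h1 := Nat.find_spec (hall i)
    have h2 : Nat.find (hall i) ≠ 0 := by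
      intro h0
      rw [h0] at h1
      simp only [E7_reach, Finset.mem_singleton] at h1
      exact hi h1
    obtain ⟨k, hk⟩ := Nat.exists_eq_succ_of_ne_zero h2
    rw [hk] at h1
    simp only [Nat.succ_eq_add_one, E7_reach, Finset.mem_filter, Finset.mem_univ, true_and] at h1
    rcases h1 with h1 | ⟨j, hj, hij⟩
    · have := Nat.find_min' (hall i) h1
      omega
    · refine ⟨j, ?_, hij⟩
      have := Nat.find_min' (hall j) hj
      omega
  choose! par hpar using hstep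
  exact ⟨fun i => Nat.find (hall i), par, fun i hi => (hpar i hi).1, fun i hi => (hpar i hi).2⟩

/-- the last step: all vertices regular, all multiplicities positive, `γ' = 0`. -/
theorem last_lb (a : I → I → ℕ) (hs : ∀ i j, a i j = a j i) (hd : ∀ i, a i i ≠ 1) (hc : Conn a)
    {cn : Finset I → (I → ℚ) → ℕ → ℚ} (hcn : CN a cn)
    {G : ℕ → (I → ℚ) → (I → ℚ) → (I → ℚ) → (I → I → ℚ) → (I → I → ℚ) → Finset I → (I → ℚ) →
      (Finset I → ℕ → ℚ) → ℚ} (hG : ClusterVal a cn G)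
    {γ P p : I → ℚ} {H : I → I → ℚ} {q : I → ℚ}
    {w : Finset I → ℕ → ℚ} (h : Fresh a cn 2 γ P p H ∅ q w) (n : I → ℕ) (hn : ∀ i, 1 ≤ n i)
    (hγ : ∀ i, γ i = n i) (r : I) :
    (∏ i, wtq (P i) (n i)) * (p r - ∑ i, H r i * P i) ≤ G 2 γ P p idm H ∅ q w := by
  set n' : I → ℤ := fun i => (n i : ℤ) with hn'
  have hq0 : ∀ i, q i = 0 := fun i => h.q0 i (by simp)
  have hmh : ∀ i, mhat a (∅ \ ∅) q n' i = n i := by
    intro i
    rw [mhat_off a _ q n' i (by simp), hq0 i, hn']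
    push_cast
    ring
  have hbox : n' ∈ boxS (∅ \ ∅) 1 γ q := by
    unfold boxS
    rw [Fintype.mem_piFinset]
    intro i
    rw [if_neg (by simp), Finset.mem_Icc, hq0 i, hγ i, hn']
    simp
  have hposS : ∀ s ∈ (∅ : Finset I), 0 < cv a (mhat a (∅ \ ∅) q n') s := by simp
  have htw : tw a ∅ w 1 (mhat a (∅ \ ∅) q n') = 1 := by
    unfold tw
    rw [clusters_empty, Finset.prod_empty]
  obtain ⟨f, hf⟩ := hG.poly 2 γ P p H ∅ q w
  have h0 : G 2 γ P p idm H ∅ q w = f.eval 0 := by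
    rw [← hf 0]
    congr 1
    funext l i
    ring
  rw [h0]
  apply lim_le
  intro δ hδ0 hδ1
  rw [← hf δ]
  refine le_trans ?_ (term_le a hs hd hcn hG le_rfl h (Finset.Subset.refl ∅) hbox hposS hδ0 hδ1.le)
  have hGS := st_GS a hs hcn le_rfl h.toGS (Finset.Subset.refl ∅) hbox hposS
    (by rw [htw]; exact one_ne_zero)
  have hγ0 : ∀ i, stG 1 γ (mhat a (∅ \ ∅) q n') i = 0 := by
    intro i
    unfold stG
    rw [hmh i, hγ i]
    push_cast
    ring
  unfold term
  rw [htw, hG.bot _ _ _ _ _ _ _ _ hGS, if_pos hγ0]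
  have hsd : (∅ \ ∅ : Finset I) = ∅ := by simp
  have hcl : ∏ N ∈ clusters a (∅ \ ∅ : Finset I), neww cn w 1
      (stQ (∅ \ ∅) q (mhat a (∅ \ ∅) q n')) (mhat a (∅ \ ∅) q n') N 0 = 1 := by
    have : clusters a (∅ \ ∅ : Finset I) = ∅ := by rw [hsd]; exact clusters_empty a
    rw [this, Finset.prod_empty]
  rw [hcl, mul_one, mul_one]
  have hstw : stw ∅ P n' = ∏ i, wtq (P i) (n i) := by
    unfold stw
    rw [Finset.sdiff_empty]
    apply Finset.prod_congr rfl
    intro i _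
    simp [hn']
  rw [hstw]
  refine mul_le_mul_of_nonneg_left ?_ (Finset.prod_nonneg fun i _ =>
    E7_wtq_nonneg (h.Ppos i (by simp)).le _)
  -- the determinant
  obtain ⟨hZ, hy, hAy⟩ := E7_mat a le_rfl h (Finset.Subset.refl ∅) hbox hposS hδ1.le
  have hP'0 : ∀ i, stP a P p (mhat a (∅ \ ∅) q n') i = 0 := by
    intro i
    have h1 := hGS.cons i
    have h2 : cv a (stG 1 γ (mhat a (∅ \ ∅) q n')) i = 0 := by
      have : stG 1 γ (mhat a (∅ \ ∅) q n') = fun _ => 0 := funext hγ0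
      rw [this]
      exact cv_zero a i
    rw [h2] at h1
    push_cast at h1
    linarith
  have hyv : yv ∅ (∅ \ ∅) P (mhat a (∅ \ ∅) q n') = fun _ => 1 := by
    funext i
    unfold yv
    have : (n i : ℚ) ≠ 0 := by
      have := hn i
      exact_mod_cast (by omega : n i ≠ 0)
    rw [if_neg (by simp), if_neg (by simp), hmh i, if_neg this]
  have hd0 := fun l => E7_dle h hδ0.le l
  have hrow : ∀ l, ∑ j, blk (∅ \ ∅) (stM a ∅ (∅ \ ∅) P (fun l i => (1 - δ) * H l i)
      (mhat a (∅ \ ∅) q n')) l j = p l - ∑ i, (1 - δ) * H l i * P i := by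
    intro l
    have h1 := hAy l
    rw [hyv, if_neg (by simp), hP'0 l, zero_add] at h1
    rw [← h1]
    simp [Matrix.mulVec, dotProduct]
  obtain ⟨dep, par, hpar, hadj⟩ := E7_tree a hs hc r
  refine ((hd0 r).2.trans (le_of_eq (hrow r).symm)).trans ?_
  refine mm_tree _ hZ r dep par hpar ?_ ?_
  · intro i hi
    have hne : i ≠ par i := by
      intro hc
      have := hpar i hi
      rw [← hc] at this
      exact lt_irrefl _ this
    have hpi : 0 < P (par i) := h.Ppos _ (by simp)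
    have hm1 : (1 : ℚ) ≤ n (par i) := by exact_mod_cast hn (par i)
    have ha1 : (1 : ℚ) ≤ (a i (par i) : ℚ) := by exact_mod_cast hadj i hi
    have hval : blk (∅ \ ∅) (stM a ∅ (∅ \ ∅) P (fun l i => (1 - δ) * H l i)
        (mhat a (∅ \ ∅) q n')) i (par i) =
        P (par i) * (0 - (1 - δ) * H i (par i)) - n (par i) * (a i (par i) : ℚ) := by
      have hE : effC a (∅ \ ∅) i (par i) = -(a i (par i) : ℚ) := by
        rw [hsd, effC_empty, cart_ne a hne]
        push_cast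
        ring
      have hmne : mhat a (∅ \ ∅) q n' (par i) ≠ 0 := by
        rw [hmh]
        linarith
      simp only [blk, Matrix.of_apply, stM, sclq]
      rw [if_neg (by simp), if_neg (by simp), if_neg hmne, if_neg hne, hmh, hE]
      ring
    rw [hval]
    have h5 : 0 ≤ P (par i) * ((1 - δ) * H i (par i)) :=
      mul_nonneg hpi.le (mul_nonneg (by linarith) (h.Hnn _ _))
    have h6 : (1 : ℚ) ≤ n (par i) * (a i (par i) : ℚ) := one_le_mul_of_one_le_of_one_le hm1 ha1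
    linarith
  · intro l
    rw [hrow l]
    exact (hd0 l).1.trans (hd0 l).2

end Pool.Agent.H40.KADE
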