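import Pool.Agent.H40.KADE.E7
import Pool.Agent.H40.KADE.E6
import Pool.Agent.H27.KAC.KL5

/-!
KAC ADE engine, module E7b: the path of states of a multipartition.

`m : Fin K0 → I → ℕ`, `PLF a m k` vacancy numbers (`PLF_rec`, `PLF_zero`, `PLF_top`), `gam m k` (`KL5_gam_succ`, `gam_top`).
The state at the frontier `(k+1 | k)` has `P = PLF k`, `p = PLF (k+1)`, `γ = gam m k`; the step at level `k` uses `n = mAt m k`.
* `low`: induction on `k`; `k = 1`: `last_lb` (`γ' = 0`, `P' = PLF 0 = 0`); `k ≥ 2`: `step_lb` with `W = S = ∅` (`mhat a ∅ q n = n` because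
  `q = 0`: `GS.q0`), the factor is `≥ ∏_i wt (P_i) (m_i)` by `wt_eq`, `P_r ≥ 1`, `P'_l ≥ 1` (note `scl_r = P_r / y_r`).
* `mid`: `k = K0`: `W = S = Z = Zt a α`, `n = mAt m K0`; `P' = PLF (K0-1) ≥ 1` everywhere; for `z ∈ Z`: `y_z = m_z ≥ 1` (`(C m)_z = PLF (K0-1) z > 0`);
  the factor is `≥ ∏_{i ∉ Z} wt (s_i) (m_i) ∏_{z ∈ Z} 1/m_z`.
* `up`: `k > K0`: `S = ∅`, `n = 0`: `P' = s`, `γ' = α`, `y = s` off `Z`: factor `1`.
-/

set_option autoImplicit false

namespace Pool.Agent.H40.KADE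

open scoped BigOperators
open Pool.Agent.H27.KAC

variable {I : Type} [Fintype I] [DecidableEq I]

theorem E7b_wtq_nonneg (P : ℚ) (hP : 0 ≤ P) (m : ℕ) : 0 ≤ wtq P m := by
  unfold wtq
  refine div_nonneg (Finset.prod_nonneg fun i _ => by positivity) (by positivity)

theorem E7b_wt_nonneg (P m : ℕ) : 0 ≤ wt P m := by
  unfold wt
  positivity

theorem E7b_toNat (z : ℤ) (hz : 1 ≤ z) : (((z.toNat : ℕ) : ℤ) : ℚ) = (z : ℚ) := by
  have h : ((z.toNat : ℕ) : ℤ) = z := Int.toNat_of_nonneg (by omega)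
  rw [h]

theorem E7b_wt (P : ℤ) (hP : 1 ≤ P) (m : ℕ) :
    wt P.toNat m = wtq (P : ℚ) m * (1 / (if (m : ℚ) = 0 then (P : ℚ) else 1)) := by
  have h := wt_eq P.toNat m (by omega)
  have h1 : ((P.toNat : ℕ) : ℚ) = (P : ℚ) := by exact_mod_cast E7b_toNat P hP
  rw [h, h1]
  by_cases hm : m = 0
  · simp [hm, div_eq_mul_inv]
  · have : (m : ℚ) ≠ 0 := by exact_mod_cast hm
    simp [hm]

theorem E7b_factor (W : Finset I) (P : I → ℤ) (P' : I → ℚ) (n : I → ℕ) (r : I) (hr : r ∉ W)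
    (hP : ∀ i, i ∉ W → 1 ≤ P i) (hP' : ∀ i, 1 ≤ P' i) :
    (∏ i ∈ Finset.univ \ W, wt (P i).toNat (n i)) * ∏ i ∈ W, (1 / (n i : ℚ)) ≤
      stw W (fun i => (P i : ℚ)) (fun i => (n i : ℤ)) *
        (sclq (P r : ℚ) (n r : ℚ) * ∏ l ∈ Finset.univ.erase r,
          (if l ∈ W \ W then 1 else
            P' l / yv W (W \ W) (fun i => (P i : ℚ)) (fun i => (n i : ℚ)) l)) := by
  set y : I → ℚ := fun l => if l ∈ W then (n l : ℚ) else if (n l : ℚ) = 0 then (P l : ℚ) else 1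
    with hy
  have hy0 : ∀ l, 0 ≤ y l := by
    intro l
    simp only [hy]
    split_ifs with h1 h2
    · positivity
    · have := hP l h1
      have h3 : (1 : ℚ) ≤ (P l : ℚ) := by exact_mod_cast this
      linarith
    · norm_num
  have hyv : ∀ l, yv W (W \ W) (fun i => (P i : ℚ)) (fun i => (n i : ℚ)) l = y l := by
    intro l
    unfold yv
    rw [if_neg (by simp)]
  have hfac : ∀ l, (if l ∈ W \ W then (1 : ℚ) else
            P' l / yv W (W \ W) (fun i => (P i : ℚ)) (fun i => (n i : ℚ)) l) = P' l / y l := by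
    intro l
    rw [if_neg (by simp), hyv]
  have h1 : ∏ i ∈ Finset.univ \ W, wt (P i).toNat (n i) =
      stw W (fun i => (P i : ℚ)) (fun i => (n i : ℤ)) * ∏ i ∈ Finset.univ \ W, (1 / y i) := by
    unfold stw
    rw [← Finset.prod_mul_distrib]
    refine Finset.prod_congr rfl fun i hi => ?_
    have hi' : i ∉ W := (Finset.mem_sdiff.1 hi).2
    rw [E7b_wt (P i) (hP i hi') (n i), Int.toNat_natCast]
    simp only [hy]
    rw [if_neg hi']
  have h2 : ∏ i ∈ W, (1 / (n i : ℚ)) = ∏ i ∈ W, (1 / y i) := by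
    refine Finset.prod_congr rfl fun i hi => ?_
    simp only [hy]
    rw [if_pos hi]
  have h3 : (∏ i ∈ Finset.univ \ W, (1 / y i)) * ∏ i ∈ W, (1 / y i) = ∏ i, (1 / y i) :=
    Finset.prod_sdiff (Finset.subset_univ W)
  have h4 : ∏ i, (1 / y i) = (1 / y r) * ∏ l ∈ Finset.univ.erase r, (1 / y l) :=
    (Finset.mul_prod_erase Finset.univ (fun i => 1 / y i) (Finset.mem_univ r)).symm
  have h0 : 0 ≤ stw W (fun i => (P i : ℚ)) (fun i => (n i : ℤ)) := by
    unfold stw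
    refine Finset.prod_nonneg fun i hi => E7b_wtq_nonneg _ ?_ _
    have hi' : i ∉ W := (Finset.mem_sdiff.1 hi).2
    have h5 : (1 : ℚ) ≤ (P i : ℚ) := by exact_mod_cast hP i hi'
    linarith
  rw [h1, h2, mul_assoc, h3, h4]
  refine mul_le_mul_of_nonneg_left ?_ h0
  have hPr : (1 : ℚ) ≤ (P r : ℚ) := by exact_mod_cast hP r hr
  have hyr : y r = if (n r : ℚ) = 0 then (P r : ℚ) else 1 := by
    simp only [hy]
    rw [if_neg hr]
  have h6 : 1 / y r ≤ sclq (P r : ℚ) (n r : ℚ) := by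
    unfold sclq
    rw [hyr]
    split_ifs
    · rw [div_le_one (by linarith)]
      exact hPr
    · simpa using hPr
  have h7 : 0 ≤ sclq (P r : ℚ) (n r : ℚ) :=
    le_trans (div_nonneg zero_le_one (hy0 r)) h6
  refine mul_le_mul h6 ?_ (Finset.prod_nonneg fun l _ => div_nonneg zero_le_one (hy0 l)) h7
  refine Finset.prod_le_prod (fun l _ => div_nonneg zero_le_one (hy0 l)) fun l _ => ?_
  rw [hfac]
  exact div_le_div_of_nonneg_right (hP' l) (hy0 l)

/-- one step where all the walls are left. -/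
theorem E7b_step (a : I → I → ℕ) (hs : ∀ i j, a i j = a j i) (hd : ∀ i, a i i ≠ 1)
    {cn : Finset I → (I → ℚ) → ℕ → ℚ} (hcn : CN a cn)
    {G : ℕ → (I → ℚ) → (I → ℚ) → (I → ℚ) → (I → I → ℚ) → (I → I → ℚ) → Finset I → (I → ℚ) →
      (Finset I → ℕ → ℚ) → ℚ} (hG : ClusterVal a cn G)
    {k : ℕ} (hk : 2 ≤ k) {γ p : I → ℚ} {H : I → I → ℚ} {W : Finset I} {q : I → ℚ}
    {w : Finset I → ℕ → ℚ} (P : I → ℤ)
    (h : Fresh a cn (k + 1) γ (fun i => (P i : ℚ)) p H W q w) (hq : ∀ i, q i = 0) (n : I → ℕ)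
    (htw : tw a W w k (fun i => (n i : ℚ)) = 1) (r : I) (hr : r ∉ W)
    (hP : ∀ i, i ∉ W → 1 ≤ P i) (P' γ' : I → ℚ)
    (hP' : ∀ i, stP a (fun i => (P i : ℚ)) p (fun i => (n i : ℚ)) i = P' i)
    (hP'1 : ∀ i, 1 ≤ P' i) (hγ' : ∀ i, γ i = γ' i + (k : ℚ) * n i) (hγ0 : ∀ i, 0 ≤ γ' i)
    (c : ℚ) (hc : 0 ≤ c)
    (ih : ∀ (H' : I → I → ℚ) (q' : I → ℚ) (w' : Finset I → ℕ → ℚ),
      Fresh a cn k γ' P' (fun i => (P i : ℚ)) H' ∅ q' w' →
      c * ((P r : ℚ) - ∑ i, H' r i * P' i) ≤ G k γ' P' (fun i => (P i : ℚ)) idm H' ∅ q' w') :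
    (c * ((∏ i ∈ Finset.univ \ W, wt (P i).toNat (n i)) * ∏ i ∈ W, (1 / (n i : ℚ)))) *
      (p r - ∑ i, H r i * (P i : ℚ)) ≤ G (k + 1) γ (fun i => (P i : ℚ)) p idm H W q w := by
  have hm : mhat a (W \ W) q (fun i => (n i : ℤ)) = fun i => (n i : ℚ) := by
    funext i
    rw [mhat_off a (W \ W) q _ i (by simp), hq i]
    simp
  have hk0 : (0 : ℚ) < (k : ℚ) := by exact_mod_cast (by omega : 0 < k)
  have hbox : (fun i => (n i : ℤ)) ∈ boxS (W \ W) k γ q := by
    unfold boxS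
    rw [Fintype.mem_piFinset]
    intro i
    rw [if_neg (by simp), Finset.mem_Icc, hq i]
    constructor
    · simp
    · rw [Int.le_floor, add_zero, le_div_iff₀ hk0, hγ' i]
      have := hγ0 i
      push_cast
      linarith [mul_comm (n i : ℚ) (k : ℚ)]
  have hstP : stP a (fun i => (P i : ℚ)) p (fun i => (n i : ℚ)) = P' := funext hP'
  have hstG : stG k γ (fun i => (n i : ℚ)) = γ' := by
    funext i
    unfold stG
    rw [hγ' i]
    ring
  have hWW : W \ W = ∅ := by simp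
  have key := step_lb a hs hd hcn hG hk h (S := W) (le_refl W) (n := fun i => (n i : ℤ)) hbox
    (by
      intro i _
      rw [hm, hP' i]
      linarith [hP'1 i])
    (by rw [hm]; exact htw) r hr c hc
    (by
      intro H' hF
      rw [hm, hstP, hstG] at hF ⊢
      rw [hWW] at hF ⊢
      exact ih H' _ _ hF)
  rw [hm, hstP] at key
  refine le_trans ?_ key
  have hd0 : 0 ≤ p r - ∑ i, H r i * (P i : ℚ) := by
    have := h.dnn r
    linarith
  refine mul_le_mul_of_nonneg_right ?_ hd0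
  have hf := E7b_factor W P P' n r hr hP hP'1
  calc c * ((∏ i ∈ Finset.univ \ W, wt (P i).toNat (n i)) * ∏ i ∈ W, (1 / (n i : ℚ)))
      ≤ c * (stw W (fun i => (P i : ℚ)) (fun i => (n i : ℤ)) *
        (sclq (P r : ℚ) (n r : ℚ) * ∏ l ∈ Finset.univ.erase r,
          (if l ∈ W \ W then 1 else
            P' l / yv W (W \ W) (fun i => (P i : ℚ)) (fun i => (n i : ℚ)) l))) :=
        mul_le_mul_of_nonneg_left hf hc
    _ = _ := by ring

theorem E7b_tw_one (a : I → I → ℕ) (W : Finset I) (k : ℕ) (v : I → ℚ) :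
    tw a W (fun _ _ => 1) k v = 1 := by
  unfold tw
  refine Finset.prod_eq_one fun N _ => ?_
  split_ifs <;> rfl

theorem E7b_tw_empty (a : I → I → ℕ) (w : Finset I → ℕ → ℚ) (k : ℕ) (v : I → ℚ) :
    tw a ∅ w k v = 1 := by
  unfold tw
  rw [clusters_empty]
  simp

theorem E7b_stP (a : I → I → ℕ) {K0 : ℕ} (m : Fin K0 → I → ℕ) (k : ℕ) (i : I) :
    stP a (fun i => ((PLF a m (k + 1) i : ℤ) : ℚ)) (fun i => ((PLF a m (k + 2) i : ℤ) : ℚ))
      (fun i => (mAt m (k + 1) i : ℚ)) i = ((PLF a m k i : ℤ) : ℚ) := by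
  unfold stP cv
  rw [PLF_rec a m k i]
  push_cast
  ring

theorem E7b_gam (K0 : ℕ) (m : Fin K0 → I → ℕ) (k : ℕ) (i : I) :
    ((gam m (k + 1) i : ℕ) : ℚ) = ((gam m k i : ℕ) : ℚ) +
      ((k + 1 : ℕ) : ℚ) * (mAt m (k + 1) i : ℚ) := by
  rw [KL5_gam_succ]
  push_cast
  ring

theorem low (a : I → I → ℕ) (hs : ∀ i j, a i j = a j i) (hd : ∀ i, a i i ≠ 1) (hc : Conn a)
    {cn : Finset I → (I → ℚ) → ℕ → ℚ} (hcn : CN a cn)
    {G : ℕ → (I → ℚ) → (I → ℚ) → (I → ℚ) → (I → I → ℚ) → (I → I → ℚ) → Finset I → (I → ℚ) →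
      (Finset I → ℕ → ℚ) → ℚ} (hG : ClusterVal a cn G) {K0 : ℕ} (m : Fin K0 → I → ℕ)
    (hm1 : ∀ i, 1 ≤ mAt m 1 i) (r : I) (k : ℕ) (hk1 : 1 ≤ k) (hk : k < K0)
    (hP : ∀ l, 1 ≤ l → l < K0 → ∀ i, 1 ≤ PLF a m l i) :
    ∀ (H : I → I → ℚ) (q : I → ℚ) (w : Finset I → ℕ → ℚ),
      Fresh a cn (k + 1) (fun i => ((gam m k i : ℕ) : ℚ)) (fun i => ((PLF a m k i : ℤ) : ℚ))
        (fun i => ((PLF a m (k + 1) i : ℤ) : ℚ)) H ∅ q w →
      (∏ l ∈ Finset.Icc 1 k, ∏ i, wt (PLF a m l i).toNat (mAt m l i)) *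
        (((PLF a m (k + 1) r : ℤ) : ℚ) - ∑ i, H r i * ((PLF a m k i : ℤ) : ℚ)) ≤
      G (k + 1) (fun i => ((gam m k i : ℕ) : ℚ)) (fun i => ((PLF a m k i : ℤ) : ℚ))
        (fun i => ((PLF a m (k + 1) i : ℤ) : ℚ)) idm H ∅ q w := by
  induction k with
  | zero => omega
  | succ k ih =>
    intro H q w h
    have hd0 : 0 ≤ (((PLF a m (k + 1 + 1) r : ℤ) : ℚ) -
        ∑ i, H r i * ((PLF a m (k + 1) i : ℤ) : ℚ)) := by
      have := h.dnn r
      linarith
    by_cases hk0 : k = 0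
    · subst hk0
      have hl := last_lb a hs hd hc hcn hG h (mAt m 1) hm1
        (fun i => by
          rw [E7b_gam K0 m 0 i]
          have h0 : gam m 0 i = 0 := by
            rw [KL5_gam]
            simp
          rw [h0]
          simp) r
      refine le_trans (le_of_eq ?_) hl
      rw [Finset.Icc_self, Finset.prod_singleton]
      congr 1
      refine Finset.prod_congr rfl fun i _ => ?_
      have h1 : (mAt m 1 i : ℚ) ≠ 0 := by
        have := hm1 i
        exact_mod_cast (by omega : mAt m 1 i ≠ 0)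
      have h2 := E7b_wt (PLF a m 1 i) (hP 1 le_rfl hk i) (mAt m 1 i)
      rw [if_neg h1] at h2
      simpa using h2
    · have hk1' : 1 ≤ k := by omega
      have ih' := ih hk1' (by omega)
      have hq : ∀ i, q i = 0 := fun i => h.q0 i (by simp)
      have key := E7b_step a hs hd hcn hG (k := k + 1) (by omega) (fun i => PLF a m (k + 1) i) h hq
        (fun i => mAt m (k + 1) i) (E7b_tw_empty a w (k + 1) _) r (by simp)
        (fun i _ => hP (k + 1) (by omega) hk i) (fun i => ((PLF a m k i : ℤ) : ℚ))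
        (fun i => ((gam m k i : ℕ) : ℚ)) (fun i => E7b_stP a m k i)
        (fun i => by exact_mod_cast hP k hk1' (by omega) i)
        (fun i => E7b_gam K0 m k i) (fun i => by positivity)
        (∏ l ∈ Finset.Icc 1 k, ∏ i, wt (PLF a m l i).toNat (mAt m l i))
        (Finset.prod_nonneg fun l _ => Finset.prod_nonneg fun i _ => E7b_wt_nonneg _ _)
        (fun H' q' w' hF => ih' H' q' w' hF)
      rw [Finset.prod_Icc_succ_top (by omega)]
      refine le_trans (le_of_eq ?_) key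
      simp

/-- the weight of a multipartition in the lower bound. -/
noncomputable def lbZ (a : I → I → ℕ) (α : I →₀ ℕ) {K0 : ℕ} (m : Fin K0 → I → ℕ) : ℚ :=
  (∏ l ∈ Finset.Icc 1 (K0 - 1), ∏ i, wt (PLF a m l i).toNat (mAt m l i)) *
    ((∏ i ∈ Finset.univ \ Zt a α, wt (-cw a α i).toNat (mAt m K0 i)) *
      ∏ i ∈ Zt a α, (1 / (mAt m K0 i : ℚ)))

theorem up (a : I → I → ℕ) (hs : ∀ i j, a i j = a j i) (hd : ∀ i, a i i ≠ 1) (hc : Conn a)
    {cn : Finset I → (I → ℚ) → ℕ → ℚ} (hcn : CN a cn)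
    {G : ℕ → (I → ℚ) → (I → ℚ) → (I → ℚ) → (I → I → ℚ) → (I → I → ℚ) → Finset I → (I → ℚ) →
      (Finset I → ℕ → ℚ) → ℚ} (hG : ClusterVal a cn G) (α : I →₀ ℕ) (hα : Amp a α)
    {K0 : ℕ} (hK0 : 2 ≤ K0) (m : Fin K0 → I → ℕ) (hm : m ∈ Mset K0 α)
    (hm1 : ∀ i, 1 ≤ mAt m 1 i) (hP : ∀ l, 1 ≤ l → l < K0 → ∀ i, 1 ≤ PLF a m l i)
    (r : I) (hr : r ∉ Zt a α) (k : ℕ) (hk : K0 ≤ k) :
    ∀ (H : I → I → ℚ),
      Fresh a cn (k + 1) (fun i => ((α i : ℕ) : ℚ)) (fun i => -((cw a α i : ℤ) : ℚ))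
        (fun i => -((cw a α i : ℤ) : ℚ)) H (Zt a α) (fun _ => 0) (fun _ _ => 1) →
      lbZ a α m * (-((cw a α r : ℤ) : ℚ) - ∑ i, H r i * (-((cw a α i : ℤ) : ℚ))) ≤
      G (k + 1) (fun i => ((α i : ℕ) : ℚ)) (fun i => -((cw a α i : ℤ) : ℚ))
        (fun i => -((cw a α i : ℤ) : ℚ)) idm H (Zt a α) (fun _ => 0) (fun _ _ => 1) := by
  have hamp : ∀ i, i ∉ Zt a α → 1 ≤ -cw a α i := by
    intro i hi
    have hi' : ¬ (a i i = 0 ∧ cw a α i = 0) := by
      intro hc'
      apply hi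
      unfold Zt
      rw [Finset.mem_filter]
      exact ⟨Finset.mem_univ i, hc'⟩
    by_cases h0 : a i i = 0
    · have h1 := hα.pos i h0
      have h2 : cw a α i ≠ 0 := fun h2 => hi' ⟨h0, h2⟩
      omega
    · have h1 := hα.posl i h0
      omega
  have hlb : 0 ≤ lbZ a α m := by
    unfold lbZ
    refine mul_nonneg (Finset.prod_nonneg fun l _ => Finset.prod_nonneg fun i _ =>
      E7b_wt_nonneg _ _) (mul_nonneg (Finset.prod_nonneg fun i _ => E7b_wt_nonneg _ _)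
      (Finset.prod_nonneg fun i _ => by positivity))
  have hneg : ∀ i, (-((cw a α i : ℤ) : ℚ)) = (((-cw a α i : ℤ)) : ℚ) := fun i => by push_cast; rfl
  induction k, hk using Nat.le_induction with
  | base =>
    intro H h
    obtain ⟨K, rfl⟩ : ∃ K, K0 = K + 1 := ⟨K0 - 1, by omega⟩
    have htop : ∀ k, K + 1 ≤ k → (fun i => ((PLF a m k i : ℤ) : ℚ)) =
        fun i => -((cw a α i : ℤ) : ℚ) := by
      intro k hk
      funext i
      rw [PLF_top a α m hm k hk i]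
      push_cast
      rfl
    have hgam : (fun i => ((gam m (K + 1) i : ℕ) : ℚ)) = fun i => ((α i : ℕ) : ℚ) := by
      rw [gam_top α m hm (K + 1) le_rfl]
    have h' : Fresh a cn (K + 1 + 1) (fun i => ((gam m (K + 1) i : ℕ) : ℚ))
        (fun i => ((PLF a m (K + 1) i : ℤ) : ℚ)) (fun i => ((PLF a m (K + 2) i : ℤ) : ℚ)) H
        (Zt a α) (fun _ => 0) (fun _ _ => 1) := by
      rw [htop (K + 1) le_rfl, htop (K + 2) (by omega), hgam]
      exact h
    have key := E7b_step a hs hd hcn hG (k := K + 1) hK0 (fun i => PLF a m (K + 1) i) h'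
      (fun i => rfl) (fun i => mAt m (K + 1) i) (E7b_tw_one a _ _ _) r hr
      (fun i hi => by
        rw [PLF_top a α m hm (K + 1) le_rfl i]
        exact hamp i hi)
      (fun i => ((PLF a m K i : ℤ) : ℚ))
      (fun i => ((gam m K i : ℕ) : ℚ)) (fun i => E7b_stP a m K i)
      (fun i => by exact_mod_cast hP K (by omega) (by omega) i)
      (fun i => E7b_gam (K + 1) m K i) (fun i => by positivity)
      (∏ l ∈ Finset.Icc 1 K, ∏ i, wt (PLF a m l i).toNat (mAt m l i))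
      (Finset.prod_nonneg fun l _ => Finset.prod_nonneg fun i _ => E7b_wt_nonneg _ _)
      (fun H' q' w' hF => low a hs hd hc hcn hG m hm1 r K (by omega) (by omega) hP H' q' w' hF)
    rw [htop (K + 1) le_rfl, htop (K + 2) (by omega), hgam] at key
    refine le_trans (le_of_eq ?_) key
    unfold lbZ
    rw [Nat.add_sub_cancel]
    have e1 : ∏ i ∈ Finset.univ \ Zt a α, wt (-cw a α i).toNat (mAt m (K + 1) i) =
        ∏ i ∈ Finset.univ \ Zt a α, wt (PLF a m (K + 1) i).toNat (mAt m (K + 1) i) := by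
      refine Finset.prod_congr rfl fun i _ => ?_
      rw [PLF_top a α m hm (K + 1) le_rfl i]
    have e2 : ((PLF a m (K + 2) r : ℤ) : ℚ) = -((cw a α r : ℤ) : ℚ) := congrFun (htop (K + 2) (by omega)) r
    have e3 : ∑ i, H r i * ((PLF a m (K + 1) i : ℤ) : ℚ) = ∑ i, H r i * (-((cw a α i : ℤ) : ℚ)) :=
      Finset.sum_congr rfl fun i _ => by rw [congrFun (htop (K + 1) le_rfl) i]
    rw [e1]
    simp only [e2, e3]
  | succ k hk ih =>
    intro H h
    have hFT : FT a (Zt a α) := h.ft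
    set Z := Zt a α with hZ
    have hm0 : mhat a (Z \ ∅) (fun _ => 0) (fun _ : I => (0 : ℤ)) = fun _ => (0 : ℚ) := by
      funext i
      rw [Finset.sdiff_empty]
      unfold mhat
      refine (ext_unique a hFT _ (fun _ => (0 : ℚ)) (fun x _ => by simp)
        (fun x _ => cv_zero a x) i).symm
    have hbox : (fun _ : I => (0 : ℤ)) ∈ boxS (Z \ ∅) (k + 1) (fun i => ((α i : ℕ) : ℚ))
        (fun _ => 0) := by
      unfold boxS
      rw [Fintype.mem_piFinset]
      intro i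
      split_ifs
      · simp
      · rw [Finset.mem_Icc]
        constructor
        · simp
        · rw [Int.le_floor]
          push_cast
          positivity
    have hstP : stP a (fun i => -((cw a α i : ℤ) : ℚ)) (fun i => -((cw a α i : ℤ) : ℚ))
        (fun _ => (0 : ℚ)) = fun i => -((cw a α i : ℤ) : ℚ) := by
      funext i
      unfold stP
      rw [cv_zero]
      ring
    have hstG : stG (k + 1) (fun i => ((α i : ℕ) : ℚ)) (fun _ => (0 : ℚ)) =
        fun i => ((α i : ℕ) : ℚ) := by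
      funext i
      unfold stG
      ring
    have hstQ : stQ (Z \ ∅) (fun _ => (0 : ℚ)) (fun _ => (0 : ℚ)) = fun _ => (0 : ℚ) := by
      funext i
      unfold stQ
      split_ifs <;> simp
    have hneww : neww cn (fun _ _ => (1 : ℚ)) (k + 1) (fun _ => (0 : ℚ)) (fun _ : I => (0 : ℚ)) =
        fun _ _ => 1 := by
      funext N l
      unfold neww
      rw [if_pos (fun x _ => rfl)]
    have hposZ : ∀ i, i ∉ Z → (0 : ℚ) < -((cw a α i : ℤ) : ℚ) := by
      intro i hi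
      have h1 := hamp i hi
      have h2 : (1 : ℚ) ≤ ((-cw a α i : ℤ) : ℚ) := by exact_mod_cast h1
      rw [← hneg i] at h2
      linarith
    have key := step_lb a hs hd hcn hG (k := k + 1) (by omega) h (S := ∅) (by simp)
      (n := fun _ => (0 : ℤ)) hbox
      (by
        intro i hi
        rw [hm0, hstP]
        exact hposZ i (by simpa using hi))
      (E7b_tw_one a _ _ _) r hr (lbZ a α m) hlb
      (by
        intro H' hF
        rw [hm0, hstP, hstG, hstQ, hneww, Finset.sdiff_empty] at hF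
        rw [hm0, hstP, hstG, hstQ, hneww, Finset.sdiff_empty]
        exact ih H' hF)
    rw [hm0, hstP] at key
    refine le_trans (le_of_eq ?_) key
    have e1 : stw Z (fun i => -((cw a α i : ℤ) : ℚ)) (fun _ => (0 : ℤ)) = 1 := by
      unfold stw
      refine Finset.prod_eq_one fun i _ => ?_
      simp [wtq]
    have e2 : sclq (-((cw a α r : ℤ) : ℚ)) 0 = 1 := by
      unfold sclq
      rw [if_pos rfl]
    have e3 : ∏ l ∈ Finset.univ.erase r, (if l ∈ Z \ ∅ then (1 : ℚ) else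
        -((cw a α l : ℤ) : ℚ) / yv Z (Z \ ∅) (fun i => -((cw a α i : ℤ) : ℚ)) (fun _ => 0) l) =
        1 := by
      refine Finset.prod_eq_one fun l _ => ?_
      rw [Finset.sdiff_empty]
      split_ifs with hl
      · rfl
      · unfold yv
        rw [if_neg hl, if_neg hl, if_pos rfl]
        exact div_self (hposZ l hl).ne'
    rw [e1, e2, e3]
    ring

end Pool.Agent.H40.KADE
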