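import Pool.Agent.H40.KADE.E7b
import Pool.Agent.H27.KAC.KL6
import Pool.Agent.H27.KAC.KG4

/-!
KAC ADE engine, module E8: the lower bound for `f`.

* `lower_boundZ` as `lower_bound` in KL6 (`top_poly`, `kl6_limit`, `top_val`, `up`).
* `EW_le_fZ` as `EW_le_f` in KG4, with one more factor `m_z ≤ C n` for `z ∈ Z` (`n • α` is ample; `Zt a (n • α) = Zt a α`).
-/

set_option autoImplicit false

namespace Pool.Agent.H40.KADE

open scoped BigOperators
open Pool.Agent.H27.KAC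

variable {I : Type} [Fintype I] [DecidableEq I]

theorem E8_lbZ_nonneg (a : I → I → ℕ) (α : I →₀ ℕ) {K0 : ℕ} (m : Fin K0 → I → ℕ) :
    0 ≤ lbZ a α m := by
  unfold lbZ
  refine mul_nonneg (kl6_prod_nonneg a m _) (mul_nonneg ?_ ?_)
  · exact Finset.prod_nonneg fun _ _ => kl6_wt_nonneg _ _
  · exact Finset.prod_nonneg fun _ _ => by positivity

theorem lower_boundZ (a : I → I → ℕ) (hs : ∀ i j, a i j = a j i) (hd : ∀ i, a i i ≠ 1)
    (hc : Conn a) {cn : Finset I → (I → ℚ) → ℕ → ℚ} (hcn : CN a cn)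
    {G : ℕ → (I → ℚ) → (I → ℚ) → (I → ℚ) → (I → I → ℚ) → (I → I → ℚ) → Finset I → (I → ℚ) →
      (Finset I → ℕ → ℚ) → ℚ} (hG : ClusterVal a cn G)
    (f : (I → ℕ) → ℚ) (hK : KacData a f) (α : I →₀ ℕ) (hα : Amp a α)
    {K0 : ℕ} (hK0 : 2 ≤ K0) (m : Fin K0 → I → ℕ) (hm : m ∈ Mset K0 α)
    (hm1 : ∀ i, 1 ≤ mAt m 1 i) (hP : ∀ l, 1 ≤ l → l < K0 → ∀ i, 1 ≤ PLF a m l i) :
    lbZ a α m ≤ f α * ∑ i, (α i : ℚ) * (-(cw a α i : ℤ) : ℚ) := by
  obtain ⟨r, hr⟩ := hα.ex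
  have hα0 : α ≠ 0 := by
    intro h
    have h1 := hα.supp r
    rw [h] at h1
    simp at h1
  have hrZ : r ∉ Zt a α := by
    intro h
    have := ((E6_mem a α r).1 h).2
    omega
  obtain ⟨K, hKd⟩ : ∃ K, K = max (tdeg α) K0 := ⟨_, rfl⟩
  have hK1 : tdeg α ≤ K := by rw [hKd]; exact le_max_left _ _
  have hK2 : K0 ≤ K := by rw [hKd]; exact le_max_right _ _
  obtain ⟨q, hq, hq0, hq1⟩ := top_poly a hs f hK α hα0 K hK1
    (fun i => if cw a α i = 0 then 0 else 1)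
  have hsum : ∀ ε : ℚ, ∑ i, topH a α ε r i * (-((cw a α i : ℤ) : ℚ)) =
      (1 - ε) * (-((cw a α r : ℤ) : ℚ)) := by
    intro ε
    rw [Finset.sum_eq_single r]
    · unfold topH
      rw [if_pos ⟨rfl, fun h => hrZ ((E6_mem a α r).2 h)⟩, if_neg (by omega), mul_one]
    · intro i _ hi
      unfold topH
      rw [if_neg (fun h => hi h.1.symm), zero_mul]
    · intro h
      exact absurd (Finset.mem_univ r) h
  have hlow : ∀ ε : ℚ, 0 < ε → ε < 1 →
      (lbZ a α m * (-((cw a α r : ℤ) : ℚ))) * ε ≤ q.eval ε := by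
    intro ε h0 h1
    have h2 := up a hs hd hc hcn hG α hα hK0 m hm hm1 hP r hrZ K hK2 (topH a α ε)
      (top_fresh a hs hc cn α hα K ε h0.le h1.le)
    rw [hsum, ← top_val a hG α (FT_Zt a hs hc α hα) K ε] at h2
    have h3 : Val a α (topS a α K ε) = q.eval ε := by
      rw [← hq ε]
      rfl
    rw [h3] at h2
    linarith
  have h4 := kl6_limit q _ hq0 hlow
  rw [hq1] at h4
  have h5 : ∑ i, (fun i => if cw a α i = 0 then (0 : ℚ) else 1) i * (α i : ℚ) *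
      (-(cw a α i : ℤ) : ℚ) = ∑ i, (α i : ℚ) * (-(cw a α i : ℤ) : ℚ) := by
    apply Finset.sum_congr rfl
    intro i _
    by_cases hi : cw a α i = 0
    · simp [hi]
    · simp [hi]
  rw [h5] at h4
  refine le_trans ?_ h4
  have h6 : (1 : ℚ) ≤ -((cw a α r : ℤ) : ℚ) := by
    have : (1 : ℤ) ≤ -cw a α r := by omega
    exact_mod_cast this
  have h7 := E8_lbZ_nonneg a α m
  nlinarith

theorem Amp.nsmul {a : I → I → ℕ} {α : I →₀ ℕ} (h : Amp a α) (n : ℕ) (hn : 1 ≤ n) :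
    Amp a (n • α) := by
  have hn0 : (0 : ℤ) < (n : ℤ) := by exact_mod_cast hn
  refine ⟨?_, ?_, ?_, ?_⟩
  · intro i
    rw [Finsupp.smul_apply, smul_eq_mul]
    exact Nat.one_le_iff_ne_zero.2 (Nat.mul_ne_zero (by omega) (by have := h.supp i; omega))
  · intro i hi
    rw [KG2_cw_nsmul, ← mul_neg]
    exact mul_nonneg hn0.le (h.pos i hi)
  · intro i hi
    rw [KG2_cw_nsmul, ← mul_neg]
    exact mul_pos hn0 (h.posl i hi)
  · obtain ⟨i, hi⟩ := h.ex
    refine ⟨i, ?_⟩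
    rw [KG2_cw_nsmul, ← mul_neg]
    exact mul_pos hn0 hi

theorem E8_Zt (a : I → I → ℕ) (α : I →₀ ℕ) (n : ℕ) (hn : 1 ≤ n) : Zt a (n • α) = Zt a α := by
  ext i
  rw [E6_mem, E6_mem, KG2_cw_nsmul]
  constructor
  · rintro ⟨h1, h2⟩
    refine ⟨h1, ?_⟩
    rcases mul_eq_zero.1 h2 with h3 | h3
    · exfalso
      have : n = 0 := by exact_mod_cast h3
      omega
    · exact h3
  · rintro ⟨h1, h2⟩
    exact ⟨h1, by rw [h2, mul_zero]⟩

private theorem E8_mem {K : ℕ} (β : I → ℕ) (m : Fin K → I → ℕ) (h : m ∈ Mset K β) :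
    ∀ i, ∑ k : Fin K, ((k : ℕ) + 1) * m k i = β i := by
  unfold Mset at h
  rw [Finset.mem_filter] at h
  exact h.2

private theorem E8_mAt_le {K : ℕ} (β : I →₀ ℕ) (m : Fin K → I → ℕ) (hm : m ∈ Mset K β)
    (l : ℕ) (i : I) : mAt m l i ≤ β i := by
  unfold mAt
  split_ifs with h
  · rw [← (E8_mem _ _ hm) i]
    calc m ⟨l - 1, by omega⟩ i ≤ ((⟨l - 1, by omega⟩ : Fin K) + 1 : ℕ) * m ⟨l - 1, by omega⟩ i :=
          Nat.le_mul_of_pos_left _ (Nat.succ_pos _)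
      _ ≤ _ := Finset.single_le_sum (f := fun k : Fin K => ((k : ℕ) + 1) * m k i)
          (fun _ _ => Nat.zero_le _) (Finset.mem_univ _)
  · exact Nat.zero_le _

private theorem E8_wt (P m : ℕ) (hP : 1 ≤ P) :
    (((P + m).choose m : ℕ) : ℚ) = ((P + m : ℕ) : ℚ) * wt P m := by
  unfold wt
  have h2 : ((P + m).choose m : ℚ) = ((P + m).factorial : ℚ) / ((P.factorial : ℚ) * (m.factorial : ℚ)) := by
    rw [Nat.cast_choose ℚ (Nat.le_add_left m P), Nat.add_sub_cancel, mul_comm (m.factorial : ℚ)]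
  rw [h2]
  obtain ⟨q, hq⟩ : ∃ q, P + m = q + 1 := ⟨P + m - 1, by omega⟩
  rw [hq, Nat.factorial_succ, Nat.add_sub_cancel]
  push_cast
  ring

/-- restarted walls have positive multiplicity. -/
theorem E8_mpos (a : I → I → ℕ) {K : ℕ} (hK : 2 ≤ K) (α : I →₀ ℕ) (m : Fin K → I → ℕ)
    (hm : m ∈ Mset K α) (hP : ∀ l, 1 ≤ l → l < K → ∀ i, 1 ≤ PLF a m l i) (z : I)
    (hz : z ∈ Zt a α) : 1 ≤ mAt m K z := by
  obtain ⟨K1, rfl⟩ : ∃ K1, K = K1 + 1 := ⟨K - 1, by omega⟩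
  have h0 := (E6_mem a α z).1 hz
  have h1 := hP K1 (by omega) (by omega) z
  rw [PLF_rec a m K1 z, PLF_top a α m hm (K1 + 1) le_rfl z,
    PLF_top a α m hm (K1 + 2) (by omega) z, h0.2] at h1
  by_contra hne
  have h2 : mAt m (K1 + 1) z = 0 := by omega
  have h3 : ∑ j, cart a z j * (mAt m (K1 + 1) j : ℤ) ≤ 0 := by
    refine Finset.sum_nonpos fun j _ => ?_
    by_cases hj : z = j
    · subst hj
      rw [h2]
      simp
    · rw [cart_ne a hj]
      have h4 : (0 : ℤ) ≤ (a z j : ℤ) * (mAt m (K1 + 1) j : ℤ) := by positivity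
      linarith
  omega

theorem EW_le_fZ (a : I → I → ℕ) (hs : ∀ i j, a i j = a j i) (hd : ∀ i, a i i ≠ 1)
    (hc : Conn a) {cn : Finset I → (I → ℚ) → ℕ → ℚ} (hcn : CN a cn)
    {G : ℕ → (I → ℚ) → (I → ℚ) → (I → ℚ) → (I → I → ℚ) → (I → I → ℚ) → Finset I → (I → ℚ) →
      (Finset I → ℕ → ℚ) → ℚ} (hG : ClusterVal a cn G)
    (f : (I → ℕ) → ℚ) (hK : KacData a f) (α : I →₀ ℕ) (hα : Amp a α) (K : ℕ) (hK2 : 2 ≤ K) :
    ∃ C : ℕ, 1 ≤ C ∧ ∀ n : ℕ, 1 ≤ n → ∀ m : Fin K → I → ℕ, Adm a (n • α) m →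
      (EW a m : ℝ) ≤ ((C : ℝ) * n) ^ C * ((f (n • α) : ℚ) : ℝ) := by
  classical
  obtain ⟨K1, rfl⟩ : ∃ K1, K = K1 + 1 := ⟨K - 1, by omega⟩
  have hs0 : ∀ i, 0 ≤ -cw a α i := E6_pos a hα
  set S : ℕ := (∑ i, (α i : ℤ) * (-cw a α i)).toNat with hS
  have hS0 : 0 ≤ ∑ i, (α i : ℤ) * (-cw a α i) :=
    Finset.sum_nonneg fun i _ => mul_nonneg (Int.natCast_nonneg _) (hs0 i)
  have hSZ : ((S : ℕ) : ℤ) = ∑ i, (α i : ℤ) * (-cw a α i) := Int.toNat_of_nonneg hS0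
  set C0 : ℕ := ∑ i, ∑ j, a i j * α j + ∑ i, α i + 1 with hC0
  set E : ℕ := (K1 + 1) * Fintype.card I with hE
  refine ⟨C0 + S + E + 2, by omega, fun n hn m h => ?_⟩
  set C : ℕ := C0 + S + E + 2 with hC
  have hAβ : Amp a (n • α) := hα.nsmul n hn
  have hsβ : ∀ i, 0 ≤ -cw a (n • α) i := E6_pos a hAβ
  have hn0 : (0 : ℚ) < (n : ℚ) := by exact_mod_cast hn
  have hwt : ∀ P m : ℕ, 0 < wt P m := fun P m => by
    unfold wt
    positivity
  -- bound for `P + m`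
  have hA : ∀ l i, (PLF a m l i).toNat + mAt m l i ≤ C0 * n := by
    intro l i
    have h1 := PLF_le a (n • α) m h.1 l i
    have h2 := E8_mAt_le (n • α) m h.1 l i
    have h3 : ∑ j, (a i j : ℤ) * (((n • α : I →₀ ℕ) j : ℕ) : ℤ) =
        ((n * ∑ j, a i j * α j : ℕ) : ℤ) := by
      simp only [Finsupp.smul_apply, smul_eq_mul]
      push_cast
      rw [Finset.mul_sum]
      refine Finset.sum_congr rfl fun j _ => ?_
      ring
    rw [h3] at h1
    have h4 : (PLF a m l i).toNat ≤ n * ∑ j, a i j * α j := by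
      rw [Int.toNat_le]
      exact h1
    have h5 : ∑ j, a i j * α j ≤ ∑ i, ∑ j, a i j * α j :=
      Finset.single_le_sum (f := fun i => ∑ j, a i j * α j) (fun _ _ => Nat.zero_le _)
        (Finset.mem_univ i)
    have h6 : α i ≤ ∑ i, α i :=
      Finset.single_le_sum (f := fun i => α i) (fun _ _ => Nat.zero_le _) (Finset.mem_univ i)
    rw [Finsupp.smul_apply, smul_eq_mul] at h2
    calc (PLF a m l i).toNat + mAt m l i ≤ n * ∑ j, a i j * α j + n * α i := add_le_add h4 h2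
      _ ≤ n * (∑ i, ∑ j, a i j * α j) + n * ∑ i, α i :=
          add_le_add (Nat.mul_le_mul_left _ h5) (Nat.mul_le_mul_left _ h6)
      _ ≤ C0 * n := by
          rw [hC0]
          nlinarith only []
  have hAQ : ∀ l i, (((PLF a m l i).toNat + mAt m l i : ℕ) : ℚ) ≤ (C0 : ℚ) * n := by
    intro l i
    exact_mod_cast hA l i
  have hCn1 : (1 : ℚ) ≤ (C0 : ℚ) * n := by
    have h1 : 1 ≤ C0 * n := Nat.one_le_iff_ne_zero.mpr (by
      apply Nat.mul_ne_zero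
      · omega
      · omega)
    exact_mod_cast h1
  have hPK : ∀ i, PLF a m (K1 + 1) i = -cw a (n • α) i := fun i =>
    PLF_top a (n • α) m h.1 (K1 + 1) le_rfl i
  -- the product formula
  have hB1 : ∀ l ∈ Finset.Icc 1 K1, ∀ i : I,
      ((((PLF a m l i).toNat + mAt m l i).choose (mAt m l i) : ℕ) : ℚ) ≤
        ((C0 : ℚ) * n) * wt (PLF a m l i).toNat (mAt m l i) := by
    intro l hl i
    rw [Finset.mem_Icc] at hl
    have h1 := h.2.2 l hl.1 (by omega) i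
    have h2 : 1 ≤ (PLF a m l i).toNat := by omega
    rw [E8_wt _ _ h2]
    exact mul_le_mul_of_nonneg_right (hAQ l i) (hwt _ _).le
  have hmz : ∀ z ∈ Zt a (n • α), 1 ≤ mAt m (K1 + 1) z := fun z hz =>
    E8_mpos a hK2 (n • α) m h.1 h.2.2 z hz
  have hB2 : ∀ i : I,
      ((((PLF a m (K1 + 1) i).toNat + mAt m (K1 + 1) i).choose (mAt m (K1 + 1) i) : ℕ) : ℚ) ≤
        ((C0 : ℚ) * n) * (if i ∈ Zt a (n • α) then (1 / (mAt m (K1 + 1) i : ℚ)) else
          wt (-cw a (n • α) i).toNat (mAt m (K1 + 1) i)) := by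
    intro i
    by_cases hi : i ∈ Zt a (n • α)
    · rw [if_pos hi, hPK i, ((E6_mem a _ i).1 hi).2]
      simp only [neg_zero, Int.toNat_zero, zero_add, Nat.choose_self, Nat.cast_one]
      have h1 : (1 : ℚ) ≤ (mAt m (K1 + 1) i : ℚ) := by exact_mod_cast hmz i hi
      have h2 : (mAt m (K1 + 1) i : ℚ) ≤ (C0 : ℚ) * n := by
        have h3 := hAQ (K1 + 1) i
        push_cast at h3
        have h4 : (0 : ℚ) ≤ ((PLF a m (K1 + 1) i).toNat : ℚ) := Nat.cast_nonneg _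
        linarith
      rw [mul_one_div, le_div_iff₀ (by linarith), one_mul]
      exact h2
    · rw [if_neg hi, ← hPK i]
      have h2 : 1 ≤ (PLF a m (K1 + 1) i).toNat := by
        rw [hPK i]
        have h3 := E6_pos' a hAβ i hi
        omega
      rw [E8_wt _ _ h2]
      exact mul_le_mul_of_nonneg_right (hAQ _ i) (hwt _ _).le
  have hlb0 : 0 < lbZ a (n • α) m := by
    unfold lbZ
    refine mul_pos ?_ (mul_pos ?_ ?_)
    · exact Finset.prod_pos fun l _ => Finset.prod_pos fun i _ => hwt _ _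
    · exact Finset.prod_pos fun i _ => hwt _ _
    · refine Finset.prod_pos fun i hi => ?_
      have h1 : (0 : ℚ) < (mAt m (K1 + 1) i : ℚ) := by exact_mod_cast hmz i hi
      positivity
  have hEW : ((EW a m : ℕ) : ℚ) ≤ ((C0 : ℚ) * n) ^ E * lbZ a (n • α) m := by
    unfold EW lbZ
    rw [Finset.prod_Icc_succ_top (by omega)]
    push_cast
    have e1 : ∏ l ∈ Finset.Icc 1 K1, ∏ i,
        ((((PLF a m l i).toNat + mAt m l i).choose (mAt m l i) : ℕ) : ℚ) ≤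
        ∏ l ∈ Finset.Icc 1 K1, ∏ i, (((C0 : ℚ) * n) * wt (PLF a m l i).toNat (mAt m l i)) :=
      Finset.prod_le_prod (fun l _ => Finset.prod_nonneg fun i _ => Nat.cast_nonneg _)
        fun l hl => Finset.prod_le_prod (fun i _ => Nat.cast_nonneg _) fun i _ => hB1 l hl i
    have e2 : ∏ i,
        ((((PLF a m (K1 + 1) i).toNat + mAt m (K1 + 1) i).choose (mAt m (K1 + 1) i) : ℕ) : ℚ) ≤
        ∏ i, (((C0 : ℚ) * n) * (if i ∈ Zt a (n • α) then (1 / (mAt m (K1 + 1) i : ℚ)) else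
          wt (-cw a (n • α) i).toNat (mAt m (K1 + 1) i))) :=
      Finset.prod_le_prod (fun i _ => Nat.cast_nonneg _) fun i _ => hB2 i
    have e3 : ∏ l ∈ Finset.Icc 1 K1, ∏ i, (((C0 : ℚ) * n) * wt (PLF a m l i).toNat (mAt m l i)) =
        ((C0 : ℚ) * n) ^ (K1 * Fintype.card I) *
          ∏ l ∈ Finset.Icc 1 K1, ∏ i, wt (PLF a m l i).toNat (mAt m l i) := by
      have e4 : ∀ l, ∏ i : I, (((C0 : ℚ) * n) * wt (PLF a m l i).toNat (mAt m l i)) =
          ((C0 : ℚ) * n) ^ (Fintype.card I) * ∏ i, wt (PLF a m l i).toNat (mAt m l i) := by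
        intro l
        rw [Finset.prod_mul_distrib, Finset.prod_const, Finset.card_univ]
      simp only [e4]
      rw [Finset.prod_mul_distrib, Finset.prod_const, Nat.card_Icc, ← pow_mul]
      congr 2
      rw [Nat.add_sub_cancel, mul_comm]
    have e5 : ∏ i : I, (((C0 : ℚ) * n) * (if i ∈ Zt a (n • α) then
          (1 / (mAt m (K1 + 1) i : ℚ)) else wt (-cw a (n • α) i).toNat (mAt m (K1 + 1) i))) =
        ((C0 : ℚ) * n) ^ (Fintype.card I) *
          ((∏ i ∈ Finset.univ \ Zt a (n • α), wt (-cw a (n • α) i).toNat (mAt m (K1 + 1) i)) *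
            ∏ i ∈ Zt a (n • α), (1 / (mAt m (K1 + 1) i : ℚ))) := by
      rw [Finset.prod_mul_distrib, Finset.prod_const, Finset.card_univ]
      congr 1
      rw [← Finset.prod_sdiff (Finset.subset_univ (Zt a (n • α)))]
      congr 1
      · refine Finset.prod_congr rfl fun i hi => ?_
        rw [if_neg (Finset.mem_sdiff.1 hi).2]
      · refine Finset.prod_congr rfl fun i hi => ?_
        rw [if_pos hi]
    rw [e3] at e1
    rw [e5] at e2
    refine (mul_le_mul e1 e2 (Finset.prod_nonneg fun i _ => Nat.cast_nonneg _) ?_).trans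
      (le_of_eq ?_)
    · refine mul_nonneg (by positivity) ?_
      exact Finset.prod_nonneg fun l _ => Finset.prod_nonneg fun i _ => (hwt _ _).le
    · rw [hE, add_mul, one_mul, pow_add]
      ring
  have hlow := lower_boundZ a hs hd hc hcn hG f hK (n • α) hAβ hK2 m h.1 h.2.1 h.2.2
  have hsum : ∑ i, (((n • α) i : ℕ) : ℚ) * (-(cw a (n • α) i : ℤ) : ℚ) = (n : ℚ) ^ 2 * S := by
    have h1 : (S : ℚ) = ∑ i, (α i : ℚ) * (-(cw a α i : ℤ) : ℚ) := by
      have h2 : ((S : ℤ) : ℚ) = ((∑ i, (α i : ℤ) * (-cw a α i) : ℤ) : ℚ) := by rw [hSZ]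
      push_cast at h2
      exact h2
    rw [h1, Finset.mul_sum]
    refine Finset.sum_congr rfl fun i _ => ?_
    rw [KG2_cw_nsmul, Finsupp.smul_apply, smul_eq_mul]
    push_cast
    ring
  rw [hsum] at hlow
  have hf : 0 < f (n • α) := by
    have h1 : 0 < f ((n • α : I →₀ ℕ) : I → ℕ) * ((n : ℚ) ^ 2 * S) := hlb0.trans_le hlow
    by_contra hneg
    have h2 : f ((n • α : I →₀ ℕ) : I → ℕ) * ((n : ℚ) ^ 2 * S) ≤ 0 :=
      mul_nonpos_of_nonpos_of_nonneg (not_lt.mp hneg) (by positivity)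
    exact absurd h1 (not_lt.mpr h2)
  have hfin : ((EW a m : ℕ) : ℚ) ≤ ((C : ℚ) * n) ^ C * f (n • α) := by
    have hC0C : (C0 : ℚ) ≤ C := by
      rw [hC]
      push_cast
      have : (0 : ℚ) ≤ (S : ℚ) + E := by positivity
      linarith only []
    have hSC : (S : ℚ) ≤ C := by
      rw [hC]
      push_cast
      have : (0 : ℚ) ≤ (C0 : ℚ) + E := by positivity
      linarith only []
    have hC1 : (1 : ℚ) ≤ C := by
      have : 1 ≤ C := by omega
      exact_mod_cast this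
    have hn1 : (1 : ℚ) ≤ n := by exact_mod_cast hn
    have g1 : ((C0 : ℚ) * n) ^ E ≤ ((C : ℚ) * n) ^ E :=
      pow_le_pow_left₀ (by positivity) (mul_le_mul_of_nonneg_right hC0C hn0.le) _
    have g2 : (n : ℚ) ^ 2 * S ≤ ((C : ℚ) * n) ^ 2 := by
      have : (S : ℚ) ≤ (C : ℚ) ^ 2 := by nlinarith only [hSC, hC1]
      calc (n : ℚ) ^ 2 * S ≤ (n : ℚ) ^ 2 * (C : ℚ) ^ 2 := mul_le_mul_of_nonneg_left this (by positivity)
        _ = _ := by ring
    have g3 : ((C : ℚ) * n) ^ (E + 2) ≤ ((C : ℚ) * n) ^ C :=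
      pow_le_pow_right₀ (by nlinarith only [hCn1, hC0C]) (by omega)
    calc ((EW a m : ℕ) : ℚ) ≤ ((C0 : ℚ) * n) ^ E * lbZ a (n • α) m := hEW
      _ ≤ ((C0 : ℚ) * n) ^ E * (f (n • α) * ((n : ℚ) ^ 2 * S)) :=
          mul_le_mul_of_nonneg_left hlow (by positivity)
      _ = (((C0 : ℚ) * n) ^ E * ((n : ℚ) ^ 2 * S)) * f (n • α) := by ring
      _ ≤ (((C : ℚ) * n) ^ E * ((C : ℚ) * n) ^ 2) * f (n • α) :=
          mul_le_mul_of_nonneg_right
            (mul_le_mul g1 g2 (by positivity) (by positivity)) hf.le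
      _ = ((C : ℚ) * n) ^ (E + 2) * f (n • α) := by rw [pow_add]
      _ ≤ _ := mul_le_mul_of_nonneg_right g3 hf.le
  exact_mod_cast hfin

end Pool.Agent.H40.KADE
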