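import Pool.Agent.H40.KADE.Br
import Pool.Agent.H41.KA.AG1

/-!
KAC ADE: the value `GG` of a state in terms of families of formal functionals on the clusters; `norm` and `poly`.
-/

set_option autoImplicit false

namespace Pool.Agent.H40.KADE

open scoped BigOperators
open Pool.Agent.H27.KAC

variable {I : Type} [Fintype I] [DecidableEq I]

/-- exponents of a state. -/
noncomputable def stE (k : ℕ) (P p : I → ℚ) : QE I :=
  ∑ i, ((-P i) • sy i k + (p i) • sy i (k - 1))

/-- columns of a state (zero on the walls; they are replaced by the patterns). -/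
noncomputable def stCol (k : ℕ) (M N : I → I → ℚ) (W : Finset I) (i : I) : QE I :=
  if i ∈ W then 0 else ∑ l ∈ Finset.univ \ W, (M l i • sy l k - N l i • sy l (k - 1))

/-- the term of a state. -/
noncomputable def stTrm (k : ℕ) (γ P p : I → ℚ) (M N : I → I → ℚ) (W : Finset I) : Trm I :=
  ⟨γ, stE k P p, stCol k M N W⟩

/-- the blocks of a state. -/
noncomputable def stBlk (a : I → I → ℕ) (fam : Finset I → (I → ℚ) → (ℕ → ℚ) → ℕ → FFn I) (k : ℕ)
    (W : Finset I) (q : I → ℚ) (w : Finset I → ℕ → ℚ) : List (Finset I × FFn I) :=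
  (comps a W).toList.map (fun B => (B, fam B q (w B) (k - 1)))

/-- the value of a state, for a selection `fam` of families of functionals: `fam B q w f` is a formal functional on
`B` of class `q`, weights `w`, at the frontier `f`. -/
noncomputable def GG (a : I → I → ℕ) (fam : Finset I → (I → ℚ) → (ℕ → ℚ) → ℕ → FFn I)
    (k : ℕ) (γ P p : I → ℚ) (M N : I → I → ℚ) (W : Finset I) (q : I → ℚ)
    (w : Finset I → ℕ → ℚ) : ℚ :=
  evU a (stBlk a fam k W q w) (stTrm k γ P p M N W)

/-! ### linear algebra of the columns -/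

theorem patT_cols_comm (a : I → I → ℕ) (B R : Finset I) (h : Disjoint B R) (π : Pat I)
    (c : I → QE I) (T : Trm I) :
    patT a B π (T.cols R c) = (patT a B π T).cols R c := by
  refine Trm.ext rfl rfl ?_
  funext i
  show (if i ∈ B then sy i (π.s i + 1) else if i ∈ R then c i else T.Λ i) =
    if i ∈ R then c i else if i ∈ B then sy i (π.s i + 1) else T.Λ i
  by_cases h1 : i ∈ B
  · rw [if_pos h1, if_neg (Finset.disjoint_left.1 h h1), if_pos h1]
  · rw [if_neg h1, if_neg h1]

theorem patT_Λ (a : I → I → ℕ) (B : Finset I) (π : Pat I) (T : Trm I) (i : I) :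
    (patT a B π T).Λ i = if i ∈ B then sy i (π.s i + 1) else T.Λ i := rfl

theorem evU_cons_def (a : I → I → ℕ) (b : Finset I × FFn I) (U : List (Finset I × FFn I))
    (T : Trm I) :
    evU a (b :: U) T = (b.2.map (fun c => c.1 * evU a U (patT a b.1 c.2 T))).sum := rfl

theorem GDef_mul_sum {ι : Type} (r : ℚ) (l : List ι) (f : ι → ℚ) :
    r * (l.map f).sum = (l.map (fun c => r * f c)).sum := by
  induction l with
  | nil => simp
  | cons c l ih =>
    rw [List.map_cons, List.sum_cons, List.map_cons, List.sum_cons, mul_add, ih]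

/-- linear change of the columns in `univ \ W`. -/
theorem evU_lin (a : I → I → ℕ) (W : Finset I) (A : I → I → ℚ)
    (U : List (Finset I × FFn I)) (hU : ∀ b ∈ U, b.1 ⊆ W) (T : Trm I) :
    evU a U (T.cols (Finset.univ \ W) (fun i => ∑ j ∈ Finset.univ \ W, A j i • T.Λ j)) =
      (blk W A).det * evU a U T := by
  induction U generalizing T with
  | nil =>
    show TV a _ = _ * TV a T
    rw [← TV_matrix]
    congr 1
    refine Trm.ext rfl rfl ?_
    funext i
    show (if i ∈ Finset.univ \ W then ∑ j ∈ Finset.univ \ W, A j i • T.Λ j else T.Λ i) =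
      ∑ j, blk W A j i • T.Λ j
    by_cases hi : i ∈ W
    · rw [if_neg (fun h => (Finset.mem_sdiff.1 h).2 hi), Finset.sum_eq_single i]
      · unfold blk
        rw [Matrix.of_apply, if_pos (Or.inr hi), if_pos rfl, one_smul]
      · intro j _ hj
        unfold blk
        rw [Matrix.of_apply, if_pos (Or.inr hi), if_neg hj, zero_smul]
      · intro h
        exact absurd (Finset.mem_univ i) h
    · rw [if_pos (Finset.mem_sdiff.2 ⟨Finset.mem_univ i, hi⟩)]
      rw [← Finset.sum_subset (Finset.subset_univ (Finset.univ \ W))]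
      · refine Finset.sum_congr rfl fun j hj => ?_
        unfold blk
        rw [Matrix.of_apply, if_neg]
        rintro (h | h)
        · exact (Finset.mem_sdiff.1 hj).2 h
        · exact hi h
      · intro j _ hj
        have hjW : j ∈ W := by
          by_contra h
          exact hj (Finset.mem_sdiff.2 ⟨Finset.mem_univ j, h⟩)
        unfold blk
        rw [Matrix.of_apply, if_pos (Or.inl hjW), if_neg, zero_smul]
        rintro rfl
        exact hi hjW
  | cons b U ih =>
    have hb := hU b (List.mem_cons_self)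
    have hdis : Disjoint b.1 (Finset.univ \ W) := by
      rw [Finset.disjoint_left]
      intro x hx hx'
      exact (Finset.mem_sdiff.1 hx').2 (hb hx)
    rw [evU_cons_def, evU_cons_def, GDef_mul_sum]
    congr 1
    refine List.map_congr_left fun c _ => ?_
    rw [patT_cols_comm a _ _ hdis]
    have h1 : (fun i => ∑ j ∈ Finset.univ \ W, A j i • T.Λ j) =
        fun i => ∑ j ∈ Finset.univ \ W, A j i • (patT a b.1 c.2 T).Λ j := by
      funext i
      refine Finset.sum_congr rfl fun j hj => ?_
      rw [patT_Λ, if_neg (fun h => (Finset.mem_sdiff.1 hj).2 (hb h))]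
    rw [h1, ih (fun b hb => hU b (List.mem_cons_of_mem _ hb))]
    ring

theorem stBlk_sub (a : I → I → ℕ) (fam : Finset I → (I → ℚ) → (ℕ → ℚ) → ℕ → FFn I) (k : ℕ)
    (W : Finset I) (q : I → ℚ) (w : Finset I → ℕ → ℚ) (b : Finset I × FFn I)
    (hb : b ∈ stBlk a fam k W q w) : b.1 ⊆ W := by
  unfold stBlk at hb
  rw [List.mem_map] at hb
  obtain ⟨B, hB, rfl⟩ := hb
  exact comps_subset (Finset.mem_toList.1 hB)

theorem GG_norm (a : I → I → ℕ) (fam : Finset I → (I → ℚ) → (ℕ → ℚ) → ℕ → FFn I)
    (k : ℕ) (γ P p : I → ℚ) (M N H : I → I → ℚ) (W : Finset I) (q : I → ℚ)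
    (w : Finset I → ℕ → ℚ)
    (hN : ∀ l i, l ∉ W → i ∉ W → N l i = ∑ l' ∈ Finset.univ \ W, H l l' * M l' i) :
    GG a fam k γ P p M N W q w = (blk W M).det * GG a fam k γ P p idm H W q w := by
  unfold GG
  rw [← evU_lin a W M _ (fun b hb => stBlk_sub a fam k W q w b hb)]
  congr 1
  refine Trm.ext rfl rfl ?_
  funext i
  show stCol k M N W i = if i ∈ Finset.univ \ W then
    ∑ j ∈ Finset.univ \ W, M j i • stCol k idm H W j else stCol k idm H W i
  by_cases hi : i ∈ W
  · rw [if_neg (fun h => (Finset.mem_sdiff.1 h).2 hi)]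
    unfold stCol
    rw [if_pos hi, if_pos hi]
  · rw [if_pos (Finset.mem_sdiff.2 ⟨Finset.mem_univ i, hi⟩)]
    have h1 : stCol k M N W i = ∑ l ∈ Finset.univ \ W, (M l i • sy l k - N l i • sy l (k - 1)) := by
      unfold stCol
      rw [if_neg hi]
    have h2 : ∀ j ∈ Finset.univ \ W, M j i • stCol k idm H W j =
        M j i • sy j k - ∑ l ∈ Finset.univ \ W, (H l j * M j i) • sy l (k - 1) := by
      intro j hj
      unfold stCol
      rw [if_neg (Finset.mem_sdiff.1 hj).2, Finset.sum_sub_distrib, smul_sub]
      congr 1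
      · rw [Finset.sum_eq_single j]
        · unfold idm
          rw [if_pos rfl, one_smul]
        · intro l _ hl
          unfold idm
          rw [if_neg hl, zero_smul]
        · intro h
          exact absurd hj h
      · rw [Finset.smul_sum]
        refine Finset.sum_congr rfl fun l _ => ?_
        rw [smul_smul, mul_comm]
    rw [h1, Finset.sum_congr rfl h2, Finset.sum_sub_distrib, Finset.sum_sub_distrib]
    congr 1
    rw [Finset.sum_comm]
    refine Finset.sum_congr rfl fun l hl => ?_
    rw [hN l i (Finset.mem_sdiff.1 hl).2 hi, Finset.sum_smul]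

/-! ### polynomial dependence -/

theorem TV_poly (a : I → I → ℕ) (γ : I → ℚ) (E : QE I) (S : Finset I) (c d e : I → QE I) :
    ∃ f : Polynomial ℚ, ∀ δ : ℚ,
      TV a ⟨γ, E, fun i => if i ∈ S then c i + δ • d i else e i⟩ = f.eval δ := by
  induction S using Finset.induction_on generalizing e with
  | empty =>
    refine ⟨Polynomial.C (TV a ⟨γ, E, e⟩), fun δ => ?_⟩
    rw [Polynomial.eval_C]
    have h1 : (⟨γ, E, fun i => if i ∈ (∅ : Finset I) then c i + δ • d i else e i⟩ : Trm I) =
        ⟨γ, E, e⟩ := by
      refine Trm.ext rfl rfl ?_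
      funext i
      show (if i ∈ (∅ : Finset I) then c i + δ • d i else e i) = e i
      rw [if_neg (Finset.notMem_empty i)]
    rw [h1]
  | insert j S hj ih =>
    obtain ⟨f1, hf1⟩ := ih (Function.update e j (c j))
    obtain ⟨f2, hf2⟩ := ih (Function.update e j (d j))
    refine ⟨f1 + Polynomial.X * f2, fun δ => ?_⟩
    rw [Polynomial.eval_add, Polynomial.eval_mul, Polynomial.eval_X, ← hf1, ← hf2]
    have h0 : ∀ x : QE I, (⟨γ, E, fun i => if i ∈ S then c i + δ • d i else
        Function.update e j x i⟩ : Trm I) =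
        (⟨γ, E, fun i => if i ∈ S then c i + δ • d i else e i⟩ : Trm I).col j x := by
      intro x
      refine Trm.ext rfl rfl ?_
      funext i
      show (if i ∈ S then c i + δ • d i else Function.update e j x i) =
        Function.update (fun i => if i ∈ S then c i + δ • d i else e i) j x i
      by_cases hi : i = j
      · subst hi
        rw [if_neg hj, Function.update_self, Function.update_self]
      · rw [Function.update_of_ne hi, Function.update_of_ne hi]
    have h1 : (⟨γ, E, fun i => if i ∈ insert j S then c i + δ • d i else e i⟩ : Trm I) =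
        (⟨γ, E, fun i => if i ∈ S then c i + δ • d i else e i⟩ : Trm I).col j
          (c j + δ • d j) := by
      refine Trm.ext rfl rfl ?_
      funext i
      show (if i ∈ insert j S then c i + δ • d i else e i) =
        Function.update (fun i => if i ∈ S then c i + δ • d i else e i) j (c j + δ • d j) i
      by_cases hi : i = j
      · subst hi
        rw [if_pos (Finset.mem_insert_self i S), Function.update_self]
      · rw [Function.update_of_ne hi]
        by_cases hiS : i ∈ S
        · rw [if_pos (Finset.mem_insert_of_mem hiS), if_pos hiS]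
        · rw [if_neg (fun h => hiS (Finset.mem_of_mem_insert_of_ne h hi)), if_neg hiS]
    rw [h0, h0, h1, TV_col_add, TV_col_smul]

theorem evU_poly (a : I → I → ℕ) (U : List (Finset I × FFn I)) (γ : I → ℚ) (E : QE I)
    (c d : I → QE I) :
    ∃ f : Polynomial ℚ, ∀ δ : ℚ, evU a U ⟨γ, E, fun i => c i + δ • d i⟩ = f.eval δ := by
  induction U generalizing γ E c d with
  | nil =>
    obtain ⟨f, hf⟩ := TV_poly a γ E Finset.univ c d c
    refine ⟨f, fun δ => ?_⟩
    rw [← hf δ]
    show TV a _ = _
    congr 1
    refine Trm.ext rfl rfl ?_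
    funext i
    show c i + δ • d i = if i ∈ Finset.univ then c i + δ • d i else c i
    rw [if_pos (Finset.mem_univ i)]
  | cons b U ih =>
    have key : ∀ l : FFn I, ∃ f : Polynomial ℚ, ∀ δ : ℚ,
        (l.map (fun x => x.1 * evU a U (patT a b.1 x.2 ⟨γ, E, fun i => c i + δ • d i⟩))).sum =
          f.eval δ := by
      intro l
      induction l with
      | nil => exact ⟨0, fun δ => by simp⟩
      | cons x l ihl =>
        obtain ⟨f, hf⟩ := ihl
        obtain ⟨g, hg⟩ := ih (patT a b.1 x.2 ⟨γ, E, c⟩).γ (patT a b.1 x.2 ⟨γ, E, c⟩).E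
          (fun i => if i ∈ b.1 then sy i (x.2.s i + 1) else c i)
          (fun i => if i ∈ b.1 then 0 else d i)
        refine ⟨Polynomial.C x.1 * g + f, fun δ => ?_⟩
        rw [List.map_cons, List.sum_cons, hf, Polynomial.eval_add, Polynomial.eval_mul,
          Polynomial.eval_C, ← hg]
        congr 3
        refine Trm.ext rfl rfl ?_
        funext i
        show (if i ∈ b.1 then sy i (x.2.s i + 1) else c i + δ • d i) =
          (if i ∈ b.1 then sy i (x.2.s i + 1) else c i) + δ • (if i ∈ b.1 then 0 else d i)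
        by_cases hi : i ∈ b.1
        · rw [if_pos hi, if_pos hi, if_pos hi, smul_zero, add_zero]
        · rw [if_neg hi, if_neg hi, if_neg hi]
    exact key b.2

theorem GG_poly (a : I → I → ℕ) (fam : Finset I → (I → ℚ) → (ℕ → ℚ) → ℕ → FFn I)
    (k : ℕ) (γ P p : I → ℚ) (H : I → I → ℚ) (W : Finset I) (q : I → ℚ)
    (w : Finset I → ℕ → ℚ) :
    ∃ f : Polynomial ℚ,
      ∀ δ : ℚ, GG a fam k γ P p idm (fun l i => (1 - δ) * H l i) W q w = f.eval δ := by
  obtain ⟨f, hf⟩ := evU_poly a (stBlk a fam k W q w) γ (stE k P p) (stCol k idm H W)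
    (fun i => if i ∈ W then 0 else ∑ l ∈ Finset.univ \ W, H l i • sy l (k - 1))
  refine ⟨f, fun δ => ?_⟩
  rw [← hf δ]
  unfold GG
  congr 1
  refine Trm.ext rfl rfl ?_
  funext i
  show stCol k idm (fun l i => (1 - δ) * H l i) W i = stCol k idm H W i +
    δ • (if i ∈ W then 0 else ∑ l ∈ Finset.univ \ W, H l i • sy l (k - 1))
  unfold stCol
  by_cases hi : i ∈ W
  · rw [if_pos hi, if_pos hi, if_pos hi, smul_zero, add_zero]
  · rw [if_neg hi, if_neg hi, if_neg hi, Finset.smul_sum, ← Finset.sum_add_distrib]
    refine Finset.sum_congr rfl fun l _ => ?_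
    beta_reduce
    rw [smul_smul, sub_mul, one_mul, sub_smul]
    abel

end Pool.Agent.H40.KADE
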