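import Pool.Agent.H40.KADE.GDef

/-!
KAC ADE: the bottom states and the top states for `GG`.
-/

set_option autoImplicit false

namespace Pool.Agent.H40.KADE

open scoped BigOperators
open Pool.Agent.H27.KAC MvPowerSeries

variable {I : Type} [Fintype I] [DecidableEq I]

/-- joint value of blocks which replace their columns. -/
theorem evU_prod (a : I → I → ℕ) (hs : ∀ i j, a i j = a j i) (col : I → QE I)
    (hcol : ∀ j x l, x ≠ j → col j (x, l) = 0) (cc : Finset I × FFn I → ℚ)
    (U : List (Finset I × FFn I)) (hd : U.Pairwise (fun b c => Sep a b.1 c.1))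
    (h : ∀ b ∈ U, ∀ T : Trm I, RReg b.1 T → evF a b.1 b.2 T = cc b * TV a (T.cols b.1 col)) :
    ∀ T : Trm I, RReg (uni U) T →
      evU a U T = (U.map cc).prod * TV a (T.cols (uni U) col) := by
  induction U with
  | nil =>
    intro T _
    show TV a T = 1 * TV a (T.cols ∅ col)
    rw [one_mul]
    congr 1
  | cons b U ih =>
    intro T hT
    rw [List.pairwise_cons] at hd
    have hdis : ∀ c ∈ U, Disjoint b.1 c.1 := fun c hc => (hd.1 c hc).1
    have hdU : U.Pairwise (fun b c => Disjoint b.1 c.1) := hd.2.imp (fun h => h.1)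
    have hsep : Sep a b.1 (uni U) := AG1_sep_uni a b.1 U hd.1
    have hT' : RReg (b.1 ∪ uni U) T := hT
    have e1 : ∀ c : ℚ × Pat I, evF a b.1 b.2 (patT a (uni U) c.2 T) =
        cc b * TV a (patT a (uni U) c.2 (T.cols b.1 col)) := by
      intro c
      rw [h b List.mem_cons_self _ (RReg_patT a hs b.1 (uni U) hsep.1 c.2
        (fun x hx y hy _ => hsep.2 x hx y hy) T hT'), patT_cols_comm a _ _ hsep.1.symm]
    have hT2 : RReg (uni U) (T.cols b.1 col) := by
      refine ⟨fun x hx l hl => hT'.nat x (Finset.mem_union_right _ hx) l hl, ?_⟩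
      intro x hx j hj l hl hne
      have hne' : (if j ∈ b.1 then col j else T.Λ j) (x, l) ≠ 0 := hne
      by_cases hjb : j ∈ b.1
      · rw [if_pos hjb] at hne'
        exfalso
        apply hne'
        apply hcol
        rintro rfl
        exact hj hx
      · rw [if_neg hjb] at hne'
        refine hT'.col x (Finset.mem_union_right _ hx) j ?_ l hl hne'
        rw [Finset.mem_union]
        rintro (h1 | h1)
        · exact hjb h1
        · exact hj h1
    have e2 : evU a (b :: U) T = cc b * evU a U (T.cols b.1 col) := by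
      rw [evU_cons' a b U hdis hdU, evU_eq_evF a U hdU]
      show _ = cc b * ((prodF U).map
        (fun c => c.1 * TV a (patT a (uni U) c.2 (T.cols b.1 col)))).sum
      rw [GDef_mul_sum]
      congr 1
      refine List.map_congr_left fun c _ => ?_
      rw [e1 c]
      ring
    rw [e2, ih hd.2 (fun c hc => h c (List.mem_cons_of_mem _ hc)) _ hT2, List.map_cons,
      List.prod_cons, mul_assoc]
    congr 3
    refine Trm.ext rfl rfl ?_
    funext i
    show (if i ∈ uni U then col i else if i ∈ b.1 then col i else T.Λ i) =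
      if i ∈ b.1 ∪ uni U then col i else T.Λ i
    by_cases h1 : i ∈ uni U
    · rw [if_pos h1, if_pos (Finset.mem_union_right _ h1)]
    · by_cases h2 : i ∈ b.1
      · rw [if_neg h1, if_pos h2, if_pos (Finset.mem_union_left _ h2)]
      · rw [if_neg h1, if_neg h2, if_neg]
        rw [Finset.mem_union]
        rintro (h3 | h3)
        · exact h2 h3
        · exact h1 h3

theorem uni_map (f : Finset I → FFn I) (L : List (Finset I)) (x : I) :
    x ∈ uni (L.map (fun B => (B, f B))) ↔ ∃ B ∈ L, x ∈ B := by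
  induction L with
  | nil =>
    show x ∈ (∅ : Finset I) ↔ _
    simp
  | cons B L ih =>
    show x ∈ B ∪ uni (L.map (fun B => (B, f B))) ↔ _
    rw [Finset.mem_union, ih]
    simp

theorem uni_stBlk (a : I → I → ℕ) (hs : ∀ i j, a i j = a j i)
    (fam : Finset I → (I → ℚ) → (ℕ → ℚ) → ℕ → FFn I) (k : ℕ)
    (W : Finset I) (q : I → ℚ) (w : Finset I → ℕ → ℚ) : uni (stBlk a fam k W q w) = W := by
  ext x
  unfold stBlk
  rw [uni_map (fun B => fam B q (w B) (k - 1))]
  constructor
  · rintro ⟨B, hB, hx⟩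
    exact comps_subset (Finset.mem_toList.1 hB) hx
  · intro hx
    obtain ⟨B, hB, hxB⟩ := comps_cover hs x hx
    exact ⟨B, Finset.mem_toList.2 hB, hxB⟩

theorem comps_Sep (a : I → I → ℕ) (hs : ∀ i j, a i j = a j i) {W A B : Finset I}
    (hA : A ∈ comps a W) (hB : B ∈ comps a W) (hAB : A ≠ B) : Sep a A B :=
  ⟨comps_disjoint hs hA hB hAB, comps_nonadj hs hA hB hAB⟩

theorem stBlk_sep (a : I → I → ℕ) (hs : ∀ i j, a i j = a j i)
    (fam : Finset I → (I → ℚ) → (ℕ → ℚ) → ℕ → FFn I) (k : ℕ)
    (W : Finset I) (q : I → ℚ) (w : Finset I → ℕ → ℚ) :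
    (stBlk a fam k W q w).Pairwise (fun b c => Sep a b.1 c.1) := by
  unfold stBlk
  rw [List.pairwise_map]
  have h1 := Finset.nodup_toList (comps a W)
  have h2 : (comps a W).toList.Pairwise (fun A B => A ∈ comps a W ∧ B ∈ comps a W ∧ A ≠ B) := by
    refine List.Pairwise.imp_of_mem ?_ h1
    intro A B hA hB hne
    exact ⟨Finset.mem_toList.1 hA, Finset.mem_toList.1 hB, hne⟩
  exact h2.imp (fun h => comps_Sep a hs h.1 h.2.1 h.2.2)

/-! ### exponents of a state -/

theorem stE_apply (k : ℕ) (P p : I → ℚ) (x : I) (l : ℕ) :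
    stE k P p (x, l) = (if l = k then -P x else 0) + (if l = k - 1 then p x else 0) := by
  unfold stE
  rw [Finsupp.finsetSum_apply, Finset.sum_eq_single x]
  · rw [Finsupp.add_apply, Finsupp.smul_apply, Finsupp.smul_apply, Finsupp.single_apply,
      Finsupp.single_apply]
    congr 1
    · by_cases h : l = k
      · rw [if_pos h, if_pos (by rw [h]), smul_eq_mul, mul_one]
      · rw [if_neg h, if_neg (fun h1 => h (Prod.mk.inj h1).2.symm), smul_zero]
    · by_cases h : l = k - 1
      · rw [if_pos h, if_pos (by rw [h]), smul_eq_mul, mul_one]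
      · rw [if_neg h, if_neg (fun h1 => h (Prod.mk.inj h1).2.symm), smul_zero]
  · intro y _ hy
    rw [Finsupp.add_apply, Finsupp.smul_apply, Finsupp.smul_apply, Finsupp.single_apply,
      Finsupp.single_apply, if_neg (fun h1 => hy (Prod.mk.inj h1).1),
      if_neg (fun h1 => hy (Prod.mk.inj h1).1), smul_zero, smul_zero, add_zero]
  · intro h
    exact absurd (Finset.mem_univ x) h

theorem stE_tdg (k : ℕ) (hk : 1 ≤ k) (P p : I → ℚ) (i : I) :
    tdg (stE k P p) i = ((k : ℚ) - 1) * p i - (k : ℚ) * P i := by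
  have h1 : ∀ s : Finset I, tdg (∑ j ∈ s, ((-P j) • sy j k + (p j) • sy j (k - 1))) i =
      ∑ j ∈ s, (if j = i then ((k : ℚ) - 1) * p i - (k : ℚ) * P i else 0) := by
    intro s
    induction s using Finset.induction_on with
    | empty => rw [Finset.sum_empty, Finset.sum_empty, tdg_zero]
    | insert j s hj ih =>
      rw [Finset.sum_insert hj, Finset.sum_insert hj, tdg_add, ih, tdg_add, tdg_smul, tdg_smul,
        tdg_single, tdg_single]
      congr 1
      by_cases h : j = i
      · subst h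
        rw [if_pos rfl, if_pos rfl, if_pos rfl]
        push_cast [Nat.cast_sub hk]
        ring
      · rw [if_neg h, if_neg h, if_neg h]
        ring
  unfold stE
  rw [h1, Finset.sum_ite_eq' Finset.univ i, if_pos (Finset.mem_univ i)]

theorem stCol_apply (k : ℕ) (M N : I → I → ℚ) (W : Finset I) (j x : I) (l : ℕ) (hx : x ∈ W) :
    stCol k M N W j (x, l) = 0 := by
  unfold stCol
  split_ifs with h
  · rfl
  · rw [Finsupp.finsetSum_apply]
    refine Finset.sum_eq_zero fun y hy => ?_
    have hyx : y ≠ x := by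
      rintro rfl
      exact (Finset.mem_sdiff.1 hy).2 hx
    rw [Finsupp.sub_apply, Finsupp.smul_apply, Finsupp.smul_apply, Finsupp.single_apply,
      Finsupp.single_apply, if_neg (fun h1 => hyx (Prod.mk.inj h1).1),
      if_neg (fun h1 => hyx (Prod.mk.inj h1).1), smul_zero, smul_zero, sub_zero]

theorem stTrm_RReg (k : ℕ) (γ P p : I → ℚ) (M N : I → I → ℚ) (W : Finset I)
    (hP : ∀ x ∈ W, P x = 0) (hp : ∀ x ∈ W, p x = 0) : RReg W (stTrm k γ P p M N W) := by
  refine ⟨?_, ?_⟩
  · intro x hx l _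
    refine ⟨0, ?_⟩
    show stE k P p (x, l) = _
    rw [stE_apply, hP x hx, hp x hx]
    simp
  · intro x hx j _ l _ hne
    exact absurd (stCol_apply k M N W j x l hx) hne

/-! ### the bottom states -/

theorem GG_bot (a : I → I → ℕ) (hs : ∀ i j, a i j = a j i)
    (fam : Finset I → (I → ℚ) → (ℕ → ℚ) → ℕ → FFn I) (γ P p : I → ℚ) (M N : I → I → ℚ)
    (W : Finset I) (q : I → ℚ) (w : Finset I → ℕ → ℚ)
    (hP : ∀ x ∈ W, P x = 0) (hp : ∀ x ∈ W, p x = 0)
    (hcons : ∀ i, cv a γ i = -P i)
    (hfam : ∀ B ∈ comps a W, ∀ T : Trm I, RReg B T →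
      evF a B (fam B q (w B) 0) T = w B 0 * TV a (T.cols B (fun x => sy x 1))) :
    GG a fam 1 γ P p M N W q w =
      if ∀ i, γ i = 0 then (blk W M).det * ∏ B ∈ clusters a W, w B 0 else 0 := by
  have h1 := evU_prod a hs (fun x => sy x 1) (by
      intro j x l hx
      rw [Finsupp.single_apply, if_neg (fun h1 => hx (Prod.mk.inj h1).1.symm)])
    (fun b => w b.1 0) (stBlk a fam 1 W q w) (stBlk_sep a hs fam 1 W q w) (by
      intro b hb T hT
      unfold stBlk at hb
      rw [List.mem_map] at hb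
      obtain ⟨B, hB, rfl⟩ := hb
      exact hfam B (Finset.mem_toList.1 hB) T hT) (stTrm 1 γ P p M N W) (by
      rw [uni_stBlk a hs]
      exact stTrm_RReg 1 γ P p M N W hP hp)
  unfold GG
  rw [h1, uni_stBlk a hs]
  have h2 : ((stBlk a fam 1 W q w).map (fun b => w b.1 0)).prod = ∏ B ∈ clusters a W, w B 0 := by
    unfold stBlk
    rw [List.map_map, clusters_eq_comps a hs, ← Finset.prod_map_toList]
    rfl
  rw [h2]
  -- the value of the term
  have h3 : TV a ((stTrm 1 γ P p M N W).cols W (fun x => sy x 1)) =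
      if ∀ i, γ i = 0 then (blk W M).det else 0 := by
    have htd : ∀ i, tdg (stE 1 P p) i = cq a γ i := by
      intro i
      rw [stE_tdg 1 le_rfl, ← cv_eq_cq, hcons i]
      push_cast
      ring
    -- the exponent part is trivial
    have hmU : mU a (stE 1 P p) = 1 := by
      have : ∀ s : Finset I, mU a (∑ j ∈ s, ((-P j) • sy j 1 + (p j) • sy j (1 - 1))) = 1 := by
        intro s
        induction s using Finset.induction_on with
        | empty => rw [Finset.sum_empty, mU_zero]
        | insert j s hj ih =>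
          rw [Finset.sum_insert hj, mU_add, ih, mU_add, mul_one, mU_smul, mU_smul, mU_single,
            mU_single, rpw_rpw _ (uS_const a j 1), rpw_rpw _ (uS_const a j (1 - 1)), uS_one,
            show uS a j (1 - 1) = 1 from uS_zero a j, rpw_unit_left, rpw_unit_left, mul_one]
      exact this Finset.univ
    have hxv1 : ∀ i l : I, xv a i 1 l = if i = l then 1 else 0 := by
      intro i l
      unfold xv dlg
      rw [uu_coe, uS_one, dD_one, zero_mul, add_zero, Nat.cast_one]
    have hcolM : (colMat (fun i => dl a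
        (((stTrm 1 γ P p M N W).cols W (fun x => sy x 1)).Λ i))) =
        (blk W M).map (C : ℚ → MvPowerSeries I ℚ) := by
      refine Matrix.ext fun l i => ?_
      show dl a (if i ∈ W then sy i 1 else stCol 1 M N W i) l = C (blk W M l i)
      by_cases hi : i ∈ W
      · rw [if_pos hi, dl_single, hxv1]
        unfold blk
        rw [Matrix.of_apply, if_pos (Or.inr hi)]
        by_cases h : i = l
        · subst h
          rw [if_pos rfl, if_pos rfl, mul_one]
        · rw [if_neg h, if_neg (Ne.symm h), mul_zero, map_zero]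
      · rw [if_neg hi]
        unfold stCol
        rw [if_neg hi]
        have h4 : ∀ s : Finset I, dl a (∑ l ∈ s, (M l i • sy l 1 - N l i • sy l (1 - 1))) l =
            ∑ j ∈ s, if j = l then C (M l i) else 0 := by
          intro s
          induction s using Finset.induction_on with
          | empty => rw [Finset.sum_empty, Finset.sum_empty, dl_zero]
          | insert j s hj ih =>
            rw [Finset.sum_insert hj, Finset.sum_insert hj, dl_add, ih]
            congr 1
            rw [sub_eq_add_neg, dl_add, ← neg_smul, dl_smul, dl_smul, dl_single,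
              show sy j (1 - 1) = Finsupp.single (j, 0) (1 : ℚ) from rfl, dl_lev0, hxv1, mul_zero,
              add_zero, map_one, one_mul]
            by_cases h : j = l
            · subst h
              rw [if_pos rfl, if_pos rfl, mul_one]
            · rw [if_neg h, if_neg h, mul_zero]
        rw [h4, Finset.sum_ite_eq' (Finset.univ \ W) l]
        unfold blk
        rw [Matrix.of_apply]
        by_cases hl : l ∈ W
        · rw [if_neg (fun h => (Finset.mem_sdiff.1 h).2 hl), if_pos (Or.inl hl), if_neg, map_zero]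
          rintro rfl
          exact hi hl
        · rw [if_pos (Finset.mem_sdiff.2 ⟨Finset.mem_univ l, hl⟩), if_neg]
          rintro (h | h)
          · exact hl h
          · exact hi h
    by_cases hok : TOk a ((stTrm 1 γ P p M N W).cols W (fun x => sy x 1))
    · rw [TV_of_ok a _ hok]
      unfold TV0
      rw [hcolM]
      show coeff (gN γ) (mU a (stE 1 P p) * ((blk W M).map (C : ℚ → MvPowerSeries I ℚ)).det) = _
      rw [hmU, one_mul]
      have h5 : ((blk W M).map (C : ℚ → MvPowerSeries I ℚ)).det = C (blk W M).det := by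
        have := (C : ℚ →+* MvPowerSeries I ℚ).map_det (blk W M)
        rw [this]
        rfl
      rw [h5, coeff_C]
      have h6 : (gN γ = 0) ↔ ∀ i, γ i = 0 := by
        constructor
        · intro h i
          have h7 := hok.1 i
          have h8 : gN γ i = 0 := by rw [h]; rfl
          have h9 : (⌊γ i⌋₊ : ℕ) = 0 := h8
          have h10 : ((⌊γ i⌋₊ : ℕ) : ℚ) = γ i := h7
          rw [← h10, h9]
          simp
        · intro h
          ext i
          show ⌊γ i⌋₊ = 0
          rw [h i]
          simp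
      by_cases h7 : ∀ i, γ i = 0
      · rw [if_pos (h6.2 h7), if_pos h7]
      · rw [if_neg (fun h => h7 (h6.1 h)), if_neg h7]
    · rw [TV_of_not a _ hok, if_neg]
      intro h
      apply hok
      refine ⟨fun i => ?_, fun i => htd i⟩
      show ((⌊γ i⌋₊ : ℕ) : ℚ) = γ i
      rw [h i]
      simp
  rw [h3]
  by_cases h4 : ∀ i, γ i = 0
  · rw [if_pos h4, if_pos h4, mul_comm]
  · rw [if_neg h4, if_neg h4, mul_zero]

/-- level zero: `tauT a B 0 q` only sets the columns. -/
theorem TV_tauT_zero (a : I → I → ℕ) (B : Finset I) (q : I → ℚ) (T : Trm I) :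
    TV a (tauT a B 0 q T) = TV a (T.cols B (fun x => sy x 1)) := by
  apply TV_lev0
  · funext i
    show T.γ i - ((0 : ℕ) : ℚ) * (-resQ B q i) = T.γ i
    push_cast
    ring
  · intro i k hk
    show (T.E - ∑ x, (-resQ B q x) • cE a x 0) (i, k) = T.E (i, k)
    rw [Finsupp.sub_apply, Finsupp.finsetSum_apply, Finset.sum_eq_zero, sub_zero]
    intro x _
    unfold cE
    rw [Finsupp.smul_apply, Finsupp.finsetSum_apply, Finset.sum_eq_zero, smul_zero]
    intro j _
    rw [Finsupp.smul_apply, Finsupp.single_apply, if_neg, smul_zero]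
    intro h
    have := (Prod.mk.inj h).2
    omega
  · intro j i k _
    rfl

/-! ### the top states -/

theorem rpw_zpow (u : (MvPowerSeries I ℚ)ˣ)
    (hu : constantCoeff (u : MvPowerSeries I ℚ) = 1) (z : ℤ) :
    rpw (u : MvPowerSeries I ℚ) (z : ℚ) = ((u ^ z : (MvPowerSeries I ℚ)ˣ) : MvPowerSeries I ℚ) := by
  have hnat : ∀ n : ℕ, rpw (u : MvPowerSeries I ℚ) (n : ℚ) =
      ((u ^ n : (MvPowerSeries I ℚ)ˣ) : MvPowerSeries I ℚ) := by
    intro n
    rw [rpw_nat _ hu, Units.val_pow_eq_pow_val]
  rcases Int.eq_nat_or_neg z with ⟨n, rfl | rfl⟩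
  · rw [zpow_natCast, ← hnat n]
    push_cast
    rfl
  · have h1 : rpw (u : MvPowerSeries I ℚ) ((-(n : ℤ) : ℤ) : ℚ) *
        rpw (u : MvPowerSeries I ℚ) (n : ℚ) = 1 := by
      rw [← rpw_add _ hu]
      push_cast
      rw [neg_add_cancel, rpw_zero _ hu]
    rw [hnat n] at h1
    rw [zpow_neg, zpow_natCast]
    exact (Units.mul_eq_one_iff_eq_inv).1 h1

theorem mU_stE (a : I → I → ℕ) (k : ℕ) (P p : I → ℤ) :
    mU a (stE k (fun i => (P i : ℚ)) (fun i => (p i : ℚ))) =
      ((∏ i, ((uu a i k) ^ (-(P i)) * (uu a i (k - 1)) ^ (p i)) : (MvPowerSeries I ℚ)ˣ) :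
        MvPowerSeries I ℚ) := by
  have : ∀ s : Finset I, mU a (∑ j ∈ s, ((-(P j : ℚ)) • sy j k + (p j : ℚ) • sy j (k - 1))) =
      ((∏ i ∈ s, ((uu a i k) ^ (-(P i)) * (uu a i (k - 1)) ^ (p i)) : (MvPowerSeries I ℚ)ˣ) :
        MvPowerSeries I ℚ) := by
    intro s
    induction s using Finset.induction_on with
    | empty => rw [Finset.sum_empty, Finset.prod_empty, mU_zero, Units.val_one]
    | insert j s hj ih =>
      rw [Finset.sum_insert hj, Finset.prod_insert hj, mU_add, ih, mU_add, mU_smul, mU_smul,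
        mU_single, mU_single, rpw_one _ (uS_const a j k), rpw_one _ (uS_const a j (k - 1)),
        Units.val_mul, Units.val_mul]
      congr 2
      · rw [← rpw_zpow (uu a j k) (by rw [uu_coe, uS_const]), uu_coe]
        push_cast
        rfl
      · rw [← rpw_zpow (uu a j (k - 1)) (by rw [uu_coe, uS_const]), uu_coe]
  exact this Finset.univ

theorem stCol_diag (k : ℕ) (W : Finset I) (Pd : I → Prop) [DecidablePred Pd] (h : I → ℚ) (i : I)
    (hi : i ∉ W) (hP : Pd i) :
    stCol k idm (fun l i => if l = i ∧ Pd i then h i else 0) W i =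
      sy i k + (-h i) • sy i (k - 1) := by
  unfold stCol
  rw [if_neg hi, Finset.sum_eq_single i]
  · unfold idm
    beta_reduce
    rw [if_pos rfl, one_smul, if_pos ⟨rfl, hP⟩, neg_smul, sub_eq_add_neg]
  · intro l _ hl
    unfold idm
    beta_reduce
    rw [if_neg hl, zero_smul, if_neg (fun h => hl h.1), zero_smul, sub_zero]
  · intro h
    exact absurd (Finset.mem_sdiff.2 ⟨Finset.mem_univ i, hi⟩) h

/-- the top states. -/
theorem GG_top (a : I → I → ℕ) (hs : ∀ i j, a i j = a j i)
    (fam : Finset I → (I → ℚ) → (ℕ → ℚ) → ℕ → FFn I) (α : I →₀ ℕ) (K : ℕ) (μ : I → ℚ) (ε : ℚ)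
    (hμ : ∀ i, a i i = 0 → cw a α i = 0 → μ i = 0)
    (hfam : ∀ B ∈ comps a (Zt a α), ∀ T : Trm I, RReg B T →
      evF a B (fam B (fun _ => 0) (fun _ => 1) K) T =
        TV a (T.cols B (fun x => sy x (K + 1) - sy x K))) :
    Val a α ⟨fun _ => K + 1, fun i => -cw a α i, fun i => -cw a α i,
        fun l i => if l = i then 1 - ε * μ i else 0⟩ =
      GG a fam (K + 1) (fun i => (α i : ℚ)) (fun i => -((cw a α i : ℤ) : ℚ))
        (fun i => -((cw a α i : ℤ) : ℚ))
        idm (fun l i => if l = i ∧ ¬ (a i i = 0 ∧ cw a α i = 0) then 1 - ε * μ i else 0)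
        (Zt a α) (fun _ => 0) (fun _ _ => 1) := by
  have hmem : ∀ i, i ∈ Zt a α ↔ a i i = 0 ∧ cw a α i = 0 := by
    intro i
    unfold Zt
    rw [Finset.mem_filter]
    exact ⟨fun h => h.2, fun h => ⟨Finset.mem_univ _, h⟩⟩
  have hz : ∀ x ∈ Zt a α, -((cw a α x : ℤ) : ℚ) = 0 := by
    intro x hx
    rw [((hmem x).1 hx).2]
    simp
  have h1 := evU_prod a hs (fun x => sy x (K + 1) - sy x K) (by
      intro j x l hx
      rw [Finsupp.sub_apply, Finsupp.single_apply, Finsupp.single_apply,
        if_neg (fun h1 => hx (Prod.mk.inj h1).1.symm),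
        if_neg (fun h1 => hx (Prod.mk.inj h1).1.symm), sub_zero])
    (fun _ => 1) (stBlk a fam (K + 1) (Zt a α) (fun _ => 0) (fun _ _ => 1))
    (stBlk_sep a hs fam (K + 1) (Zt a α) (fun _ => 0) (fun _ _ => 1)) (by
      intro b hb T hT
      unfold stBlk at hb
      rw [List.mem_map] at hb
      obtain ⟨B, hB, rfl⟩ := hb
      rw [one_mul]
      exact hfam B (Finset.mem_toList.1 hB) T hT)
    (stTrm (K + 1) (fun i => (α i : ℚ)) (fun i => -((cw a α i : ℤ) : ℚ))
      (fun i => -((cw a α i : ℤ) : ℚ)) idm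
      (fun l i => if l = i ∧ ¬ (a i i = 0 ∧ cw a α i = 0) then 1 - ε * μ i else 0) (Zt a α)) (by
      rw [uni_stBlk a hs]
      exact stTrm_RReg (K + 1) _ _ _ _ _ (Zt a α) hz hz)
  unfold GG
  rw [h1, uni_stBlk a hs, List.prod_map_one, one_mul]
  have hcast : (fun i => -((cw a α i : ℤ) : ℚ)) = fun i => ((-cw a α i : ℤ) : ℚ) := by
    funext i
    push_cast
    rfl
  have htd : ∀ i, tdg (stE (K + 1) (fun i => -((cw a α i : ℤ) : ℚ))
      (fun i => -((cw a α i : ℤ) : ℚ))) i = (cw a α i : ℚ) := by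
    intro i
    rw [stE_tdg (K + 1) (by omega)]
    push_cast
    ring
  have hΛ : ∀ i, (if i ∈ Zt a α then sy i (K + 1) - sy i K else
      stCol (K + 1) idm (fun l i => if l = i ∧ ¬ (a i i = 0 ∧ cw a α i = 0) then 1 - ε * μ i else 0)
        (Zt a α) i) = sy i (K + 1) + (-(1 - ε * μ i)) • sy i K := by
    intro i
    by_cases hi : i ∈ Zt a α
    · rw [if_pos hi, hμ i ((hmem i).1 hi).1 ((hmem i).1 hi).2, mul_zero, sub_zero, neg_smul,
        one_smul, sub_eq_add_neg]
    · rw [if_neg hi]
      exact stCol_diag (K + 1) (Zt a α) (fun i => ¬ (a i i = 0 ∧ cw a α i = 0))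
        (fun i => 1 - ε * μ i) i hi (fun h => hi ((hmem i).2 h))
  have h2 : (stTrm (K + 1) (fun i => (α i : ℚ)) (fun i => -((cw a α i : ℤ) : ℚ))
      (fun i => -((cw a α i : ℤ) : ℚ)) idm
      (fun l i => if l = i ∧ ¬ (a i i = 0 ∧ cw a α i = 0) then 1 - ε * μ i else 0)
      (Zt a α)).cols (Zt a α) (fun x => sy x (K + 1) - sy x K) =
      ⟨fun i => ((α i : ℕ) : ℚ), stE (K + 1) (fun i => -((cw a α i : ℤ) : ℚ))
        (fun i => -((cw a α i : ℤ) : ℚ)), fun i => sy i (K + 1) + (-(1 - ε * μ i)) • sy i K⟩ :=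
    Trm.ext rfl rfl (funext hΛ)
  rw [h2, TV_nat a α _ _ htd, hcast, mU_stE]
  have hcol : colMat (fun i => dl a (sy i (K + 1) + (-(1 - ε * μ i)) • sy i K)) =
      colMat (colS a ⟨fun _ => K + 1, fun i => -cw a α i, fun i => -cw a α i,
        fun l i => if l = i then 1 - ε * μ i else 0⟩) := by
    refine Matrix.ext fun l i => ?_
    show dl a (sy i (K + 1) + (-(1 - ε * μ i)) • sy i K) l =
      xv a i (K + 1) l - ∑ l', C (if l' = i then 1 - ε * μ i else 0) * xv a l' (K + 1 - 1) l
    rw [dl_add, dl_smul, dl_single, dl_single, map_one, one_mul, one_mul, Nat.add_sub_cancel,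
      Finset.sum_eq_single i]
    · rw [if_pos rfl, map_neg, neg_mul, ← sub_eq_add_neg]
    · intro l' _ hl
      rw [if_neg hl, map_zero, zero_mul]
    · intro h
      exact absurd (Finset.mem_univ i) h
  rw [hcol]
  rfl

end Pool.Agent.H40.KADE
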