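import Pool.Agent.H40.KADE.E8
import Pool.Agent.H27.KB.F2

/-!
KAC ADE: glue between the engine and the growth part.
-/

set_option autoImplicit false

namespace Pool.Agent.H40.KADE

open scoped BigOperators
open Pool.Agent.H27.KAC Pool.Agent.H27.KB Pool.H88.KA

/-- the output of the cluster calculus for all symmetric matrices. -/
def AllCal : Prop :=
  ∀ (I : Type) [Fintype I] [DecidableEq I] (a : I → I → ℕ), (∀ i j, a i j = a j i) →
    (∀ i, a i i ≠ 1) → ∃ (cn : Finset I → (I → ℚ) → ℕ → ℚ)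
      (G : ℕ → (I → ℚ) → (I → ℚ) → (I → ℚ) → (I → I → ℚ) → (I → I → ℚ) → Finset I → (I → ℚ) →
        (Finset I → ℕ → ℚ) → ℚ), CN a cn ∧ ClusterVal a cn G

theorem amp_of_ampG {I : Type} [Fintype I] [DecidableEq I] {a : I → I → ℕ} {α : I →₀ ℕ}
    (h : AmpG a α) : Amp a α :=
  ⟨h.supp, h.pos, h.posl, h.ex⟩

theorem eng_of_cal {I : Type} [Fintype I] [DecidableEq I] (a : I → I → ℕ)
    (hs : ∀ i j, a i j = a j i) (hd : ∀ i, a i i ≠ 1) (hc : Conn a)
    {cn : Finset I → (I → ℚ) → ℕ → ℚ} (hcn : CN a cn)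
    {G : ℕ → (I → ℚ) → (I → ℚ) → (I → ℚ) → (I → I → ℚ) → (I → I → ℚ) → Finset I → (I → ℚ) →
      (Finset I → ℕ → ℚ) → ℚ} (hG : ClusterVal a cn G) : Eng a where
  symm := hs
  diag := hd
  conn := hc
  nonneg := fun f hK α hα => f_nonneg_amp a hs hd hc hcn hG f hK α (amp_of_ampG hα)
  low := fun f hK α hα K hK2 => EW_le_fZ a hs hd hc hcn hG f hK α (amp_of_ampG hα) K hK2

theorem allEng (h : AllCal) : AllEng := by
  intro I _ _ a _ hs hd hc
  obtain ⟨cn, G, hcn, hG⟩ := h I a hs hd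
  exact eng_of_cal a hs hd hc hcn hG

open Polynomial Filter Topology in
/-- the final theorem from the cluster calculus. -/
theorem kac_of_cal (h : AllCal) {I E : Type} [Finite I] [Finite E] (Q : Quiv I E) :
    ∃ p : (I → ℕ) → ℚ[X], (∀ α, IsKacPoly Q α (p α)) ∧
      ∃ F : (I → ℝ) → ℝ, Continuous F ∧ (∀ (t : ℝ) (x : I → ℝ), 0 ≤ t → F (t • x) = t * F x) ∧
        ∀ α : I → ℕ, (∀ᶠ n : ℕ in atTop, 0 < (p (fun i => n * α i)).eval 1) →
        Tendsto (fun n : ℕ => Real.log (((p (fun i => n * α i)).eval 1 : ℚ) : ℝ) / n) atTop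
          (𝓝 (F (fun i => (α i : ℝ)))) :=
  kac_growth_all (allEng h) Q

end Pool.Agent.H40.KADE
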